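import Mathlib

/-!
# Module ASM: smooth assembly of a family of seminorms

Author: helper33, for the project on `MP_e3abba_an` of helper94.
The target is `Pool.H94S.asm`.  A locally finite sum of quadratic bumps of the seminorms
`(1 - η) P + e N` is convex and differentiable on the open ball of `p'`; its unit sublevel set is
the unit ball of a seminorm which is differentiable away from zero.
-/

namespace Pool.H94S.AsmAux

open Filter Topology

section gauge

variable {E : Type} [NormedAddCommGroup E] [NormedSpace ℝ E]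

/-- A seminorm dominated by the norm is continuous. -/
theorem seminorm_cont (r : Seminorm ℝ E) {C : ℝ} (hr : ∀ f, r f ≤ C * ‖f‖) : Continuous r := by
  have : LipschitzWith (Real.toNNReal |C|) r := by
    apply LipschitzWith.of_dist_le_mul
    intro f g
    rw [Real.coe_toNNReal _ (abs_nonneg C), Real.dist_eq, dist_eq_norm]
    calc |r f - r g| ≤ r (f - g) := abs_sub_map_le_sub r f g
      _ ≤ C * ‖f - g‖ := hr _
      _ ≤ |C| * ‖f - g‖ := mul_le_mul_of_nonneg_right (le_abs_self _) (norm_nonneg _)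
  exact this.continuous

/-- Comparison of seminorms by their unit balls. -/
theorem seminorm_le_of_ball (r q : Seminorm ℝ E) (c : ℝ) (hc : 0 < c)
    (h : ∀ f, c * q f < 1 → r f ≤ 1) : ∀ f, r f ≤ c * q f := by
  intro f
  by_contra hlt
  push Not at hlt
  obtain ⟨t, ht1, ht2⟩ := exists_between hlt
  have hq0 : 0 ≤ q f := apply_nonneg q f
  have ht0 : 0 < t := lt_of_le_of_lt (by positivity) ht1
  have h1 : q (t⁻¹ • f) = t⁻¹ * q f := by
    rw [map_smul_eq_mul, Real.norm_eq_abs, abs_of_pos (inv_pos.mpr ht0)]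
  have h2 : r (t⁻¹ • f) = t⁻¹ * r f := by
    rw [map_smul_eq_mul, Real.norm_eq_abs, abs_of_pos (inv_pos.mpr ht0)]
  have h3 : c * q (t⁻¹ • f) < 1 := by
    rw [h1]
    have : c * (t⁻¹ * q f) = (c * q f) / t := by field_simp
    rw [this, div_lt_one ht0]
    exact ht1
  have h4 := h _ h3
  rw [h2] at h4
  have h5 : t⁻¹ * r f = r f / t := by field_simp
  rw [h5, div_le_one ht0] at h4
  linarith

/-- The gradient inequality for a convex function. -/
theorem gradient_ineq {U : Set E} {F : E → ℝ} (hF : ConvexOn ℝ U F) {f g : E} (hf : f ∈ U)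
    (hg : g ∈ U) {l : E →L[ℝ] ℝ} (hl : HasFDerivAt F l f) : l (g - f) ≤ F g - F f := by
  have h1 : HasDerivAt (fun t : ℝ => F (f + t • (g - f))) (l (g - f)) 0 := by
    have hlin : HasDerivAt (fun t : ℝ => f + t • (g - f)) (g - f) 0 := by
      have := (hasDerivAt_id (0 : ℝ)).smul_const (g - f)
      simpa using this.const_add f
    have hl' : HasFDerivAt F l (f + (0 : ℝ) • (g - f)) := by simpa using hl
    exact hl'.comp_hasDerivAt (0 : ℝ) hlin
  rw [hasDerivAt_iff_tendsto_slope] at h1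
  have h2 : Tendsto (slope (fun t : ℝ => F (f + t • (g - f))) 0) (𝓝[>] 0) (𝓝 (l (g - f))) :=
    h1.mono_left (nhdsWithin_mono _ (fun x hx => ne_of_gt hx))
  refine le_of_tendsto h2 ?_
  have h3 : Set.Ioc (0 : ℝ) 1 ∈ 𝓝[>] (0 : ℝ) := Ioc_mem_nhdsGT zero_lt_one
  filter_upwards [h3] with t ht
  rw [slope_def_field]
  simp only [zero_smul, add_zero, sub_zero]
  rw [div_le_iff₀ ht.1]
  have h4 := hF.2 hf hg (by linarith [ht.2] : (0 : ℝ) ≤ 1 - t) ht.1.le (by ring)
  have h5 : (1 - t) • f + t • g = f + t • (g - f) := by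
    rw [sub_smul, one_smul, smul_sub]; abel
  rw [h5] at h4
  simp only [smul_eq_mul] at h4
  linarith

/-- Smoothness of the gauge at a point of the unit sphere. -/
theorem gauge_smooth_sphere {U : Set E} (hU : IsOpen U) {F : E → ℝ} (hF : ConvexOn ℝ U F)
    (q : Seminorm ℝ E) (hB1 : ∀ f ∈ U, F f ≤ 1 → q f ≤ 1) (hB2 : ∀ f, q f < 1 → f ∈ U ∧ F f ≤ 1)
    (hF0 : F 0 ≤ 0) (f : E) (hfU : f ∈ U) (hqf : q f = 1) (hFf : F f = 1)
    (hd : DifferentiableAt ℝ F f) : DifferentiableAt ℝ (fun g => q g) f := by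
  obtain ⟨l0, hl0⟩ := hd
  have h0U : (0 : E) ∈ U := (hB2 0 (by simp)).1
  have hl0f : 1 ≤ l0 f := by
    have := gradient_ineq hF hfU h0U hl0
    rw [zero_sub, map_neg] at this
    linarith
  have hl0pos : 0 < l0 f := by linarith
  have hl0B : ∀ g, q g < 1 → l0 g ≤ l0 f := by
    intro g hg
    obtain ⟨hgU, hgF⟩ := hB2 g hg
    have := gradient_ineq hF hfU hgU hl0
    rw [map_sub] at this
    linarith
  set l : E →L[ℝ] ℝ := (l0 f)⁻¹ • l0 with hldef
  have hlg : ∀ g, l g = (l0 f)⁻¹ * l0 g := by intro g; simp [hldef]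
  have hlf : l f = 1 := by rw [hlg]; field_simp
  have hl1 : ∀ g, q g < 1 → l g ≤ 1 := by
    intro g hg
    rw [hlg]
    have := hl0B g hg
    have h2 : (l0 f)⁻¹ * l0 g ≤ (l0 f)⁻¹ * l0 f :=
      mul_le_mul_of_nonneg_left this (inv_pos.mpr hl0pos).le
    have h3 : (l0 f)⁻¹ * l0 f = 1 := by field_simp
    linarith
  have hlq : ∀ g, l g ≤ q g := by
    intro g
    by_contra hlt
    push Not at hlt
    obtain ⟨t, ht1, ht2⟩ := exists_between hlt
    have hq0 : 0 ≤ q g := apply_nonneg q g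
    have ht0 : 0 < t := lt_of_le_of_lt hq0 ht1
    have h1 : q (t⁻¹ • g) = t⁻¹ * q g := by
      rw [map_smul_eq_mul, Real.norm_eq_abs, abs_of_pos (inv_pos.mpr ht0)]
    have h3 : q (t⁻¹ • g) < 1 := by
      rw [h1]
      have : t⁻¹ * q g = q g / t := by field_simp
      rw [this, div_lt_one ht0]
      exact ht1
    have h4 := hl1 _ h3
    rw [map_smul, smul_eq_mul] at h4
    have h5 : t⁻¹ * l g = l g / t := by field_simp
    rw [h5, div_le_one ht0] at h4
    linarith
  refine ⟨l, ?_⟩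
  rw [hasFDerivAt_iff_isLittleO_nhds_zero, Asymptotics.isLittleO_iff]
  intro d hd
  -- constants
  set M : ℝ := 1 + (‖l‖ + d) * ‖f‖ with hM
  have hMpos : 0 < M := by positivity
  set c : ℝ := d * l0 f / M with hc
  have hcpos : 0 < c := by positivity
  have hl0' := hl0
  rw [hasFDerivAt_iff_isLittleO_nhds_zero, Asymptotics.isLittleO_iff] at hl0'
  have hev := hl0' hcpos
  have hUev : ∀ᶠ k in 𝓝 (0 : E), f + k ∈ U := by
    have : Tendsto (fun k : E => f + k) (𝓝 0) (𝓝 (f + 0)) := tendsto_const_nhds.add tendsto_id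
    rw [add_zero] at this
    exact this (hU.mem_nhds hfU)
  set S : E → ℝ := fun h => l h + d * ‖h‖ with hS
  have hScont : Continuous S := by fun_prop
  have hS0 : S 0 = 0 := by simp [hS]
  set Kf : E → E := fun h => (1 + S h)⁻¹ • (h - S h • f) with hKf
  have hK : Tendsto Kf (𝓝 0) (𝓝 0) := by
    have h1 : ContinuousAt Kf 0 := by
      apply ContinuousAt.smul
      · apply ContinuousAt.inv₀
        · exact (continuous_const.add hScont).continuousAt
        · rw [hS0]; norm_num
      · exact (continuous_id.sub (hScont.smul continuous_const)).continuousAt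
    have h2 : Kf 0 = 0 := by simp [hKf, hS0]
    have := h1.tendsto
    rwa [h2] at this
  have hSpos : ∀ᶠ h in 𝓝 (0 : E), -(1/2) < S h := by
    have : Tendsto S (𝓝 0) (𝓝 0) := by
      have := hScont.tendsto 0
      rwa [hS0] at this
    exact this.eventually (lt_mem_nhds (by norm_num))
  filter_upwards [hK.eventually hev, hK.eventually hUev, hSpos] with h hev1 hev2 hev3
  have h1S : 0 < 1 + S h := by linarith
  have hlow : l h ≤ q (f + h) - q f := by
    have := hlq (f + h)
    rw [map_add, hlf] at this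
    linarith
  have hup : q (f + h) ≤ 1 + S h := by
    -- the point f + K
    have hpt : f + Kf h = (1 + S h)⁻¹ • (f + h) := by
      have : f = (1 + S h)⁻¹ • ((1 + S h) • f) := by
        rw [smul_smul, inv_mul_cancel₀ h1S.ne', one_smul]
      simp only [hKf]
      conv_lhs => rw [this]
      rw [smul_smul, inv_mul_cancel₀ h1S.ne', one_smul]
      have h2 : f = (1 + S h)⁻¹ • ((1 + S h) • f) := this
      calc f + (1 + S h)⁻¹ • (h - S h • f)
          = (1 + S h)⁻¹ • ((1 + S h) • f) + (1 + S h)⁻¹ • (h - S h • f) := by rw [← h2]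
        _ = (1 + S h)⁻¹ • (f + h) := by
            rw [← smul_add]
            congr 1
            rw [add_smul, one_smul]; abel
    have hKnorm : ‖Kf h‖ ≤ (1 + S h)⁻¹ * (M * ‖h‖) := by
      simp only [hKf]
      rw [norm_smul, Real.norm_eq_abs, abs_of_pos (inv_pos.mpr h1S)]
      apply mul_le_mul_of_nonneg_left _ (inv_pos.mpr h1S).le
      calc ‖h - S h • f‖ ≤ ‖h‖ + ‖S h • f‖ := norm_sub_le _ _
        _ = ‖h‖ + |S h| * ‖f‖ := by rw [norm_smul, Real.norm_eq_abs]
        _ ≤ ‖h‖ + ((‖l‖ + d) * ‖h‖) * ‖f‖ := by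
            have : |S h| ≤ (‖l‖ + d) * ‖h‖ := by
              simp only [hS]
              calc |l h + d * ‖h‖| ≤ |l h| + |d * ‖h‖| := abs_add_le _ _
                _ ≤ ‖l‖ * ‖h‖ + d * ‖h‖ := by
                    have h1 : |l h| ≤ ‖l‖ * ‖h‖ := by
                      rw [← Real.norm_eq_abs]; exact l.le_opNorm h
                    have h2 : |d * ‖h‖| = d * ‖h‖ := abs_of_nonneg (by positivity)
                    rw [h2]
                    linarith
                _ = (‖l‖ + d) * ‖h‖ := by ring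
            have := mul_le_mul_of_nonneg_right this (norm_nonneg f)
            linarith
        _ = M * ‖h‖ := by rw [hM]; ring
    have hl0K : l0 (Kf h) = (1 + S h)⁻¹ * (- (l0 f * (d * ‖h‖))) := by
      simp only [hKf]
      rw [map_smul, smul_eq_mul, map_sub, map_smul, smul_eq_mul]
      congr 1
      have : l0 h = l0 f * l h := by rw [hlg]; field_simp
      rw [this]
      simp only [hS]
      ring
    have hFle : F (f + Kf h) ≤ 1 := by
      have h1 : F (f + Kf h) - F f - l0 (Kf h) ≤ c * ‖Kf h‖ := by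
        have := hev1
        rw [Real.norm_eq_abs] at this
        exact (le_abs_self _).trans this
      rw [hFf, hl0K] at h1
      have h2 : c * ‖Kf h‖ ≤ (1 + S h)⁻¹ * (l0 f * (d * ‖h‖)) := by
        calc c * ‖Kf h‖ ≤ c * ((1 + S h)⁻¹ * (M * ‖h‖)) :=
              mul_le_mul_of_nonneg_left hKnorm hcpos.le
          _ = (1 + S h)⁻¹ * (l0 f * (d * ‖h‖)) := by
              rw [hc]; field_simp
      have h3 : (1 + S h)⁻¹ * (- (l0 f * (d * ‖h‖))) = -((1 + S h)⁻¹ * (l0 f * (d * ‖h‖))) := by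
        ring
      rw [h3] at h1
      linarith
    have hq1 := hB1 _ hev2 hFle
    rw [hpt, map_smul_eq_mul, Real.norm_eq_abs, abs_of_pos (inv_pos.mpr h1S)] at hq1
    have h5 : (1 + S h)⁻¹ * q (f + h) = q (f + h) / (1 + S h) := by field_simp
    rw [h5, div_le_one h1S] at hq1
    exact hq1
  rw [Real.norm_eq_abs, abs_le]
  constructor
  · have : 0 ≤ d * ‖h‖ := by positivity
    linarith
  · rw [hqf]
    simp only [hS] at hup
    linarith

end gauge

section core

variable {E : Type} [NormedAddCommGroup E] [NormedSpace ℝ E]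

/-- The quadratic bump used for the smooth assembly. -/
noncomputable def phi (b x : ℝ) : ℝ := (max 0 ((x - 1 + b) / b)) ^ 2

theorem phi_nonneg (b x : ℝ) : 0 ≤ phi b x := sq_nonneg _

theorem phi_eq_zero {b x : ℝ} (hb : 0 < b) (hx : x ≤ 1 - b) : phi b x = 0 := by
  unfold phi
  have : (x - 1 + b) / b ≤ 0 := div_nonpos_of_nonpos_of_nonneg (by linarith) hb.le
  rw [max_eq_left this]
  norm_num

theorem le_one_of_phi_le {b x : ℝ} (hb : 0 < b) (h : phi b x ≤ 1) : x ≤ 1 := by
  by_contra hlt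
  push Not at hlt
  have h1 : 1 < (x - 1 + b) / b := by
    rw [lt_div_iff₀ hb]; linarith
  unfold phi at h
  rw [max_eq_right (by linarith)] at h
  nlinarith

theorem phi_convex (A : Seminorm ℝ E) {b : ℝ} (hb : 0 < b) (f g : E) {s t : ℝ} (hs : 0 ≤ s)
    (ht : 0 ≤ t) (hst : s + t = 1) :
    phi b (A (s • f + t • g)) ≤ s * phi b (A f) + t * phi b (A g) := by
  unfold phi
  set u := max 0 ((A f - 1 + b) / b) with hu
  set v := max 0 ((A g - 1 + b) / b) with hv
  have hu0 : 0 ≤ u := le_max_left _ _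
  have hv0 : 0 ≤ v := le_max_left _ _
  have h1 : A (s • f + t • g) ≤ s * A f + t * A g := by
    calc A (s • f + t • g) ≤ A (s • f) + A (t • g) := map_add_le_add _ _ _
      _ = s * A f + t * A g := by
          rw [map_smul_eq_mul, map_smul_eq_mul, Real.norm_eq_abs, Real.norm_eq_abs,
            abs_of_nonneg hs, abs_of_nonneg ht]
  have h2 : max 0 ((A (s • f + t • g) - 1 + b) / b) ≤ s * u + t * v := by
    apply max_le (by positivity)
    have h3 : (A f - 1 + b) / b ≤ u := le_max_right _ _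
    have h4 : (A g - 1 + b) / b ≤ v := le_max_right _ _
    calc (A (s • f + t • g) - 1 + b) / b ≤ ((s * A f + t * A g) - 1 + b) / b := by
          apply div_le_div_of_nonneg_right _ hb.le
          linarith
      _ = s * ((A f - 1 + b) / b) + t * ((A g - 1 + b) / b) := by
          field_simp
          have : t = 1 - s := by linarith
          rw [this]; ring
      _ ≤ s * u + t * v := by
          have := mul_le_mul_of_nonneg_left h3 hs
          have := mul_le_mul_of_nonneg_left h4 ht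
          linarith
  have h3 : (max 0 ((A (s • f + t • g) - 1 + b) / b)) ^ 2 ≤ (s * u + t * v) ^ 2 :=
    pow_le_pow_left₀ (le_max_left _ _) h2 2
  have h4 : (s * u + t * v) ^ 2 ≤ s * u ^ 2 + t * v ^ 2 := by
    have : t = 1 - s := by linarith
    subst this
    nlinarith [mul_nonneg (mul_nonneg hs ht) (sq_nonneg (u - v))]
  linarith

theorem phi_diff (A : Seminorm ℝ E) {Kc : ℝ} (hA : ∀ f, A f ≤ Kc * ‖f‖) {b : ℝ} (hb : 0 < b)
    (g : E) (h : 1 - b < A g → DifferentiableAt ℝ (fun f => A f) g) :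
    DifferentiableAt ℝ (fun f => phi b (A f)) g := by
  by_cases hg : 1 - b < A g
  · have hd := h hg
    have hcont := hd.continuousAt
    have hev : ∀ᶠ f in 𝓝 g, 1 - b < A f := hcont.eventually (lt_mem_nhds hg)
    have heq : (fun f => phi b (A f)) =ᶠ[𝓝 g] fun f => ((A f - 1 + b) / b) ^ 2 := by
      filter_upwards [hev] with f hf
      unfold phi
      rw [max_eq_right]
      apply div_nonneg (by linarith) hb.le
    rw [heq.differentiableAt_iff]
    have h1 : DifferentiableAt ℝ (fun f => (A f - 1 + b) * b⁻¹) g :=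
      ((hd.sub_const 1).add_const b).mul_const _
    simp only [div_eq_mul_inv]
    exact h1.pow 2
  · push Not at hg
    have h0 : phi b (A g) = 0 := phi_eq_zero hb hg
    have hKc : 0 ≤ |Kc| := abs_nonneg _
    have hbound : ∀ f, phi b (A f) ≤ (|Kc| * ‖f - g‖ / b) ^ 2 := by
      intro f
      unfold phi
      apply pow_le_pow_left₀ (le_max_left _ _)
      apply max_le (by positivity)
      apply div_le_div_of_nonneg_right _ hb.le
      have h1 : A f ≤ A (f - g) + A g := by
        have := map_add_le_add A (f - g) g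
        simpa using this
      have h2 : A (f - g) ≤ |Kc| * ‖f - g‖ :=
        (hA _).trans (mul_le_mul_of_nonneg_right (le_abs_self _) (norm_nonneg _))
      linarith
    refine ⟨0, ?_⟩
    rw [hasFDerivAt_iff_isLittleO_nhds_zero, Asymptotics.isLittleO_iff]
    intro c hc
    set R : ℝ := c * b ^ 2 / (|Kc| ^ 2 + 1) with hR
    have hRpos : 0 < R := by positivity
    filter_upwards [Metric.ball_mem_nhds (0 : E) hRpos] with k hk
    rw [mem_ball_zero_iff] at hk
    simp only [h0, sub_zero, zero_apply]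
    rw [Real.norm_eq_abs, abs_of_nonneg (phi_nonneg _ _)]
    have h1 := hbound (g + k)
    rw [add_sub_cancel_left] at h1
    calc phi b (A (g + k)) ≤ (|Kc| * ‖k‖ / b) ^ 2 := h1
      _ = |Kc| ^ 2 * ‖k‖ / b ^ 2 * ‖k‖ := by ring
      _ ≤ c * ‖k‖ := by
          apply mul_le_mul_of_nonneg_right _ (norm_nonneg _)
          rw [div_le_iff₀ (by positivity)]
          have h2 : ‖k‖ * (|Kc| ^ 2 + 1) ≤ c * b ^ 2 := by
            have := hk.le
            rw [hR, le_div_iff₀ (by positivity)] at this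
            exact this
          nlinarith [norm_nonneg k]

theorem asm_core {K : Type} (p' : Seminorm ℝ E) (C : ℝ)
    (hup : ∀ f, p' f ≤ C * ‖f‖) (ε : ℝ) (hε : 0 < ε)
    (A : K → Seminorm ℝ E) (b : K → ℝ) (hb : ∀ k, 0 < b k) (Kc : ℝ)
    (hA : ∀ k f, A k f ≤ Kc * ‖f‖)
    (H1 : ∀ f, p' f < 1 → ∃ F : Finset K, ∀ᶠ g in 𝓝 f, ∀ k ∉ F, A k g ≤ 1 - b k)
    (H2 : ∀ k g, p' g < 1 → 1 - b k < A k g → DifferentiableAt ℝ (fun h => A k h) g)
    (H3 : ∀ f, f ≠ 0 → ∃ k, p' f < A k f)
    (H4 : ∀ k f, (1 + ε) * p' f < 1 → A k f ≤ 1 - b k) :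
    ∃ q : Seminorm ℝ E, (∀ f, p' f ≤ q f ∧ q f ≤ (1 + ε) * p' f) ∧
      ∀ f, f ≠ 0 → DifferentiableAt ℝ (fun g => q g) f := by
  classical
  -- continuity of p'
  have hp'cont : Continuous p' := seminorm_cont p' hup
  set U : Set E := {f | p' f < 1} with hUdef
  have hUopen : IsOpen U := isOpen_lt hp'cont continuous_const
  have hUconv : Convex ℝ U := by
    intro x hx y hy s t hs ht hst
    simp only [hUdef, Set.mem_ofPred_eq] at hx hy ⊢
    have h1 : p' (s • x + t • y) ≤ s * p' x + t * p' y := by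
      calc p' (s • x + t • y) ≤ p' (s • x) + p' (t • y) := map_add_le_add _ _ _
        _ = s * p' x + t * p' y := by
            rw [map_smul_eq_mul, map_smul_eq_mul, Real.norm_eq_abs, Real.norm_eq_abs,
              abs_of_nonneg hs, abs_of_nonneg ht]
    rcases hs.eq_or_lt with h0 | h0
    · have : t = 1 := by linarith
      subst this
      rw [← h0] at h1 ⊢
      linarith
    · have h2 : s * p' x < s * 1 := mul_lt_mul_of_pos_left hx h0
      have h3 : t * p' y ≤ t * 1 := mul_le_mul_of_nonneg_left hy.le ht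
      linarith
  set Φ : E → ℝ := fun f => ∑ᶠ k, phi (b k) (A k f) with hΦ
  -- local finite sums
  have hloc : ∀ f ∈ U, ∃ F : Finset K, ∀ᶠ g in 𝓝 f, ∀ F' : Finset K, F ⊆ F' →
      Φ g = ∑ k ∈ F', phi (b k) (A k g) := by
    intro f hf
    obtain ⟨F, hF⟩ := H1 f hf
    refine ⟨F, ?_⟩
    filter_upwards [hF] with g hg F' hFF'
    apply finsum_eq_sum_of_support_subset
    intro k hk
    by_contra hkF
    apply hk
    exact phi_eq_zero (hb k) (hg k (fun h => hkF (hFF' h)))
  have hΦd : ∀ f ∈ U, DifferentiableAt ℝ Φ f := by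
    intro f hf
    obtain ⟨F, hF⟩ := hloc f hf
    have heq : Φ =ᶠ[𝓝 f] fun g => ∑ k ∈ F, phi (b k) (A k g) := by
      filter_upwards [hF] with g hg
      exact hg F (Finset.Subset.refl _)
    rw [heq.differentiableAt_iff]
    apply DifferentiableAt.fun_sum
    intro k _
    exact phi_diff (A k) (hA k) (hb k) f (H2 k f hf)
  have hΦconv : ConvexOn ℝ U Φ := by
    refine ⟨hUconv, ?_⟩
    intro x hx y hy s t hs ht hst
    have hxy := hUconv hx hy hs ht hst
    obtain ⟨F1, hF1⟩ := hloc x hx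
    obtain ⟨F2, hF2⟩ := hloc y hy
    obtain ⟨F3, hF3⟩ := hloc _ hxy
    set F := F1 ∪ F2 ∪ F3 with hFdef
    have e1 := hF1.self_of_nhds F (by intro k hk; simp [hFdef, hk])
    have e2 := hF2.self_of_nhds F (by intro k hk; simp [hFdef, hk])
    have e3 := hF3.self_of_nhds F (by intro k hk; simp [hFdef, hk])
    rw [e1, e2, e3]
    simp only [smul_eq_mul, Finset.mul_sum]
    rw [← Finset.sum_add_distrib]
    apply Finset.sum_le_sum
    intro k _
    exact phi_convex (A k) (hb k) x y hs ht hst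
  have hΦneg : ∀ f, Φ (-f) = Φ f := by
    intro f
    simp only [hΦ, map_neg_eq_map]
  have hΦ0 : ∀ f, (1 + ε) * p' f < 1 → Φ f = 0 := by
    intro f hf
    simp only [hΦ]
    apply finsum_eq_zero_of_forall_eq_zero
    intro k
    exact phi_eq_zero (hb k) (H4 k f hf)
  set B : Set E := {f | f ∈ U ∧ Φ f ≤ 1} with hBdef
  have hBA : ∀ f ∈ B, ∀ k, A k f ≤ 1 := by
    intro f hf k
    obtain ⟨F, hF⟩ := hloc f hf.1
    have e := hF.self_of_nhds (insert k F) (Finset.subset_insert _ _)
    apply le_one_of_phi_le (hb k)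
    calc phi (b k) (A k f) ≤ ∑ j ∈ insert k F, phi (b j) (A j f) :=
          Finset.single_le_sum (f := fun j => phi (b j) (A j f))
            (fun j _ => phi_nonneg _ _) (Finset.mem_insert_self _ _)
      _ = Φ f := e.symm
      _ ≤ 1 := hf.2
  have hBconv : Convex ℝ B := by
    intro x hx y hy s t hs ht hst
    refine ⟨hUconv hx.1 hy.1 hs ht hst, ?_⟩
    have := hΦconv.2 hx.1 hy.1 hs ht hst
    simp only [smul_eq_mul] at this
    calc Φ (s • x + t • y) ≤ s * Φ x + t * Φ y := this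
      _ ≤ s * 1 + t * 1 := by
          have := mul_le_mul_of_nonneg_left hx.2 hs
          have := mul_le_mul_of_nonneg_left hy.2 ht
          linarith
      _ = 1 := by linarith
  have hBsmall : ∀ f, (1 + ε) * p' f < 1 → f ∈ B := by
    intro f hf
    refine ⟨?_, ?_⟩
    · have : 0 ≤ ε * p' f := mul_nonneg hε.le (apply_nonneg _ _)
      simp only [hUdef, Set.mem_ofPred_eq]
      linarith
    · rw [hΦ0 f hf]; norm_num
  have hB0 : (0 : E) ∈ B := hBsmall 0 (by simp)
  have hBneg : ∀ f ∈ B, -f ∈ B := by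
    intro f hf
    refine ⟨?_, ?_⟩
    · have := hf.1
      simp only [hUdef, Set.mem_ofPred_eq, map_neg_eq_map] at this ⊢
      exact this
    · rw [hΦneg]; exact hf.2
  have hBpos : ∀ f ∈ B, ∀ c : ℝ, 0 ≤ c → c ≤ 1 → c • f ∈ B := by
    intro f hf c hc0 hc1
    have := hBconv hf hB0 hc0 (by linarith : (0 : ℝ) ≤ 1 - c) (by ring)
    simpa using this
  have hBbal : Balanced ℝ B := by
    rw [balanced_iff_smul_mem]
    intro a ha x hx
    rw [Real.norm_eq_abs, abs_le] at ha
    rcases le_total 0 a with h0 | h0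
    · exact hBpos x hx a h0 ha.2
    · have := hBneg _ (hBpos x hx (-a) (by linarith) (by linarith))
      simpa using this
  have hBnhds : B ∈ 𝓝 (0 : E) := by
    have : IsOpen {f : E | (1 + ε) * p' f < 1} :=
      isOpen_lt (continuous_const.mul hp'cont) continuous_const
    exact Filter.mem_of_superset (this.mem_nhds (by simp)) (fun f hf => hBsmall f hf)
  have hBabs : Absorbent ℝ B := absorbent_nhds_zero hBnhds
  set q : Seminorm ℝ E := gaugeSeminorm hBbal hBconv hBabs with hq
  have hq1 : ∀ f ∈ B, q f ≤ 1 := fun f hf => gauge_le_one_of_mem hf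
  have hq2 : ∀ f, q f < 1 → f ∈ B := fun f hf =>
    setOfPred_gauge_lt_one_subset_self hBconv hB0 hBabs hf
  have hp'q : ∀ f, p' f ≤ q f := by
    intro f
    have := seminorm_le_of_ball p' q 1 one_pos
      (fun g hg => by rw [one_mul] at hg; exact (hq2 g hg).1.le) f
    linarith
  have hAq : ∀ k f, A k f ≤ q f := by
    intro k f
    have := seminorm_le_of_ball (A k) q 1 one_pos
      (fun g hg => by rw [one_mul] at hg; exact hBA g (hq2 g hg) k) f
    linarith
  have hqp' : ∀ f, q f ≤ (1 + ε) * p' f :=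
    seminorm_le_of_ball q p' (1 + ε) (by linarith) (fun g hg => hq1 g (hBsmall g hg))
  have hstrict : ∀ f, f ≠ 0 → p' f < q f := by
    intro f hf
    obtain ⟨k, hk⟩ := H3 f hf
    exact hk.trans_le (hAq k f)
  refine ⟨q, fun f => ⟨hp'q f, hqp' f⟩, ?_⟩
  -- the unit sphere
  have hsphere : ∀ f, q f = 1 → DifferentiableAt ℝ (fun g => q g) f := by
    intro f hqf
    have hf0 : f ≠ 0 := by
      rintro rfl
      simp at hqf
    have hfU : f ∈ U := by
      have := hstrict f hf0
      simp only [hUdef, Set.mem_ofPred_eq]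
      linarith
    have hΦc := (hΦd f hfU).continuousAt
    have hray : Tendsto (fun t : ℝ => t • f) (𝓝 1) (𝓝 f) := by
      have : Continuous (fun t : ℝ => t • f) := by fun_prop
      have := this.tendsto 1
      simpa using this
    have hΦray : Tendsto (fun t : ℝ => Φ (t • f)) (𝓝 1) (𝓝 (Φ f)) := hΦc.tendsto.comp hray
    have hqt : ∀ t : ℝ, 0 ≤ t → q (t • f) = t := by
      intro t ht
      rw [map_smul_eq_mul, hqf, Real.norm_eq_abs, abs_of_nonneg ht, mul_one]
    have hFle : Φ f ≤ 1 := by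
      have h1 : Tendsto (fun t : ℝ => Φ (t • f)) (𝓝[<] 1) (𝓝 (Φ f)) :=
        hΦray.mono_left nhdsWithin_le_nhds
      refine le_of_tendsto h1 ?_
      have h3 : Set.Ico (0 : ℝ) 1 ∈ 𝓝[<] (1 : ℝ) := Ico_mem_nhdsLT zero_lt_one
      filter_upwards [h3] with t ht
      exact (hq2 _ (by rw [hqt t ht.1]; exact ht.2)).2
    have hFge : 1 ≤ Φ f := by
      by_contra hlt
      push Not at hlt
      have h1 : ∀ᶠ t : ℝ in 𝓝 1, Φ (t • f) < 1 := hΦray.eventually (gt_mem_nhds hlt)
      have h2 : ∀ᶠ t : ℝ in 𝓝 1, t • f ∈ U := hray.eventually (hUopen.mem_nhds hfU)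
      have h3 : ∀ᶠ t : ℝ in 𝓝[>] 1, Φ (t • f) < 1 ∧ t • f ∈ U ∧ 1 < t := by
        filter_upwards [nhdsWithin_le_nhds h1, nhdsWithin_le_nhds h2, self_mem_nhdsWithin]
          with t a b c
        exact ⟨a, b, c⟩
      obtain ⟨t, ht1, ht2, ht3⟩ := h3.exists
      have h4 := hq1 _ (show t • f ∈ B from ⟨ht2, ht1.le⟩)
      rw [hqt t (by linarith)] at h4
      linarith
    exact gauge_smooth_sphere hUopen hΦconv q (fun g hg1 hg2 => hq1 g ⟨hg1, hg2⟩)
      (fun g hg => hq2 g hg) (by rw [hΦ0 0 (by simp)]) f hfU hqf (le_antisymm hFle hFge)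
      (hΦd f hfU)
  intro f hf
  have hqpos : 0 < q f := lt_of_le_of_lt (apply_nonneg _ _) (hstrict f hf)
  have h1 : q ((q f)⁻¹ • f) = 1 := by
    rw [map_smul_eq_mul, Real.norm_eq_abs, abs_of_pos (inv_pos.mpr hqpos),
      inv_mul_cancel₀ hqpos.ne']
  have h2 := hsphere _ h1
  have h3 : DifferentiableAt ℝ (fun g : E => (q f)⁻¹ • g) f := by fun_prop
  have h4 : DifferentiableAt ℝ (fun g : E => q ((q f)⁻¹ • g)) f :=
    DifferentiableAt.comp (g := fun g => q g) (f := fun g : E => (q f)⁻¹ • g) f h2 h3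
  have h5 : (fun g => q g) = fun g : E => q f * q ((q f)⁻¹ • g) := by
    funext g
    rw [map_smul_eq_mul, Real.norm_eq_abs, abs_of_pos (inv_pos.mpr hqpos), ← mul_assoc,
      mul_inv_cancel₀ hqpos.ne', one_mul]
  rw [h5]
  exact h4.const_mul _

end core

end Pool.H94S.AsmAux

namespace Pool.H94S

open Filter Topology Pool.H94S.AsmAux

/-- Module ASM: smooth assembly. -/
theorem asm {E : Type} [NormedAddCommGroup E] [NormedSpace ℝ E] {J : Type}
    (p' : Seminorm ℝ E) (C : ℝ) (hC : 0 < C) (hlow : ∀ f, ‖f‖ ≤ C * p' f)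
    (hup : ∀ f, p' f ≤ C * ‖f‖)
    (P : J → ℝ → Seminorm ℝ E)
    (hP1 : ∀ i κ, 0 < κ → ∀ f, P i κ f ≤ p' f)
    (hP2 : ∀ i κ, 0 < κ → ∀ f, P i κ f ≠ 0 → DifferentiableAt ℝ (fun g => P i κ g) f)
    (N : J → Seminorm ℝ E) (hN1 : ∀ i f, N i f ≤ C * ‖f‖)
    (hN2 : ∀ i f, N i f ≠ 0 → DifferentiableAt ℝ (fun g => N i g) f)
    (hN3 : ∀ f η, 0 < η → {i | η ≤ N i f}.Finite)
    (hstar : ∀ f, f ≠ 0 → ∃ i, 0 < N i f ∧ ∀ κ, 0 < κ → p' f ≤ (1 + κ) * P i κ f)
    (ε : ℝ) (hε : 0 < ε) :
    ∃ q : Seminorm ℝ E, (∀ f, p' f ≤ q f ∧ q f ≤ (1 + ε) * p' f) ∧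
      ∀ f, f ≠ 0 → DifferentiableAt ℝ (fun g => q g) f := by
  classical
  -- the constant a
  obtain ⟨a, ha0, ha1, ha2, ha3⟩ : ∃ a : ℝ, 0 < a ∧ a ≤ 1 / 2 ∧ a * (C ^ 2 + 1) ≤ 1 ∧
      a * (C ^ 2 + 1 + ε) ≤ ε := by
    refine ⟨min (1 / 2) (min (1 / (C ^ 2 + 1)) (ε / (C ^ 2 + 1 + ε))), ?_, min_le_left _ _, ?_, ?_⟩
    · apply lt_min (by norm_num)
      apply lt_min <;> positivity
    · have h1 : min (1 / 2) (min (1 / (C ^ 2 + 1)) (ε / (C ^ 2 + 1 + ε))) ≤ 1 / (C ^ 2 + 1) :=
        (min_le_right _ _).trans (min_le_left _ _)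
      rw [le_div_iff₀ (by positivity)] at h1
      exact h1
    · have h1 : min (1 / 2) (min (1 / (C ^ 2 + 1)) (ε / (C ^ 2 + 1 + ε))) ≤
          ε / (C ^ 2 + 1 + ε) := (min_le_right _ _).trans (min_le_right _ _)
      rw [le_div_iff₀ (by positivity)] at h1
      exact h1
  have hp'0 : ∀ f, 0 ≤ p' f := fun f => apply_nonneg _ _
  have hNp : ∀ i f, N i f ≤ C ^ 2 * p' f := by
    intro i f
    calc N i f ≤ C * ‖f‖ := hN1 i f
      _ ≤ C * (C * p' f) := mul_le_mul_of_nonneg_left (hlow f) hC.le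
      _ = C ^ 2 * p' f := by ring
  set e : ℕ → ℝ := fun n => a * (1 / 2) ^ n with he
  set η : ℕ → ℝ := fun n => a * ((1 / 2) ^ n) ^ 2 with hη
  have hpw0 : ∀ n : ℕ, (0 : ℝ) < (1 / 2) ^ n := fun n => by positivity
  have hpw1 : ∀ n : ℕ, ((1 : ℝ) / 2) ^ n ≤ 1 := fun n =>
    pow_le_one₀ (by norm_num) (by norm_num)
  have he0 : ∀ n, 0 < e n := fun n => by simp only [he]; positivity
  have hη0 : ∀ n, 0 < η n := fun n => by simp only [hη]; positivity
  have hea : ∀ n, e n ≤ a := fun n => by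
    simp only [he]; nlinarith [hpw0 n, hpw1 n]
  have hηe : ∀ n, η n ≤ e n := fun n => by
    simp only [he, hη]
    have : ((1 : ℝ) / 2) ^ n * (1 / 2) ^ n ≤ (1 / 2) ^ n * 1 :=
      mul_le_mul_of_nonneg_left (hpw1 n) (hpw0 n).le
    nlinarith
  have hη1 : ∀ n, η n ≤ 1 / 2 := fun n => ((hηe n).trans (hea n)).trans ha1
  set A : J × ℕ → Seminorm ℝ E := fun k => Seminorm.of
    (fun f => (1 - η k.2) * P k.1 (η k.2) f + e k.2 * N k.1 f)
    (by
      intro x y
      have h1 := map_add_le_add (P k.1 (η k.2)) x y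
      have h2 := map_add_le_add (N k.1) x y
      have h3 : 0 ≤ 1 - η k.2 := by linarith [hη1 k.2]
      have h4 := mul_le_mul_of_nonneg_left h1 h3
      have h5 := mul_le_mul_of_nonneg_left h2 (he0 k.2).le
      linarith)
    (by
      intro c x
      rw [map_smul_eq_mul, map_smul_eq_mul]
      ring) with hA
  have hAdef : ∀ k f, A k f = (1 - η k.2) * P k.1 (η k.2) f + e k.2 * N k.1 f := fun k f => rfl
  -- first term bound
  have hT1 : ∀ (k : J × ℕ) f, (1 - η k.2) * P k.1 (η k.2) f ≤ (1 - η k.2) * p' f := by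
    intro k f
    have h3 : 0 ≤ 1 - η k.2 := by linarith [hη1 k.2]
    exact mul_le_mul_of_nonneg_left (hP1 _ _ (hη0 _) f) h3
  have hT2 : ∀ (k : J × ℕ) f, e k.2 * N k.1 f ≤ e k.2 * (C ^ 2 * p' f) := by
    intro k f
    exact mul_le_mul_of_nonneg_left (hNp _ f) (he0 _).le
  refine asm_core p' C hup ε hε A (fun k => η k.2 / 2) (fun k => by have := hη0 k.2; positivity)
    (2 * C) ?_ ?_ ?_ ?_ ?_
  · -- bound
    intro k f
    rw [hAdef]
    have h1 := hT1 k f
    have h2 : (1 - η k.2) * p' f ≤ 1 * p' f :=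
      mul_le_mul_of_nonneg_right (by linarith [hη0 k.2]) (hp'0 f)
    have h3 : e k.2 * N k.1 f ≤ 1 * N k.1 f :=
      mul_le_mul_of_nonneg_right (by linarith [hea k.2]) (apply_nonneg _ _)
    linarith [hup f, hN1 k.1 f]
  · -- local finiteness
    intro f hf
    set ρ : ℝ := (1 - p' f) / 2 with hρ
    have hρ0 : 0 < ρ := by rw [hρ]; linarith
    obtain ⟨n0, hn0⟩ := exists_pow_lt_of_lt_one hρ0 (by norm_num : (1 : ℝ) / 2 < 1)
    have hfin := hN3 f ((1 / 2) ^ n0 / 4) (by positivity)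
    refine ⟨hfin.toFinset ×ˢ Finset.range n0, ?_⟩
    have hcont : Continuous p' := seminorm_cont p' hup
    have hev1 : ∀ᶠ g in 𝓝 f, p' g < 1 - ρ :=
      hcont.continuousAt.eventually (gt_mem_nhds (by rw [hρ]; linarith))
    have hev2 : ∀ᶠ g in 𝓝 f, C * ‖g - f‖ < (1 / 2) ^ n0 / 4 := by
      have hc : Continuous (fun g : E => C * ‖g - f‖) := by fun_prop
      have ht : Tendsto (fun g : E => C * ‖g - f‖) (𝓝 f) (𝓝 0) := by
        have := hc.tendsto f
        simpa using this
      exact ht.eventually (gt_mem_nhds (by positivity))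
    filter_upwards [hev1, hev2] with g hg1 hg2 k hk
    rw [hAdef]
    have hg0 := hp'0 g
    have h1 := hT1 k g
    by_cases hn : n0 ≤ k.2
    · have h2 := hT2 k g
      have h3 : (1 - η k.2) * p' g ≤ 1 * p' g :=
        mul_le_mul_of_nonneg_right (by linarith [hη0 k.2]) hg0
      have h4 : e k.2 * (C ^ 2 * p' g) ≤ e k.2 * (C ^ 2 * 1) := by
        apply mul_le_mul_of_nonneg_left _ (he0 _).le
        apply mul_le_mul_of_nonneg_left _ (by positivity)
        linarith
      have h5 : e k.2 * C ^ 2 + η k.2 / 2 ≤ (1 / 2) ^ k.2 := by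
        have h6 : e k.2 * C ^ 2 + η k.2 / 2 ≤ e k.2 * (C ^ 2 + 1) := by
          have := hηe k.2
          have := hη0 k.2
          nlinarith
        have h7 : e k.2 * (C ^ 2 + 1) = (a * (C ^ 2 + 1)) * (1 / 2) ^ k.2 := by
          simp only [he]; ring
        have h8 : (a * (C ^ 2 + 1)) * (1 / 2) ^ k.2 ≤ 1 * (1 / 2) ^ k.2 :=
          mul_le_mul_of_nonneg_right ha2 (hpw0 _).le
        linarith
      have h9 : ((1 : ℝ) / 2) ^ k.2 ≤ (1 / 2) ^ n0 :=
        pow_le_pow_of_le_one (by norm_num) (by norm_num) hn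
      linarith
    · push Not at hn
      have hi : ¬ ((1 / 2) ^ n0 / 4 ≤ N k.1 f) := by
        intro hi
        apply hk
        rw [Finset.mem_product]
        exact ⟨hfin.mem_toFinset.mpr hi, Finset.mem_range.mpr hn⟩
      push Not at hi
      have h2 : N k.1 g ≤ N k.1 f + N k.1 (g - f) := by
        have := map_add_le_add (N k.1) f (g - f)
        simpa using this
      have h3 := hN1 k.1 (g - f)
      have h9 : ((1 : ℝ) / 2) ^ n0 ≤ (1 / 2) ^ k.2 :=
        pow_le_pow_of_le_one (by norm_num) (by norm_num) hn.le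
      have h4 : N k.1 g ≤ (1 / 2) ^ k.2 / 2 := by linarith
      have h5 : e k.2 * N k.1 g ≤ e k.2 * ((1 / 2) ^ k.2 / 2) :=
        mul_le_mul_of_nonneg_left h4 (he0 _).le
      have h6 : e k.2 * ((1 / 2) ^ k.2 / 2) = η k.2 / 2 := by
        simp only [he, hη]; ring
      have h7 : (1 - η k.2) * p' g ≤ (1 - η k.2) * 1 :=
        mul_le_mul_of_nonneg_left (by linarith) (by linarith [hη1 k.2])
      linarith
  · -- differentiability
    intro k g hg hlt
    rw [hAdef] at hlt
    have hg0 := hp'0 g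
    have h1 := hT1 k g
    have h2 := hT2 k g
    have h3 : 0 ≤ 1 - η k.2 := by linarith [hη1 k.2]
    have h7 : (1 - η k.2) * p' g ≤ (1 - η k.2) * 1 :=
      mul_le_mul_of_nonneg_left (by linarith) h3
    have hN0 : N k.1 g ≠ 0 := by
      intro h0
      rw [h0, mul_zero, add_zero] at hlt
      linarith [hη0 k.2]
    have hP0 : P k.1 (η k.2) g ≠ 0 := by
      intro h0
      rw [h0, mul_zero, zero_add] at hlt
      have h4 : e k.2 * (C ^ 2 * p' g) ≤ a * (C ^ 2 * 1) := by
        apply mul_le_mul (hea _) _ (by positivity) ha0.le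
        apply mul_le_mul_of_nonneg_left _ (by positivity)
        linarith
      have h5 := (hηe k.2).trans (hea k.2)
      nlinarith
    have hd1 := hP2 k.1 (η k.2) (hη0 _) g hP0
    have hd2 := hN2 k.1 g hN0
    exact (hd1.const_mul _).add (hd2.const_mul _)
  · -- strictness
    intro f hf
    obtain ⟨i, hi0, hi⟩ := hstar f hf
    have hd : 0 < N i f / (2 * (p' f + 1)) := by
      have := hp'0 f
      positivity
    obtain ⟨n, hn⟩ := exists_pow_lt_of_lt_one hd (by norm_num : (1 : ℝ) / 2 < 1)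
    refine ⟨(i, n), ?_⟩
    rw [hAdef]
    simp only
    have h1 := hi (η n) (hη0 n)
    have h0 := hp'0 f
    have hηn := hη0 n
    have hηn1 := hη1 n
    have h2 : (1 - 2 * η n) * p' f ≤ (1 - η n) * P i (η n) f := by
      have h3 : (1 - η n) * p' f ≤ (1 - η n) * ((1 + η n) * P i (η n) f) :=
        mul_le_mul_of_nonneg_left h1 (by linarith)
      have hP0 : 0 ≤ P i (η n) f := apply_nonneg _ _
      have h4 : (1 - η n) * p' f ≤ P i (η n) f := by nlinarith [sq_nonneg (η n)]
      have h5 : (1 - η n) * ((1 - η n) * p' f) ≤ (1 - η n) * P i (η n) f :=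
        mul_le_mul_of_nonneg_left h4 (by linarith)
      nlinarith [mul_nonneg (sq_nonneg (η n)) h0]
    have h3 : 2 * η n * p' f < e n * N i f := by
      rw [lt_div_iff₀ (by linarith)] at hn
      have h4 : (1 / 2) ^ n * (2 * p' f) < N i f := by
        have := hpw0 n
        nlinarith
      have h5 : e n * ((1 / 2) ^ n * (2 * p' f)) < e n * N i f :=
        mul_lt_mul_of_pos_left h4 (he0 n)
      have h6 : e n * ((1 / 2) ^ n * (2 * p' f)) = 2 * η n * p' f := by
        simp only [he, hη]; ring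
      linarith
    linarith
  · -- smallness
    intro k f hf
    rw [hAdef]
    have h0 := hp'0 f
    have h1 := hT1 k f
    have h2 := hT2 k f
    have hηk := hη0 k.2
    have hηk2 := (hηe k.2).trans (hea k.2)
    have h3 : (1 - η k.2) * p' f + e k.2 * (C ^ 2 * p' f) ≤
        (1 - η k.2 + a * C ^ 2) * p' f := by
      have : e k.2 * (C ^ 2 * p' f) ≤ a * (C ^ 2 * p' f) :=
        mul_le_mul_of_nonneg_right (hea _) (by positivity)
      linarith
    have h4 : 1 - η k.2 + a * C ^ 2 ≤ (1 + ε) * (1 - η k.2 / 2) := by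
      nlinarith
    have h5 : (1 - η k.2 + a * C ^ 2) * p' f ≤ ((1 + ε) * (1 - η k.2 / 2)) * p' f :=
      mul_le_mul_of_nonneg_right h4 h0
    have h6 : ((1 + ε) * (1 - η k.2 / 2)) * p' f ≤ (1 - η k.2 / 2) * 1 := by
      have h7 : 0 ≤ 1 - η k.2 / 2 := by linarith [hη1 k.2]
      have h8 := mul_le_mul_of_nonneg_left hf.le h7
      linarith
    linarith

end Pool.H94S
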