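import Pool.Agent.H94S.Cut

/-! Reflection, closed unbounded sets and blocks. -/

open Cardinal Set Filter Topology
open scoped ENNReal

namespace Pool.H94S

/-- `γ` is a limit point. -/
def IsLim (γ : L) : Prop := (∃ b, b < γ) ∧ ∀ b, b < γ → ∃ c, b < c ∧ c < γ

/-- The seminorm `p` reflects at `γ`. -/
def Refl (p : Seminorm ℝ X) (γ : L) : Prop :=
  ∀ (f : X) (η : ℝ), 0 < η → ∀ b, b < γ → ∃ g : X, (∀ t, γ ≤ t → ev g t = 0) ∧
    (∀ t, t ≤ b → |ev g t - ev f t| ≤ η) ∧ p g ≤ p f + η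

theorem refl_step (p : Seminorm ℝ X) (b : L) : ∃ b', ∀ (f : X) (η : ℝ), 0 < η → ∃ g : X,
    (∀ t, b' ≤ t → ev g t = 0) ∧ (∀ t, t ≤ b → |ev g t - ev f t| ≤ η) ∧ p g ≤ p f + η := by
  let Ψ : X → X × ℝ := fun f => (cut b f, p f)
  have hsep : TopologicalSpace.IsSeparable (range Ψ) := by
    refine ((isSeparable_range_cut b).prod
      (TopologicalSpace.IsSeparable.of_separableSpace (univ : Set ℝ))).mono ?_
    rintro _ ⟨f, rfl⟩
    exact ⟨mem_range_self f, mem_univ _⟩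
  obtain ⟨D, hDc, hD⟩ : ∃ D : Set X, D.Countable ∧ range Ψ ⊆ closure (Ψ '' D) := by
    have := hsep.separableSpace
    obtain ⟨T, hTc, hTd⟩ := TopologicalSpace.exists_countable_dense (range Ψ)
    have h1 : ∀ y : range Ψ, ∃ f, Ψ f = y := fun y => y.2
    choose φ hφ using h1
    refine ⟨φ '' T, hTc.image φ, ?_⟩
    rintro y hy
    have h2 : (⟨y, hy⟩ : range Ψ) ∈ closure T := hTd _
    rw [closure_subtype] at h2
    refine closure_mono ?_ h2
    rintro _ ⟨z, hz, rfl⟩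
    exact ⟨φ z, mem_image_of_mem φ hz, hφ z⟩
  choose e he using fun f : X => ev_eventually f
  obtain ⟨b', hb'⟩ := exists_gt_of_countable (e '' D) (hDc.image e)
  refine ⟨b', fun f η hη => ?_⟩
  have h3 := hD (mem_range_self f)
  rw [Metric.mem_closure_iff] at h3
  obtain ⟨_, ⟨g, hg, rfl⟩, h4⟩ := h3 η hη
  rw [Prod.dist_eq, max_lt_iff] at h4
  refine ⟨g, fun t ht => he g t ((hb' _ (mem_image_of_mem e hg)).le.trans ht), fun t ht => ?_, ?_⟩
  · have h5 : ‖cut b f - cut b g‖ < η := by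
      rw [← dist_eq_norm]; exact h4.1
    have h6 := abs_ev_le (cut b f - cut b g) t
    rw [ev_sub, ev_cut_of_le ht, ev_cut_of_le ht] at h6
    rw [abs_sub_comm]
    linarith
  · have h5 : |p f - p g| < η := by
      rw [← Real.dist_eq]; exact h4.2
    have := (abs_lt.1 h5).1
    linarith

theorem refl_closed (p : Seminorm ℝ X) (γ : L)
    (h : ∀ b, b < γ → ∃ c, b < c ∧ c < γ ∧ Refl p c) : Refl p γ := by
  intro f η hη b hb
  obtain ⟨c, hc1, hc2, hc3⟩ := h b hb
  obtain ⟨g, hg1, hg2, hg3⟩ := hc3 f η hη b hc1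
  exact ⟨g, fun t ht => hg1 t (hc2.le.trans ht), hg2, hg3⟩

theorem refl_unbounded (p : Seminorm ℝ X) (a : L) : ∃ γ, a < γ ∧ IsLim γ ∧ Refl p γ := by
  choose B hB using refl_step p
  have hs : ∀ c : L, ∃ d, c < d ∧ B c ≤ d := by
    intro c
    obtain ⟨d, hd⟩ := exists_gt' (max c (B c))
    exact ⟨d, (le_max_left _ _).trans_lt hd, ((le_max_right _ _).trans_lt hd).le⟩
  choose S hS using hs
  let b : ℕ → L := fun n => Nat.rec a (fun _ c => S c) n
  have hb : ∀ n, b (n + 1) = S (b n) := fun n => rfl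
  have hne : {c : L | ∀ n, b n < c}.Nonempty := by
    obtain ⟨c, hc⟩ := exists_gt_of_countable (range b) (countable_range b)
    exact ⟨c, fun n => hc _ (mem_range_self n)⟩
  let γ := (wellFounded_lt (α := L)).min _ hne
  have hγ : ∀ n, b n < γ := (wellFounded_lt (α := L)).min_mem _ hne
  have hγ' : ∀ c, c < γ → ∃ n, c ≤ b n := by
    intro c hc
    by_contra hcon
    push Not at hcon
    exact (wellFounded_lt (α := L)).not_lt_min _ (show c ∈ {c : L | ∀ n, b n < c} from hcon) hc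
  refine ⟨γ, hγ 0, ⟨⟨a, hγ 0⟩, fun c hc => ?_⟩, ?_⟩
  · obtain ⟨n, hn⟩ := hγ' c hc
    exact ⟨b (n + 1), hn.trans_lt (hS (b n)).1, hγ (n + 1)⟩
  · intro f η hη c hc
    obtain ⟨n, hn⟩ := hγ' c hc
    obtain ⟨g, hg1, hg2, hg3⟩ := hB (b n) f η hη
    exact ⟨g, fun t ht => hg1 t (((hS (b n)).2.trans (hγ (n + 1)).le).trans ht),
      fun t ht => hg2 t (ht.trans hn), hg3⟩

/-- A closed unbounded set of limit points. -/
structure IsClub (C : Set L) : Prop where
  lim : ∀ γ ∈ C, IsLim γ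
  unb : ∀ a, ∃ γ ∈ C, a < γ
  closed : ∀ γ, (∃ b, b < γ) → (∀ b, b < γ → ∃ c ∈ C, b < c ∧ c < γ) → γ ∈ C

theorem isClub_refl (p : Seminorm ℝ X) : IsClub {γ | IsLim γ ∧ Refl p γ} := by
  refine ⟨fun γ h => h.1, fun a => ?_, fun γ h0 h => ⟨⟨h0, fun b hb => ?_⟩, ?_⟩⟩
  · obtain ⟨γ, h1, h2, h3⟩ := refl_unbounded p a
    exact ⟨γ, ⟨h2, h3⟩, h1⟩
  · obtain ⟨c, -, hc⟩ := h b hb
    exact ⟨c, hc⟩
  · refine refl_closed p γ fun b hb => ?_
    obtain ⟨c, hc, hc'⟩ := h b hb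
    exact ⟨c, hc'.1, hc'.2, hc.2⟩

variable {C : Set L} (hC : IsClub C)

/-- The next element of `C`. -/
noncomputable def nxt (i : L) : L := (wellFounded_lt (α := L)).min {γ | γ ∈ C ∧ i < γ} (by
  obtain ⟨γ, h1, h2⟩ := hC.unb i
  exact ⟨γ, h1, h2⟩)

theorem nxt_mem (i : L) : nxt hC i ∈ C :=
  ((wellFounded_lt (α := L)).min_mem {γ | γ ∈ C ∧ i < γ} _).1

theorem lt_nxt (i : L) : i < nxt hC i :=
  ((wellFounded_lt (α := L)).min_mem {γ | γ ∈ C ∧ i < γ} _).2

theorem nxt_le {i γ : L} (h1 : γ ∈ C) (h2 : i < γ) : nxt hC i ≤ γ :=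
  not_lt.1 ((wellFounded_lt (α := L)).not_lt_min {γ | γ ∈ C ∧ i < γ} ⟨h1, h2⟩)

/-- Starting points of blocks: the elements of `C` and the least element. -/
def JS (C : Set L) : Set L := {i | i ∈ C ∨ ∀ b, ¬ b < i}

include hC in
theorem exists_max_JS (t : L) : ∃ ζ ∈ JS C, ζ ≤ t ∧ ∀ ζ' ∈ JS C, ζ' ≤ t → ζ' ≤ ζ := by
  have hne : {z : L | ∀ ζ' ∈ JS C, ζ' ≤ t → ζ' ≤ z}.Nonempty := ⟨t, fun _ _ h => h⟩
  let ζ := (wellFounded_lt (α := L)).min _ hne
  have hζ : ∀ ζ' ∈ JS C, ζ' ≤ t → ζ' ≤ ζ := (wellFounded_lt (α := L)).min_mem _ hne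
  have hζt : ζ ≤ t := not_lt.1 ((wellFounded_lt (α := L)).not_lt_min
    {z : L | ∀ ζ' ∈ JS C, ζ' ≤ t → ζ' ≤ z} (fun _ _ h => h))
  refine ⟨ζ, ?_, hζt, hζ⟩
  by_contra hcon
  apply hcon
  by_cases hb : ∃ b, b < ζ
  · left
    refine hC.closed ζ hb fun b hb => ?_
    have h1 : b ∉ {z : L | ∀ ζ' ∈ JS C, ζ' ≤ t → ζ' ≤ z} := fun h =>
      (wellFounded_lt (α := L)).not_lt_min _ h hb
    rw [mem_ofPred_eq] at h1
    push Not at h1
    obtain ⟨ζ', h2, h3, h4⟩ := h1
    refine ⟨ζ', ?_, h4, ?_⟩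
    · rcases h2 with h2 | h2
      · exact h2
      · exact absurd h4 (h2 b)
    · refine lt_of_le_of_ne (hζ ζ' h2 h3) ?_
      rintro rfl
      exact hcon h2
  · right
    push Not at hb
    exact fun b => not_lt.2 (hb b)

/-- Functions which are constant on every block after `ξ` are constant after `ξ`. -/
theorem const_of_blocks (f : X) (ξ : L) (hξ : ξ ∈ JS C)
    (h : ∀ ζ ∈ JS C, ξ ≤ ζ → ∀ t, ζ ≤ t → t ≤ nxt hC ζ → ev f t = ev f ζ) :
    ∀ t, ξ ≤ t → ev f t = ev f ξ := by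
  intro t
  induction t using WellFoundedLT.induction with
  | ind t IH =>
    intro ht
    rcases eq_or_lt_of_le ht with ht0 | ht0
    · rw [ht0]
    obtain ⟨ζ, h1, h2, h3⟩ := exists_max_JS hC t
    have hξζ : ξ ≤ ζ := h3 ξ hξ ht
    rcases lt_or_eq_of_le h2 with h4 | h4
    · have h5 : t ≤ nxt hC ζ := by
        by_contra hc
        push Not at hc
        exact absurd (h3 _ (Or.inl (nxt_mem hC ζ)) hc.le) (not_le.2 (lt_nxt hC ζ))
      rw [h ζ h1 hξζ t h2 h5]
      exact IH ζ h4 hξζ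
    · subst h4
      have hζC : ζ ∈ C := by
        rcases h1 with h1 | h1
        · exact h1
        · exact absurd ht0 (h1 ξ)
      by_cases hsucc : ∃ ζ' ∈ JS C, ξ ≤ ζ' ∧ ζ' < ζ ∧ nxt hC ζ' = ζ
      · obtain ⟨ζ', h5, h6, h7, h8⟩ := hsucc
        rw [h ζ' h5 h6 ζ h7.le h8.ge]
        exact IH ζ' h7 h6
      · push Not at hsucc
        have key : ∀ η : ℝ, 0 < η → |ev f ξ - ev f ζ| ≤ η := by
          intro η hη
          obtain ⟨b, hb, h5⟩ := ev_cont f ζ ⟨ξ, ht0⟩ η hη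
          obtain ⟨ζ', h6, h7, h8⟩ := exists_max_JS hC (max b ξ)
          have h9 : max b ξ < ζ := max_lt hb ht0
          have h10 : ξ ≤ ζ' := h8 ξ hξ (le_max_right _ _)
          have h11 : nxt hC ζ' < ζ := lt_of_le_of_ne (nxt_le hC hζC (h7.trans_lt h9))
            (hsucc ζ' h6 h10 (h7.trans_lt h9))
          have h12 : b < nxt hC ζ' := by
            by_contra hc
            push Not at hc
            exact absurd (h8 _ (Or.inl (nxt_mem hC ζ')) (hc.trans (le_max_left _ _)))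
              (not_le.2 (lt_nxt hC ζ'))
          rw [← IH _ h11 (h10.trans (lt_nxt hC ζ').le)]
          exact h5 _ h12 h11.le
        have : |ev f ξ - ev f ζ| ≤ 0 := le_of_forall_pos_le_add fun η hη => by
          rw [zero_add]; exact key η hη
        have := abs_eq_zero.1 (le_antisymm this (abs_nonneg _))
        linarith

/-- The oscillation of `f` on the block starting at `ζ` is large only for finitely many `ζ`. -/
theorem finite_osc (f : X) (η : ℝ) (hη : 0 < η) :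
    {ζ | ζ ∈ JS C ∧ ∃ t, ζ ≤ t ∧ t ≤ nxt hC ζ ∧ η ≤ |ev f t - ev f ζ|}.Finite := by
  have key : ∀ z : L, {ζ | ζ < z ∧ ζ ∈ JS C ∧
      ∃ t, ζ ≤ t ∧ t ≤ nxt hC ζ ∧ η ≤ |ev f t - ev f ζ|}.Finite := by
    intro z
    induction z using WellFoundedLT.induction with
    | ind z IH =>
      by_cases hz : ∃ b, b < z
      · obtain ⟨b, hb, h1⟩ := ev_cont f z hz (η / 4) (by positivity)
        have hfin : ({ζ | ζ < b ∧ ζ ∈ JS C ∧
            ∃ t, ζ ≤ t ∧ t ≤ nxt hC ζ ∧ η ≤ |ev f t - ev f ζ|} ∪ {b} ∪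
            {ζ | ζ ∈ JS C ∧ ζ < z ∧ z < nxt hC ζ}).Finite := by
          refine ((IH b hb).union (finite_singleton b)).union ?_
          apply Set.Subsingleton.finite
          rintro x ⟨hx1, hx2, hx3⟩ y ⟨hy1, hy2, hy3⟩
          rcases lt_trichotomy x y with h | h | h
          · exfalso
            have hyC : y ∈ C := hy1.resolve_right fun h' => h' x h
            exact absurd (nxt_le hC hyC h) (not_le.2 (hy2.trans hx3))
          · exact h
          · exfalso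
            have hxC : x ∈ C := hx1.resolve_right fun h' => h' y h
            exact absurd (nxt_le hC hxC h) (not_le.2 (hx2.trans hy3))
        refine hfin.subset ?_
        rintro ζ ⟨h2, h3, t, h4, h5, h6⟩
        rcases lt_trichotomy ζ b with h | h | h
        · exact Or.inl (Or.inl ⟨h, h3, t, h4, h5, h6⟩)
        · exact Or.inl (Or.inr h)
        · right
          refine ⟨h3, h2, ?_⟩
          by_contra hc
          push Not at hc
          have h7 := h1 ζ h h2.le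
          have h8 := h1 t (h.trans_le h4) (h5.trans hc)
          have h9 : |ev f t - ev f ζ| ≤ η / 2 := by
            have : ev f t - ev f ζ = (ev f t - ev f z) - (ev f ζ - ev f z) := by ring
            rw [this]
            exact (abs_sub _ _).trans (by linarith)
          linarith
      · have : {ζ | ζ < z ∧ ζ ∈ JS C ∧
            ∃ t, ζ ≤ t ∧ t ≤ nxt hC ζ ∧ η ≤ |ev f t - ev f ζ|} = ∅ := by
          ext ζ
          simp only [mem_ofPred_eq, mem_empty_iff_false, iff_false]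
          rintro ⟨h, -⟩
          exact hz ⟨ζ, h⟩
        rw [this]
        exact finite_empty
  obtain ⟨a, ha⟩ := ev_eventually f
  refine (key a).subset ?_
  rintro ζ ⟨h3, t, h4, h5, h6⟩
  refine ⟨?_, h3, t, h4, h5, h6⟩
  by_contra hc
  push Not at hc
  rw [ha ζ hc, ha t (hc.trans h4)] at h6
  simp at h6
  linarith

end Pool.H94S
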