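import Pool.Agent.H94S.Space

/-! Cut-offs, step functions and interpolation in `C_0(ω₁)`. -/

open Cardinal Set
open scoped ENNReal

namespace Pool.H94S

open Classical in
theorem IsGood.cut {f : L → ℝ} (a : L) (hf : IsGood f) : IsGood (fun t => if t ≤ a then f t else 0) := by
  refine ⟨fun c hc η hη => ?_, ?_⟩
  · by_cases hca : c ≤ a
    · obtain ⟨b, hb, h1⟩ := hf.1 c hc η hη
      refine ⟨b, hb, fun t ht1 ht2 => ?_⟩
      simp only [ht2.trans hca, hca, if_true]
      exact h1 t ht1 ht2
    · push Not at hca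
      refine ⟨a, hca, fun t ht1 ht2 => ?_⟩
      simp only [not_le.2 ht1, not_le.2 hca, if_false]
      simpa using hη.le
  · obtain ⟨b, hb⟩ := hf.2
    refine ⟨b, fun t ht => ?_⟩
    show (if t ≤ a then f t else 0) = 0
    rw [hb t ht]
    split_ifs <;> rfl

open Classical in
/-- Restriction to an initial segment, extended by zero. -/
noncomputable def cutFun (a : L) (f : X) : X :=
  mkX (fun t => if t ≤ a then ev f t else 0) (IsGood.cut a (ev_good f))
    ⟨‖f‖, fun t => by
      split_ifs
      · exact abs_ev_le f t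
      · simp⟩

open Classical in
theorem ev_cutFun (a : L) (f : X) (t : L) : ev (cutFun a f) t = if t ≤ a then ev f t else 0 := by
  rw [cutFun, ev_mkX]

/-- Restriction to an initial segment, extended by zero, as an operator. -/
noncomputable def cut (a : L) : X →L[ℝ] X :=
  LinearMap.mkContinuous
    { toFun := cutFun a
      map_add' := by
        intro f g
        apply ext_ev
        intro t
        simp only [ev_cutFun, ev_add]
        split_ifs <;> simp
      map_smul' := by
        intro c f
        apply ext_ev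
        intro t
        simp only [ev_cutFun, ev_smul, RingHom.id_apply]
        split_ifs <;> simp } 1 (by
    intro f
    rw [one_mul]
    refine (norm_le_iff (norm_nonneg f)).2 (fun t => ?_)
    show |ev (cutFun a f) t| ≤ ‖f‖
    rw [ev_cutFun]
    split_ifs
    · exact abs_ev_le f t
    · simp)

theorem ev_cut_of_le {a t : L} (h : t ≤ a) (f : X) : ev (cut a f) t = ev f t := by
  show ev (cutFun a f) t = _
  rw [ev_cutFun, if_pos h]

theorem ev_cut_of_lt {a t : L} (h : a < t) (f : X) : ev (cut a f) t = 0 := by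
  show ev (cutFun a f) t = _
  rw [ev_cutFun, if_neg (not_le.2 h)]

theorem norm_cut_le (a : L) (f : X) : ‖cut a f‖ ≤ ‖f‖ := by
  refine (norm_le_iff (norm_nonneg f)).2 (fun t => ?_)
  rcases le_or_gt t a with h | h
  · rw [ev_cut_of_le h]; exact abs_ev_le f t
  · rw [ev_cut_of_lt h]; simp

theorem cut_eq_self {a : L} {f : X} (h : ∀ t, a < t → ev f t = 0) : cut a f = f := by
  apply ext_ev
  intro t
  rcases le_or_gt t a with h1 | h1
  · rw [ev_cut_of_le h1]
  · rw [ev_cut_of_lt h1, h t h1]

theorem exists_cut_eq (f : X) : ∃ a, cut a f = f := by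
  obtain ⟨a, ha⟩ := ev_eventually f
  exact ⟨a, cut_eq_self fun t ht => ha t ht.le⟩

open Classical in
theorem isGood_ind (a : L) : IsGood (fun t => if t ≤ a then (1 : ℝ) else 0) := by
  refine ⟨fun c hc η hη => ?_, ?_⟩
  · by_cases hca : c ≤ a
    · obtain ⟨b, hb⟩ := hc
      refine ⟨b, hb, fun t ht1 ht2 => ?_⟩
      simp only [ht2.trans hca, hca, if_true]
      simpa using hη.le
    · push Not at hca
      refine ⟨a, hca, fun t ht1 ht2 => ?_⟩
      simp only [not_le.2 ht1, not_le.2 hca, if_false]
      simpa using hη.le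
  · obtain ⟨b, hb⟩ := exists_gt' a
    refine ⟨b, fun t ht => ?_⟩
    show (if t ≤ a then (1 : ℝ) else 0) = 0
    rw [if_neg (not_le.2 (hb.trans_le ht))]

open Classical in
/-- The indicator function of an initial segment. -/
noncomputable def ind (a : L) : X :=
  mkX (fun t => if t ≤ a then (1 : ℝ) else 0) (isGood_ind a) ⟨1, fun t => by split_ifs <;> simp⟩

theorem ev_ind_of_le {a t : L} (h : t ≤ a) : ev (ind a) t = 1 := by
  classical
  rw [ind, ev_mkX, if_pos h]

theorem ev_ind_of_lt {a t : L} (h : a < t) : ev (ind a) t = 0 := by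
  classical
  rw [ind, ev_mkX, if_neg (not_le.2 h)]

/-- Step function approximation. -/
theorem step_approx (f : X) (η : ℝ) (hη : 0 < η) (a : L) :
    ∃ s ∈ Submodule.span ℝ (ind '' Iic a), ‖cut a f - s‖ ≤ η := by
  induction a using WellFoundedLT.induction with
  | ind a IH =>
    by_cases ha : ∃ b, b < a
    · obtain ⟨b, hb, h1⟩ := ev_cont f a ha η hη
      obtain ⟨s, hs, hs'⟩ := IH b hb
      refine ⟨cut b s + ev f a • (ind a - ind b), ?_, ?_⟩
      · have hs2 : cut b s ∈ Submodule.span ℝ (ind '' Iic a) := by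
          have h3 : s ∈ Submodule.span ℝ (ind '' Iic b) := hs
          have h4 : ∀ x ∈ Submodule.span ℝ (ind '' Iic b), cut b x = x := by
            intro x hx
            induction hx using Submodule.span_induction with
            | mem x hx =>
              obtain ⟨c, hc, rfl⟩ := hx
              apply cut_eq_self
              intro t ht
              exact ev_ind_of_lt (lt_of_le_of_lt hc ht)
            | zero => simp
            | add x y _ _ hx hy => rw [map_add, hx, hy]
            | smul c x _ hx => rw [map_smul, hx]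
          rw [h4 s h3]
          exact Submodule.span_mono (image_mono (Iic_subset_Iic.2 hb.le)) h3
        refine Submodule.add_mem _ hs2 (Submodule.smul_mem _ _ (Submodule.sub_mem _ ?_ ?_))
        · exact Submodule.subset_span ⟨a, mem_Iic.2 le_rfl, rfl⟩
        · exact Submodule.subset_span ⟨b, mem_Iic.2 hb.le, rfl⟩
      · rw [norm_le_iff hη.le]
        intro t
        rw [ev_sub, ev_add, ev_smul, ev_sub]
        rcases lt_or_ge a t with h2 | h2
        · rw [ev_cut_of_lt h2, ev_cut_of_lt (hb.trans h2), ev_ind_of_lt h2,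
            ev_ind_of_lt (hb.trans h2)]
          simpa using hη.le
        · rcases lt_or_ge b t with h3 | h3
          · rw [ev_cut_of_le h2, ev_cut_of_lt h3, ev_ind_of_le h2, ev_ind_of_lt h3]
            have := h1 t h3 h2
            simpa using this
          · rw [ev_cut_of_le h2, ev_cut_of_le h3, ev_ind_of_le h2, ev_ind_of_le h3]
            have h4 := (abs_ev_le (cut b f - s) t).trans hs'
            rw [ev_sub, ev_cut_of_le h3] at h4
            simpa using h4
    · refine ⟨ev f a • ind a, Submodule.smul_mem _ _ (Submodule.subset_span ⟨a, mem_Iic.2 le_rfl, rfl⟩), ?_⟩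
      rw [norm_le_iff hη.le]
      intro t
      rw [ev_sub, ev_smul]
      rcases lt_or_ge a t with h2 | h2
      · rw [ev_cut_of_lt h2, ev_ind_of_lt h2]
        simpa using hη.le
      · have h3 : t = a := by
          rcases lt_or_eq_of_le h2 with h4 | h4
          · exact absurd ⟨t, h4⟩ ha
          · exact h4
        subst h3
        rw [ev_cut_of_le le_rfl, ev_ind_of_le le_rfl]
        simpa using hη.le

theorem cut_mem_closure (f : X) (a : L) :
    cut a f ∈ closure (Submodule.span ℝ (ind '' Iic a) : Set X) := by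
  rw [Metric.mem_closure_iff]
  intro η hη
  obtain ⟨s, hs, h⟩ := step_approx f (η / 2) (by positivity) a
  exact ⟨s, hs, by rw [dist_eq_norm]; linarith⟩

theorem isSeparable_range_cut (a : L) : TopologicalSpace.IsSeparable (range (cut a)) := by
  have h1 : TopologicalSpace.IsSeparable (ind '' Iic a) :=
    ((countable_Iic a).image ind).isSeparable
  refine (h1.span (R := ℝ)).closure.mono ?_
  rintro _ ⟨f, rfl⟩
  exact cut_mem_closure f a

/-- Interpolation functions. -/
theorem exists_interp (F : Finset L) (t : L) : ∃ u : X, ∀ s,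
    ((s ≤ t ∧ ∀ t' ∈ F, t' < t → t' < s) → ev u s = 1) ∧
    (¬ (s ≤ t ∧ ∀ t' ∈ F, t' < t → t' < s) → ev u s = 0) := by
  classical
  induction F using Finset.induction_on with
  | empty =>
    refine ⟨ind t, fun s => ⟨fun h => ev_ind_of_le h.1, fun h => ?_⟩⟩
    apply ev_ind_of_lt
    by_contra hc
    exact h ⟨not_lt.1 hc, by simp⟩
  | insert t0 F ht0 ih =>
    obtain ⟨u, hu⟩ := ih
    by_cases h0 : t0 < t
    · refine ⟨u - cut t0 u, fun s => ?_⟩
      rw [ev_sub]
      rcases lt_or_ge t0 s with h1 | h1
      · rw [ev_cut_of_lt h1, sub_zero]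
        constructor
        · rintro ⟨h2, h3⟩
          exact (hu s).1 ⟨h2, fun t' ht' => h3 t' (Finset.mem_insert_of_mem ht')⟩
        · intro h2
          refine (hu s).2 fun h3 => h2 ⟨h3.1, fun t' ht' => ?_⟩
          rcases Finset.mem_insert.1 ht' with rfl | h4
          · exact fun _ => h1
          · exact h3.2 t' h4
      · rw [ev_cut_of_le h1, sub_self]
        exact ⟨fun h2 => absurd (h2.2 t0 (Finset.mem_insert_self _ _) h0) (not_lt.2 h1), fun _ => rfl⟩
    · refine ⟨u, fun s => ?_⟩
      constructor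
      · rintro ⟨h2, h3⟩
        exact (hu s).1 ⟨h2, fun t' ht' => h3 t' (Finset.mem_insert_of_mem ht')⟩
      · intro h2
        refine (hu s).2 fun h3 => h2 ⟨h3.1, fun t' ht' => ?_⟩
        rcases Finset.mem_insert.1 ht' with rfl | h4
        · exact fun h5 => absurd h5 h0
        · exact h3.2 t' h4

/-- The function which is `1` on the interval of points `s ≤ t` above all points of `F` below `t`. -/
noncomputable def itp (F : Finset L) (t : L) : X := (exists_interp F t).choose

theorem ev_itp_one {F : Finset L} {t s : L} (h : s ≤ t) (h' : ∀ t' ∈ F, t' < t → t' < s) :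
    ev (itp F t) s = 1 := ((exists_interp F t).choose_spec s).1 ⟨h, h'⟩

theorem ev_itp_zero {F : Finset L} {t s : L} (h : ¬ (s ≤ t ∧ ∀ t' ∈ F, t' < t → t' < s)) :
    ev (itp F t) s = 0 := ((exists_interp F t).choose_spec s).2 h

theorem norm_itp_le (F : Finset L) (t : L) : ‖itp F t‖ ≤ 1 := by
  rw [norm_le_iff zero_le_one]
  intro s
  by_cases h : s ≤ t ∧ ∀ t' ∈ F, t' < t → t' < s
  · rw [ev_itp_one h.1 h.2]; simp
  · rw [ev_itp_zero h]; simp

theorem ev_itp_self {F : Finset L} {t : L} : ev (itp F t) t = 1 :=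
  ev_itp_one le_rfl fun _ _ h => h

theorem ev_itp_other {F : Finset L} {t s : L} (hs : s ∈ F) (hst : s ≠ t) : ev (itp F t) s = 0 := by
  apply ev_itp_zero
  rintro ⟨h1, h2⟩
  exact lt_irrefl _ (h2 s hs (lt_of_le_of_ne h1 hst))

/-- Combinations of interpolation functions are bounded by their largest coefficient. -/
theorem norm_sum_itp_le (F : Finset L) (c : L → ℝ) (C : ℝ) (hC : 0 ≤ C) (hc : ∀ t ∈ F, |c t| ≤ C) :
    ‖∑ t ∈ F, c t • itp F t‖ ≤ C := by
  classical
  rw [norm_le_iff hC]
  intro s
  rw [ev_sum]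
  by_cases h : ∃ t ∈ F, s ≤ t ∧ ∀ t' ∈ F, t' < t → t' < s
  · obtain ⟨t, ht, h1, h2⟩ := h
    rw [Finset.sum_eq_single t]
    · rw [ev_smul, ev_itp_one h1 h2, mul_one]
      exact hc t ht
    · intro t' ht' hne
      rw [ev_smul, ev_itp_zero, mul_zero]
      rintro ⟨h3, h4⟩
      rcases lt_or_gt_of_ne hne with h5 | h5
      · exact absurd (h2 t' ht' h5) (not_lt.2 h3)
      · exact absurd (h4 t ht h5) (not_lt.2 h1)
    · intro h5; exact absurd ht h5
  · rw [Finset.sum_eq_zero]
    · simpa using hC
    · intro t ht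
      rw [ev_smul, ev_itp_zero, mul_zero]
      exact fun h1 => h ⟨t, ht, h1⟩

theorem ev_sum_itp (F : Finset L) (c : L → ℝ) {s : L} (hs : s ∈ F) :
    ev (∑ t ∈ F, c t • itp F t) s = c s := by
  classical
  rw [ev_sum, Finset.sum_eq_single s]
  · rw [ev_smul, ev_itp_self, mul_one]
  · intro t _ hne
    rw [ev_smul, ev_itp_other hs hne.symm, mul_zero]
  · intro h; exact absurd hs h

end Pool.H94S
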