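import Mathlib

/-!
Module SEP for MP_e3abba_an: smoothing of a seminorm whose dominated functionals have small tails.
-/

namespace Pool.H94S

open Filter Topology

section SepAux

variable {E : Type} [NormedAddCommGroup E] [NormedSpace ℝ E] {ι : Type}

/-- The quadratic form attached to the data `J, g0, g`. -/
def qf (w : ι → ℝ) (J : Finset ι) (g0 : E) (g : ι → E) (a : E → ℝ) : ℝ :=
  a g0 ^ 2 + ∑ i ∈ J, w i * a (g i) ^ 2

/-- The dual unit ball of the smoothed seminorm. -/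
def GS (s : Seminorm ℝ E) (T : ι → Set E) (w : ι → ℝ) : Set (E →L[ℝ] ℝ) :=
  {ν | ∀ g0, s g0 ≤ 1 → ∀ (J : Finset ι) (g : ι → E), (∀ i, g i ∈ T i) → qf w J g0 g ν ≤ 1}

variable {s : Seminorm ℝ E} {T : ι → Set E} {w : ι → ℝ}

theorem GS_le (h0 : ∀ i, (0 : E) ∈ T i) {ν : E →L[ℝ] ℝ} (hν : ν ∈ GS s T w) (f : E) :
    |ν f| ≤ s f := by
  refine le_of_forall_pos_le_add fun ε hε => ?_
  have hr : 0 < s f + ε := add_pos_of_nonneg_of_pos (apply_nonneg s f) hε
  have h1 := hν ((s f + ε)⁻¹ • f) (by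
    rw [map_smul_eq_mul, Real.norm_eq_abs, abs_of_pos (inv_pos.mpr hr), inv_mul_le_iff₀ hr]
    linarith) ∅ (fun _ => 0) h0
  simp only [qf, Finset.sum_empty, add_zero, map_smul, smul_eq_mul] at h1
  rw [sq_le_one_iff_abs_le_one, abs_mul, abs_of_pos (inv_pos.mpr hr), inv_mul_le_iff₀ hr,
    mul_one] at h1
  exact h1

theorem GS_neg {ν : E →L[ℝ] ℝ} (hν : ν ∈ GS s T w) : -ν ∈ GS s T w := by
  intro g0 hg0 J g hg
  have := hν g0 hg0 J g hg
  simpa [qf] using this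

theorem GS_scale {θ : E →L[ℝ] ℝ} {c : ℝ} (hc : 0 < c)
    (h : ∀ g0, s g0 ≤ 1 → ∀ (J : Finset ι) (g : ι → E), (∀ i, g i ∈ T i) →
      qf w J g0 g θ ≤ c ^ 2) : c⁻¹ • θ ∈ GS s T w := by
  intro g0 hg0 J g hg
  have h1 := h g0 hg0 J g hg
  have h2 : qf w J g0 g ((c⁻¹ • θ : E →L[ℝ] ℝ) : E → ℝ) = (c ^ 2)⁻¹ * qf w J g0 g θ := by
    simp only [qf, smul_apply, smul_eq_mul, mul_add, Finset.mul_sum]
    congr 1
    · ring
    · refine Finset.sum_congr rfl fun i _ => ?_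
      ring
  rw [h2, inv_mul_le_iff₀ (by positivity), mul_one]
  exact h1

theorem isClosed_GS : IsClosed (WeakDual.toStrongDual ⁻¹' (GS s T w) : Set (WeakDual ℝ E)) := by
  have h : (WeakDual.toStrongDual ⁻¹' (GS s T w) : Set (WeakDual ℝ E)) =
      ⋂ g0, ⋂ (_ : s g0 ≤ 1), ⋂ J : Finset ι, ⋂ g : ι → E, ⋂ (_ : ∀ i, g i ∈ T i),
        {ν : WeakDual ℝ E | qf w J g0 g ν ≤ 1} := by
    ext ν
    simp only [Set.mem_iInter]
    rfl
  rw [h]
  refine isClosed_iInter fun g0 => isClosed_iInter fun _ => isClosed_iInter fun J =>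
    isClosed_iInter fun g => isClosed_iInter fun _ => ?_
  refine isClosed_le ?_ continuous_const
  unfold qf
  refine ((WeakDual.eval_continuous g0).pow 2).add ?_
  exact continuous_finsetSum _ fun i _ =>
    continuous_const.mul ((WeakDual.eval_continuous (g i)).pow 2)

theorem exists_max {C : ℝ} (hC : 0 ≤ C) (hs : ∀ f, s f ≤ C * ‖f‖) (h0 : ∀ i, (0 : E) ∈ T i)
    (f : E) : ∃ μ ∈ GS s T w, ∀ ν ∈ GS s T w, ν f ≤ μ f := by
  have hcomp : IsCompact (WeakDual.toStrongDual ⁻¹' (GS s T w) : Set (WeakDual ℝ E)) := by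
    refine (WeakDual.isCompact_closedBall (0 : StrongDual ℝ E) C).of_isClosed_subset
      isClosed_GS ?_
    intro ν hν
    change WeakDual.toStrongDual ν ∈ Metric.closedBall 0 C
    rw [mem_closedBall_zero_iff]
    refine ContinuousLinearMap.opNorm_le_bound _ hC fun x => ?_
    exact (GS_le h0 hν x).trans (hs x)
  have hne : (WeakDual.toStrongDual ⁻¹' (GS s T w) : Set (WeakDual ℝ E)).Nonempty := by
    refine ⟨0, ?_⟩
    intro g0 _ J g _
    simp [qf]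
  obtain ⟨μ, hμ, hmax⟩ := hcomp.exists_isMaxOn hne (WeakDual.eval_continuous f).continuousOn
  exact ⟨WeakDual.toStrongDual μ, hμ, fun ν hν =>
    hmax (a := StrongDual.toWeakDual ν) hν⟩

theorem GS_of_le {C k0 κ : ℝ} (hs : ∀ f, s f ≤ C * ‖f‖) (hw : ∀ i, 0 < w i)
    (hT : ∀ i, ∀ g ∈ T i, ‖g‖ ≤ 1) (hC : 0 ≤ C) (hk : ∀ J : Finset ι, ∑ i ∈ J, w i ≤ k0)
    (hκ : 0 < κ) (hk0 : 1 + k0 * C ^ 2 ≤ (1 + κ) ^ 2)
    {ν : E →L[ℝ] ℝ} (hν : ∀ f, |ν f| ≤ s f) : (1 + κ)⁻¹ • ν ∈ GS s T w := by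
  refine GS_scale (by linarith) ?_
  intro g0 hg0 J g hg
  refine le_trans ?_ hk0
  unfold qf
  have h1 : ν g0 ^ 2 ≤ 1 := by
    rw [sq_le_one_iff_abs_le_one]
    exact (hν g0).trans hg0
  have h2 : ∑ i ∈ J, w i * ν (g i) ^ 2 ≤ ∑ i ∈ J, w i * C ^ 2 := by
    refine Finset.sum_le_sum fun i _ => ?_
    refine mul_le_mul_of_nonneg_left ?_ (hw i).le
    rw [sq_le_sq, abs_of_nonneg hC]
    refine (hν _).trans ((hs _).trans ?_)
    calc C * ‖g i‖ ≤ C * 1 := mul_le_mul_of_nonneg_left (hT i _ (hg i)) hC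
      _ = C := mul_one C
  rw [← Finset.sum_mul] at h2
  have h3 : (∑ i ∈ J, w i) * C ^ 2 ≤ k0 * C ^ 2 :=
    mul_le_mul_of_nonneg_right (hk J) (sq_nonneg C)
  linarith

theorem qf_par (J : Finset ι) (g0 : E) (g : ι → E) (μ ν : E →L[ℝ] ℝ) :
    qf w J g0 g ((2⁻¹ : ℝ) • (μ + ν) : E →L[ℝ] ℝ) + qf w J g0 g ((2⁻¹ : ℝ) • (μ - ν) : E →L[ℝ] ℝ) =
      2⁻¹ * (qf w J g0 g μ + qf w J g0 g ν) := by
  simp only [qf, smul_apply, add_apply,
    sub_apply, smul_eq_mul]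
  have h : ∑ i ∈ J, w i * (2⁻¹ * (μ (g i) + ν (g i))) ^ 2 +
      ∑ i ∈ J, w i * (2⁻¹ * (μ (g i) - ν (g i))) ^ 2 =
      2⁻¹ * (∑ i ∈ J, w i * μ (g i) ^ 2 + ∑ i ∈ J, w i * ν (g i) ^ 2) := by
    rw [← Finset.sum_add_distrib, ← Finset.sum_add_distrib, Finset.mul_sum]
    refine Finset.sum_congr rfl fun i _ => ?_
    ring
  linear_combination h

open Classical in
theorem qf_update (J : Finset ι) (g0 : E) (g : ι → E) (μ : E →L[ℝ] ℝ) {i : ι} (hi : i ∈ J)
    (h : E) : qf w J g0 (Function.update g i h) μ =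
      qf w J g0 g μ - w i * μ (g i) ^ 2 + w i * μ h ^ 2 := by
  unfold qf
  rw [← Finset.add_sum_erase J _ hi, ← Finset.add_sum_erase J (fun i => w i * μ (g i) ^ 2) hi]
  have h1 : ∑ x ∈ J.erase i, w x * μ (Function.update g i h x) ^ 2 =
      ∑ x ∈ J.erase i, w x * μ (g x) ^ 2 := by
    refine Finset.sum_congr rfl fun x hx => ?_
    rw [Function.update_of_ne (Finset.ne_of_mem_erase hx)]
  rw [h1, Function.update_self]
  ring

open Classical in
/-- Lemma A: extraction of almost extremal data. -/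
theorem extract (hw : ∀ i, 0 < w i) (h0 : ∀ i, (0 : E) ∈ T i) {f : E} {σ : ℝ} (hσ : 0 < σ)
    (hmax : ∀ ν ∈ GS s T w, ν f ≤ σ) {μ : E →L[ℝ] ℝ} (hμ : μ ∈ GS s T w) (hμf : μ f = σ)
    {ζ : ℝ} (hζ : 0 < ζ) (hζ1 : ζ < 1) (J0 : Finset ι) :
    ∃ δ : ℝ, 0 < δ ∧ ∀ ν ∈ GS s T w, σ - δ ≤ ν f → ∃ g : ι → E, (∀ i, g i ∈ T i) ∧
      ∀ i ∈ J0, w i * (μ (g i) - ν (g i)) ^ 2 ≤ 4 * ζ ∧
        (∀ h ∈ T i, w i * μ h ^ 2 ≤ w i * μ (g i) ^ 2 + 2 * ζ) ∧
        (∀ h ∈ T i, w i * ν h ^ 2 ≤ w i * ν (g i) ^ 2 + 2 * ζ) := by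
  have hc2 : Real.sqrt (1 - ζ) ^ 2 = 1 - ζ := Real.sq_sqrt (by linarith)
  have hc0 : 0 < Real.sqrt (1 - ζ) := Real.sqrt_pos.mpr (by linarith)
  have hc1 : Real.sqrt (1 - ζ) < 1 := by
    rw [Real.sqrt_lt' one_pos]; linarith
  set c := Real.sqrt (1 - ζ) with hc
  have hδ : 0 < σ * (1 - c) := mul_pos hσ (by linarith)
  refine ⟨σ * (1 - c), hδ, ?_⟩
  intro ν hν hνf
  -- the midpoint
  have h1 : ¬ ∀ g0, s g0 ≤ 1 → ∀ (J : Finset ι) (g : ι → E), (∀ i, g i ∈ T i) →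
      qf w J g0 g ((2⁻¹ : ℝ) • (μ + ν) : E →L[ℝ] ℝ) ≤ c ^ 2 := by
    intro hcon
    have h2 := hmax _ (GS_scale hc0 hcon)
    simp only [smul_apply, add_apply, smul_eq_mul,
      hμf] at h2
    rw [inv_mul_le_iff₀ hc0] at h2
    have h3 : 2⁻¹ * (σ + ν f) ≥ 2⁻¹ * (σ + (σ - σ * (1 - c))) := by linarith
    nlinarith
  push Not at h1
  obtain ⟨g0, hg0, J, g, hg, hlt⟩ := h1
  rw [hc2] at hlt
  -- extended data
  let g' : ι → E := fun i => if i ∈ J then g i else 0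
  have hg' : ∀ i, g' i ∈ T i := by
    intro i
    by_cases hi : i ∈ J
    · simp only [g', hi, if_true]; exact hg i
    · simp only [g', hi, if_false]; exact h0 i
  have hqf : ∀ a : E →L[ℝ] ℝ, qf w (J ∪ J0) g0 g' a = qf w J g0 g a := by
    intro a
    unfold qf
    congr 1
    have h2 : ∑ i ∈ J, w i * a (g i) ^ 2 = ∑ i ∈ J, w i * a (g' i) ^ 2 := by
      refine Finset.sum_congr rfl fun i hi => ?_
      simp only [g', hi, if_true]
    rw [h2]
    refine (Finset.sum_subset Finset.subset_union_left fun i _ hi => ?_).symm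
    simp only [g', hi, if_false, map_zero]
    ring
  have hpar := qf_par (w := w) (J ∪ J0) g0 g' μ ν
  have hlt' : 1 - ζ < qf w (J ∪ J0) g0 g' ((2⁻¹ : ℝ) • (μ + ν) : E →L[ℝ] ℝ) := by
    rw [hqf]; exact hlt
  have hμ1 := hμ g0 hg0 (J ∪ J0) g' hg'
  have hν1 := hν g0 hg0 (J ∪ J0) g' hg'
  have hd : qf w (J ∪ J0) g0 g' ((2⁻¹ : ℝ) • (μ - ν) : E →L[ℝ] ℝ) ≤ ζ := by linarith
  have hdnn : 0 ≤ qf w (J ∪ J0) g0 g' ((2⁻¹ : ℝ) • (μ - ν) : E →L[ℝ] ℝ) := by
    unfold qf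
    exact add_nonneg (sq_nonneg _) (Finset.sum_nonneg fun i _ =>
      mul_nonneg (hw i).le (sq_nonneg _))
  refine ⟨g', hg', fun i hi => ?_⟩
  have hi' : i ∈ J ∪ J0 := Finset.mem_union_right _ hi
  refine ⟨?_, ?_, ?_⟩
  · have h2 : w i * ((2⁻¹ : ℝ) • (μ - ν) : E →L[ℝ] ℝ) (g' i) ^ 2 ≤ ζ := by
      refine le_trans ?_ hd
      unfold qf
      have h3 := Finset.single_le_sum
        (f := fun i => w i * ((2⁻¹ : ℝ) • (μ - ν) : E →L[ℝ] ℝ) (g' i) ^ 2)
        (fun i _ => mul_nonneg (hw i).le (sq_nonneg _)) hi'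
      have h4 := sq_nonneg (((2⁻¹ : ℝ) • (μ - ν) : E →L[ℝ] ℝ) g0)
      linarith
    simp only [smul_apply, sub_apply, smul_eq_mul] at h2
    nlinarith
  · intro h hh
    have h2 := hμ g0 hg0 (J ∪ J0) (Function.update g' i h) (by
      intro k
      by_cases hk : k = i
      · subst hk; rw [Function.update_self]; exact hh
      · rw [Function.update_of_ne hk]; exact hg' k)
    rw [qf_update (J ∪ J0) g0 g' μ hi' h] at h2
    linarith
  · intro h hh
    have h2 := hν g0 hg0 (J ∪ J0) (Function.update g' i h) (by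
      intro k
      by_cases hk : k = i
      · subst hk; rw [Function.update_self]; exact hh
      · rw [Function.update_of_ne hk]; exact hg' k)
    rw [qf_update (J ∪ J0) g0 g' ν hi' h] at h2
    linarith

end SepAux

set_option linter.unusedSectionVars false

section Main

variable {E : Type} [NormedAddCommGroup E] [NormedSpace ℝ E]

/-- The index sets. -/
def TT (x : ℕ → E) (S : ℕ → Set E) : ℕ ⊕ ℕ → Set E
  | Sum.inl j => insert 0 (S j)
  | Sum.inr k => {x k, 0}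

theorem TT_zero (x : ℕ → E) (S : ℕ → Set E) (i : ℕ ⊕ ℕ) : (0 : E) ∈ TT x S i := by
  cases i with
  | inl j => exact Set.mem_insert _ _
  | inr k => exact Set.mem_insert_of_mem _ rfl

theorem TT_norm {x : ℕ → E} (hx : ∀ k, ‖x k‖ ≤ 1) {S : ℕ → Set E}
    (hS : ∀ j, ∀ g ∈ S j, ‖g‖ ≤ 1) (i : ℕ ⊕ ℕ) : ∀ g ∈ TT x S i, ‖g‖ ≤ 1 := by
  cases i with
  | inl j =>
    rintro g (rfl | hg)
    · simp
    · exact hS j g hg
  | inr k =>
    rintro g (rfl | hg)
    · exact hx k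
    · rw [Set.mem_singleton_iff.mp hg]; simp

theorem exists_pos_le_finset {K : Finset ℕ} {a : ℕ → ℝ} (ha : ∀ k, 0 < a k) :
    ∃ z : ℝ, 0 < z ∧ ∀ k ∈ K, z ≤ a k := by
  induction K using Finset.induction_on with
  | empty => exact ⟨1, one_pos, by simp⟩
  | insert k K _ ih =>
    obtain ⟨z, hz, h⟩ := ih
    refine ⟨min z (a k), lt_min hz (ha k), ?_⟩
    intro l hl
    rcases Finset.mem_insert.mp hl with rfl | hl
    · exact min_le_right _ _
    · exact (min_le_left _ _).trans (h l hl)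

/-- Lemma B: functionals of `GS` which almost norm `f` are close to `μ`. -/
theorem near {s : Seminorm ℝ E} {w : ℕ ⊕ ℕ → ℝ} (hw : ∀ i, 0 < w i)
    (x : ℕ → E) (S : ℕ → Set E)
    (hD1 : ∀ μ : E →L[ℝ] ℝ, (∀ f, |μ f| ≤ s f) → ∀ η, 0 < η → ∃ j, ∀ g ∈ S j, |μ g| ≤ η)
    (hD2 : ∀ j, ∃ K : Finset ℕ, ∀ g : E, ‖g‖ ≤ 1 → ∃ (c : ℕ → ℝ) (g' : E),
      (∀ k, |c k| ≤ 1) ∧ g' ∈ S j ∧ g = ∑ k ∈ K, c k • x k + (2 : ℝ) • g')
    {f : E} {σ : ℝ} (hσ : 0 < σ)
    (hmax : ∀ ν ∈ GS s (TT x S) w, ν f ≤ σ) {μ : E →L[ℝ] ℝ} (hμ : μ ∈ GS s (TT x S) w)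
    (hμf : μ f = σ) {η : ℝ} (hη : 0 < η) :
    ∃ δ : ℝ, 0 < δ ∧ ∀ ν ∈ GS s (TT x S) w, σ - δ ≤ ν f → ∀ h, |ν h - μ h| ≤ η * ‖h‖ := by
  obtain ⟨j, hj⟩ := hD1 μ (GS_le (TT_zero x S) hμ) (η / 12) (by positivity)
  obtain ⟨K, hK⟩ := hD2 j
  set η2 : ℝ := η / (2 * ((K.card : ℝ) + 1)) with hη2
  have hη2p : 0 < η2 := by positivity
  obtain ⟨z, hz, hzk⟩ := exists_pos_le_finset (K := K)
    (a := fun k => w (Sum.inr k) * η2 ^ 2 / 8) (fun k => by
      have := hw (Sum.inr k)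
      positivity)
  have hwj := hw (Sum.inl j)
  set ζ : ℝ := min (min z (1 / 2)) (w (Sum.inl j) * (η / 12) ^ 2 / 64) with hζd
  have hζ : 0 < ζ := by
    refine lt_min (lt_min hz (by norm_num)) ?_
    positivity
  have hζ1 : ζ < 1 := by
    have : ζ ≤ 1 / 2 := (min_le_left _ _).trans (min_le_right _ _)
    linarith
  have hζz : ζ ≤ z := (min_le_left _ _).trans (min_le_left _ _)
  have hζj : ζ ≤ w (Sum.inl j) * (η / 12) ^ 2 / 64 := min_le_right _ _
  obtain ⟨δ, hδ, hex⟩ := extract hw (TT_zero x S) hσ hmax hμ hμf hζ hζ1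
    (insert (Sum.inl j) (K.image Sum.inr))
  refine ⟨δ, hδ, fun ν hν hνf => ?_⟩
  obtain ⟨g, hg, hgi⟩ := hex ν hν hνf
  -- the tail
  have htail : ∀ h ∈ S j, |ν h| ≤ 2 * (η / 12) := by
    intro h hh
    obtain ⟨h1, -, h3⟩ := hgi (Sum.inl j) (Finset.mem_insert_self _ _)
    have h3' := h3 h (Set.mem_insert_of_mem _ hh)
    have hgj : |μ (g (Sum.inl j))| ≤ η / 12 := by
      rcases hg (Sum.inl j) with h0 | h0
      · rw [h0, map_zero, abs_zero]; positivity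
      · exact hj _ h0
    have h4 : (μ (g (Sum.inl j)) - ν (g (Sum.inl j))) ^ 2 ≤ ((η / 12) / 4) ^ 2 := by
      have h5 : w (Sum.inl j) * (μ (g (Sum.inl j)) - ν (g (Sum.inl j))) ^ 2 ≤
          w (Sum.inl j) * ((η / 12) / 4) ^ 2 := by nlinarith
      exact le_of_mul_le_mul_left h5 hwj
    have h5 : |μ (g (Sum.inl j)) - ν (g (Sum.inl j))| ≤ (η / 12) / 4 :=
      abs_le_of_sq_le_sq h4 (by positivity)
    have h6 : |ν (g (Sum.inl j))| ≤ (η / 12) * (5 / 4) := by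
      have h7 : ν (g (Sum.inl j)) = μ (g (Sum.inl j)) -
        (μ (g (Sum.inl j)) - ν (g (Sum.inl j))) := by ring
      rw [h7]
      refine (abs_sub _ _).trans ?_
      linarith
    have h8 : ν (g (Sum.inl j)) ^ 2 ≤ ((η / 12) * (5 / 4)) ^ 2 := by
      rw [← sq_abs]
      exact pow_le_pow_left₀ (abs_nonneg _) h6 2
    have h9 : w (Sum.inl j) * ν h ^ 2 ≤ w (Sum.inl j) * (2 * (η / 12)) ^ 2 := by
      have h10 := mul_le_mul_of_nonneg_left h8 hwj.le
      nlinarith [mul_pos hwj (pow_pos hη 2)]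
    exact abs_le_of_sq_le_sq (le_of_mul_le_mul_left h9 hwj) (by positivity)
  -- the finitely many vectors `x k`
  have hxk : ∀ k ∈ K, |ν (x k) - μ (x k)| ≤ η2 := by
    intro k hk
    obtain ⟨h1, h2, h3⟩ := hgi (Sum.inr k)
      (Finset.mem_insert_of_mem (Finset.mem_image_of_mem _ hk))
    have hwk := hw (Sum.inr k)
    have hzk' : ζ ≤ w (Sum.inr k) * η2 ^ 2 / 8 := hζz.trans (hzk k hk)
    rcases hg (Sum.inr k) with h0 | h0
    · rw [h0] at h1
      have h5 : w (Sum.inr k) * (μ (x k) - ν (x k)) ^ 2 ≤ w (Sum.inr k) * η2 ^ 2 := by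
        nlinarith [mul_pos hwk (pow_pos hη2p 2)]
      rw [abs_sub_comm]
      exact abs_le_of_sq_le_sq (le_of_mul_le_mul_left h5 hwk) hη2p.le
    · rw [Set.mem_singleton_iff.mp h0] at h2 h3
      have h4 := h2 (x k) (Set.mem_insert _ _)
      have h5 := h3 (x k) (Set.mem_insert _ _)
      rw [map_zero] at h4 h5
      have h6 : |μ (x k)| ≤ η2 / 2 := by
        have h7 : w (Sum.inr k) * μ (x k) ^ 2 ≤ w (Sum.inr k) * (η2 / 2) ^ 2 := by nlinarith
        exact abs_le_of_sq_le_sq (le_of_mul_le_mul_left h7 hwk) (by positivity)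
      have h7 : |ν (x k)| ≤ η2 / 2 := by
        have h7 : w (Sum.inr k) * ν (x k) ^ 2 ≤ w (Sum.inr k) * (η2 / 2) ^ 2 := by nlinarith
        exact abs_le_of_sq_le_sq (le_of_mul_le_mul_left h7 hwk) (by positivity)
      refine (abs_sub _ _).trans ?_
      linarith
  -- the unit ball
  have hunit : ∀ h : E, ‖h‖ ≤ 1 → |ν h - μ h| ≤ η := by
    intro h hh
    obtain ⟨c, g', hc, hg', hsum⟩ := hK h hh
    have h1 : ν h - μ h = ∑ k ∈ K, c k * (ν (x k) - μ (x k)) + 2 * (ν g' - μ g') := by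
      rw [hsum, map_add, map_add, map_sum, map_sum, map_smul, map_smul]
      simp only [map_smul, smul_eq_mul, mul_sub, Finset.sum_sub_distrib]
      ring
    rw [h1]
    refine (abs_add_le _ _).trans ?_
    have h2 : |∑ k ∈ K, c k * (ν (x k) - μ (x k))| ≤ η / 2 := by
      refine (Finset.abs_sum_le_sum_abs _ _).trans ?_
      have h3 : ∑ k ∈ K, |c k * (ν (x k) - μ (x k))| ≤ ∑ _k ∈ K, η2 := by
        refine Finset.sum_le_sum fun k hk => ?_
        rw [abs_mul]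
        calc |c k| * |ν (x k) - μ (x k)| ≤ 1 * η2 :=
              mul_le_mul (hc k) (hxk k hk) (abs_nonneg _) zero_le_one
          _ = η2 := one_mul _
      refine h3.trans ?_
      rw [Finset.sum_const, nsmul_eq_mul, hη2]
      have h4 : (0 : ℝ) < (K.card : ℝ) + 1 := by positivity
      rw [mul_div_assoc', div_le_div_iff₀ (by positivity) (by norm_num)]
      nlinarith
    have h3 : |2 * (ν g' - μ g')| ≤ 6 * (η / 12) := by
      rw [abs_mul, abs_of_pos (by norm_num : (0 : ℝ) < 2)]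
      have h4 := htail g' hg'
      have h5 := hj g' hg'
      have h6 := abs_sub (ν g') (μ g')
      linarith
    linarith
  intro h
  rcases eq_or_ne h 0 with rfl | hne
  · simp
  · have hn : 0 < ‖h‖ := norm_pos_iff.mpr hne
    have h1 := hunit (‖h‖⁻¹ • h) (by
      rw [norm_smul, norm_inv, norm_norm, inv_mul_cancel₀ hn.ne'])
    rw [map_smul, map_smul, smul_eq_mul, smul_eq_mul, ← mul_sub, abs_mul,
      abs_of_pos (inv_pos.mpr hn), inv_mul_le_iff₀ hn] at h1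
    linarith

/-- Module SEP: smoothing of a seminorm whose dominated functionals have small tails. -/
theorem sep_smooth
    (s : Seminorm ℝ E) (C : ℝ) (hs : ∀ f, s f ≤ C * ‖f‖)
    (x : ℕ → E) (hx : ∀ k, ‖x k‖ ≤ 1) (S : ℕ → Set E) (hS : ∀ j, ∀ g ∈ S j, ‖g‖ ≤ 1)
    (hD1 : ∀ μ : E →L[ℝ] ℝ, (∀ f, |μ f| ≤ s f) → ∀ η, 0 < η → ∃ j, ∀ g ∈ S j, |μ g| ≤ η)
    (hD2 : ∀ j, ∃ K : Finset ℕ, ∀ g : E, ‖g‖ ≤ 1 → ∃ (c : ℕ → ℝ) (g' : E),
      (∀ k, |c k| ≤ 1) ∧ g' ∈ S j ∧ g = ∑ k ∈ K, c k • x k + (2 : ℝ) • g')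
    (κ : ℝ) (hκ : 0 < κ) :
    ∃ s' : Seminorm ℝ E, (∀ f, s' f ≤ s f) ∧ (∀ f, s f ≤ (1 + κ) * s' f) ∧
      ∀ f, s' f ≠ 0 → DifferentiableAt ℝ (fun g => s' g) f := by
  -- nonnegative constant
  set D : ℝ := max C 0 with hD
  have hD0 : 0 ≤ D := le_max_right _ _
  have hsD : ∀ f, s f ≤ D * ‖f‖ := fun f =>
    (hs f).trans (mul_le_mul_of_nonneg_right (le_max_left _ _) (norm_nonneg f))
  -- weights
  have hk0 : 0 < ((1 + κ) ^ 2 - 1) / (D ^ 2 + 1) := by
    apply div_pos _ (by positivity)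
    nlinarith
  obtain ⟨w, hw, hwsum⟩ := (Set.countable_univ (α := ℕ ⊕ ℕ)).exists_pos_forall_sum_le hk0
  have hk1 : 1 + ((1 + κ) ^ 2 - 1) / (D ^ 2 + 1) * D ^ 2 ≤ (1 + κ) ^ 2 := by
    have h1 : ((1 + κ) ^ 2 - 1) / (D ^ 2 + 1) * D ^ 2 ≤ (1 + κ) ^ 2 - 1 := by
      rw [div_mul_eq_mul_div, div_le_iff₀ (by positivity)]
      have h2 : 0 ≤ (1 + κ) ^ 2 - 1 := by nlinarith
      nlinarith
    linarith
  have h0 := TT_zero x S
  have hmaxex := fun f => exists_max (w := w) hD0 hsD h0 f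
  choose m hm hmm using hmaxex
  -- the seminorm
  have hadd : ∀ f g, m (f + g) (f + g) ≤ m f f + m g g := by
    intro f g
    rw [map_add]
    exact add_le_add (hmm f _ (hm (f + g))) (hmm g _ (hm (f + g)))
  have hnn : ∀ f, 0 ≤ m f f := by
    intro f
    have h1 := hmm f _ (GS_neg (hm f))
    have h2 : (-(m f)) f = -(m f f) := rfl
    rw [h2] at h1
    linarith
  have hsmul : ∀ (a : ℝ) f, m (a • f) (a • f) = ‖a‖ * m f f := by
    intro a f
    rw [map_smul, smul_eq_mul, Real.norm_eq_abs]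
    apply le_antisymm
    · rcases abs_cases a with ⟨h1, h2⟩ | ⟨h1, h2⟩
      · rw [h1]
        exact mul_le_mul_of_nonneg_left (hmm f _ (hm (a • f))) h2
      · rw [h1]
        have h3 := hmm f _ (GS_neg (hm (a • f)))
        have h4 : (-(m (a • f))) f = -(m (a • f) f) := rfl
        rw [h4] at h3
        nlinarith
    · rcases abs_cases a with ⟨h1, h2⟩ | ⟨h1, h2⟩
      · rw [h1]
        have h3 := hmm (a • f) _ (hm f)
        rw [map_smul, map_smul, smul_eq_mul, smul_eq_mul] at h3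
        exact h3
      · rw [h1]
        have h3 := hmm (a • f) _ (GS_neg (hm f))
        have h4 : (-(m f)) (a • f) = -(a * m f f) := by
          have h5 : (-(m f)) (a • f) = -(m f (a • f)) := rfl
          rw [h5, map_smul, smul_eq_mul]
        rw [h4, map_smul, smul_eq_mul] at h3
        linarith
  let s' : Seminorm ℝ E := Seminorm.of (fun f => m f f) hadd hsmul
  have hs' : ∀ f, s' f = m f f := fun _ => rfl
  refine ⟨s', ?_, ?_, ?_⟩
  · intro f
    rw [hs']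
    exact (le_abs_self _).trans (GS_le h0 (hm f) f)
  · intro f
    rcases eq_or_ne f 0 with rfl | hf
    · rw [map_zero, map_zero, mul_zero]
    · obtain ⟨g, hg1, hg2⟩ := exists_extension_of_le_sublinear
        (LinearPMap.mkSpanSingleton f (s f) hf) s
        (fun c hc y => by rw [map_smul_eq_mul, Real.norm_eq_abs, abs_of_pos hc])
        (fun y z => map_add_le_add s y z)
        (by
          rintro ⟨y, hy⟩
          obtain ⟨c, rfl⟩ := Submodule.mem_span_singleton.mp hy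
          have h1 : (LinearPMap.mkSpanSingleton f (s f) hf) ⟨c • f, hy⟩ = c • s f :=
            LinearPMap.mkSpanSingleton'_apply _ _ _ _ _
          change (LinearPMap.mkSpanSingleton f (s f) hf) ⟨c • f, hy⟩ ≤ s (c • f)
          rw [h1, map_smul_eq_mul, smul_eq_mul, Real.norm_eq_abs]
          exact mul_le_mul_of_nonneg_right (le_abs_self c) (apply_nonneg s f))
      have hg3 : ∀ y, |g y| ≤ s y := by
        intro y
        rw [abs_le]
        refine ⟨?_, hg2 y⟩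
        have := hg2 (-y)
        rw [map_neg, map_neg_eq_map] at this
        linarith
      have hgf : g f = s f := by
        have h1 := hg1 ⟨f, Submodule.mem_span_singleton_self f⟩
        rw [LinearPMap.mkSpanSingleton_apply] at h1
        exact h1
      let ν : E →L[ℝ] ℝ := g.mkContinuous D (fun y => by
        rw [Real.norm_eq_abs]
        exact (hg3 y).trans (hsD y))
      have hν : ∀ y, |ν y| ≤ s y := hg3
      have h1 := GS_of_le hsD hw (TT_norm hx hS) hD0 (fun J => hwsum J (Set.subset_univ _)) hκ hk1 hν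
      have h2 := hmm f _ h1
      have h3 : ((1 + κ)⁻¹ • ν : E →L[ℝ] ℝ) f = (1 + κ)⁻¹ * s f := by
        change (1 + κ)⁻¹ * g f = _
        rw [hgf]
      rw [h3, inv_mul_le_iff₀ (by linarith)] at h2
      exact h2
  · intro f hf
    have hσ : 0 < m f f := lt_of_le_of_ne (hnn f) (Ne.symm hf)
    refine HasFDerivAt.differentiableAt (f' := m f) ?_
    rw [hasFDerivAt_iff_isLittleO_nhds_zero, Asymptotics.isLittleO_iff]
    intro η hη
    obtain ⟨δ, hδ, hnear⟩ := near hw x S hD1 hD2 hσ (hmm f) (hm f) rfl hη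
    have hev : ∀ᶠ h : E in 𝓝 0, ‖h‖ < δ / (2 * D + 1) := by
      have : Tendsto (fun h : E => ‖h‖) (𝓝 0) (𝓝 0) := by
        simpa using (continuous_norm (E := E)).tendsto 0
      exact this.eventually (gt_mem_nhds (by positivity))
    filter_upwards [hev] with h hh
    have h1 : m (f + h) f + m (f + h) h = m (f + h) (f + h) := (map_add _ _ _).symm
    have h2 : m f f + m f h ≤ m (f + h) (f + h) := by
      have := hmm (f + h) _ (hm f)
      rwa [map_add] at this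
    have h3 : |m f h| ≤ D * ‖h‖ := (GS_le h0 (hm f) h).trans (hsD h)
    have h4 : |m (f + h) h| ≤ D * ‖h‖ := (GS_le h0 (hm (f + h)) h).trans (hsD h)
    rw [lt_div_iff₀ (by positivity)] at hh
    have h5 := hnear _ (hm (f + h)) (by
      have := (abs_le.mp h3).1
      have := (abs_le.mp h4).2
      nlinarith [norm_nonneg h]) h
    have h6 := hmm f _ (hm (f + h))
    have h7 := (abs_le.mp h5).2
    rw [Real.norm_eq_abs, hs', hs', abs_le]
    constructor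
    · have : 0 ≤ η * ‖h‖ := by positivity
      linarith
    · linarith

end Main

end Pool.H94S
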