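import Pool.Agent.H94S.Prime
import Pool.Agent.H94S.Sep
import Pool.Agent.H94S.Asm

/-! Density of Fréchet smooth norms on `C_0(ω₁)`. -/

open Cardinal Set Filter Topology
open scoped ENNReal

namespace Pool.H94S

/-- Smoothing of seminorms which only depend on a countable initial segment. -/
theorem sep_cut (s : Seminorm ℝ X) (K : ℝ) (hs : ∀ f, s f ≤ K * ‖f‖) (a : L)
    (hcut : ∀ f, s (f - cut a f) = 0) (κ : ℝ) (hκ : 0 < κ) :
    ∃ s' : Seminorm ℝ X, (∀ f, s' f ≤ s f) ∧ (∀ f, s f ≤ (1 + κ) * s' f) ∧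
      ∀ f, s' f ≠ 0 → DifferentiableAt ℝ (fun g => s' g) f := by
  classical
  have : Countable (Iic a) := (countable_Iic a).to_subtype
  have : Nonempty (Iic a) := ⟨⟨a, mem_Iic.2 le_rfl⟩⟩
  obtain ⟨e, he⟩ := exists_surjective_nat (Iic a)
  obtain ⟨e2, he2⟩ := exists_surjective_nat (Finset (Iic a) × Iic a)
  choose kk hkk using he2
  let fm : Finset (Iic a) → Finset L := fun F => F.map (Function.Embedding.subtype _)
  refine sep_smooth s K hs (fun k => itp (fm (e2 k).1) (e2 k).2) (fun k => norm_itp_le _ _)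
    (fun j => {g | ‖g‖ ≤ 1 ∧ ∀ i < j, ev g (e i) = 0}) (fun j g hg => hg.1) ?_ ?_ κ hκ
  · -- dominated functionals have small tails
    intro μ hμ η hη
    obtain ⟨m, hm, hmf⟩ := riesz μ
    have h1 : Tendsto (fun T : Finset L => ∑' t : {t // t ∉ T}, |m t|) atTop (𝓝 0) :=
      tendsto_tsum_compl_atTop_zero (fun t => |m t|)
    obtain ⟨T, hT⟩ := (h1.eventually (gt_mem_nhds hη)).exists
    obtain ⟨j, hj⟩ : ∃ j : ℕ, ∀ t ∈ T, ∀ ht : t ≤ a, ∃ i < j, (e i : L) = t := by
      have h2 : ∀ T : Finset L, ∃ j : ℕ, ∀ t ∈ T, ∀ ht : t ≤ a, ∃ i < j, (e i : L) = t := by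
        intro T
        induction T using Finset.induction_on with
        | empty => exact ⟨0, by simp⟩
        | insert t0 T _ ih =>
          obtain ⟨j, hj⟩ := ih
          by_cases ht0 : t0 ≤ a
          · obtain ⟨i0, hi0⟩ := he ⟨t0, ht0⟩
            refine ⟨max j (i0 + 1), fun t ht hta => ?_⟩
            rcases Finset.mem_insert.1 ht with rfl | ht
            · exact ⟨i0, (Nat.lt_succ_self i0).trans_le (le_max_right _ _), by rw [hi0]⟩
            · obtain ⟨i, hi, hi'⟩ := hj t ht hta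
              exact ⟨i, hi.trans_le (le_max_left _ _), hi'⟩
          · refine ⟨j, fun t ht hta => ?_⟩
            rcases Finset.mem_insert.1 ht with rfl | ht
            · exact absurd hta ht0
            · exact hj t ht hta
      exact h2 T
    refine ⟨j, fun g hg => ?_⟩
    have h3 : μ g = μ (cut a g) := by
      have h4 := hμ (g - cut a g)
      rw [hcut, map_sub] at h4
      have := abs_eq_zero.1 (le_antisymm h4 (abs_nonneg _))
      linarith
    rw [h3, hmf]
    have h5 : ∑' t, m t * ev (cut a g) t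
        = ∑' t, ({t | t ∉ T}.indicator m t) * ev (cut a g) t := by
      refine tsum_congr fun t => ?_
      by_cases ht : t ∈ T
      · have h6 : ev (cut a g) t = 0 := by
          rcases le_or_gt t a with h7 | h7
          · rw [ev_cut_of_le h7]
            obtain ⟨i, hi, hi'⟩ := hj t ht h7
            rw [← hi']
            exact hg.2 i hi
          · exact ev_cut_of_lt h7 g
        rw [h6]; simp
      · rw [indicator_of_mem (show t ∈ {t | t ∉ T} from ht)]
    rw [h5]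
    have h6 : ∀ t, |{t | t ∉ T}.indicator m t| = {t | t ∉ T}.indicator (fun t => |m t|) t := by
      intro t
      by_cases ht : t ∈ {t | t ∉ T}
      · rw [indicator_of_mem ht, indicator_of_mem ht]
      · rw [indicator_of_notMem ht, indicator_of_notMem ht, abs_zero]
    have h7 : Summable fun t => |{t | t ∉ T}.indicator m t| := by
      simp_rw [h6]
      exact hm.indicator _
    refine (abs_tsum_mul_le _ _ h7 1 fun t _ => (abs_ev_le _ _).trans
      ((norm_cut_le a g).trans hg.1)).trans ?_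
    rw [one_mul]
    simp_rw [h6]
    rw [← tsum_subtype {t | t ∉ T} (fun t => |m t|)]
    exact hT.le
  · -- decomposition
    intro j
    let Fj : Finset (Iic a) := (Finset.range j).image e
    refine ⟨Fj.image fun t => kk (Fj, t), fun g hg => ?_⟩
    let y : X := ∑ t ∈ fm Fj, ev g t • itp (fm Fj) t
    have hy : ‖y‖ ≤ 1 := norm_sum_itp_le (fm Fj) (ev g) 1 zero_le_one
      fun t _ => (abs_ev_le g t).trans hg
    refine ⟨fun k => ev g (e2 k).2, (1 / 2 : ℝ) • (g - y), fun k => (abs_ev_le g _).trans hg,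
      ⟨?_, ?_⟩, ?_⟩
    · rw [norm_smul]
      have h1 : ‖g - y‖ ≤ 2 := (norm_sub_le _ _).trans (by linarith)
      have h2 : ‖(1 / 2 : ℝ)‖ = 1 / 2 := by rw [Real.norm_eq_abs]; norm_num
      rw [h2]
      linarith
    · intro i hi
      have h1 : (e i : L) ∈ fm Fj := by
        simp only [fm, Finset.mem_map, Function.Embedding.coe_subtype]
        exact ⟨e i, Finset.mem_image_of_mem e (Finset.mem_range.2 hi), rfl⟩
      rw [ev_smul, ev_sub]
      show (1 / 2 : ℝ) * (ev g (e i) - ev (∑ t ∈ fm Fj, ev g t • itp (fm Fj) t) (e i)) = 0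
      rw [ev_sum_itp (fm Fj) (ev g) h1]
      ring
    · have h1 : ∑ k ∈ Fj.image (fun t => kk (Fj, t)), ev g (e2 k).2 • itp (fm (e2 k).1) (e2 k).2
          = y := by
        rw [Finset.sum_image]
        · show _ = ∑ t ∈ fm Fj, ev g t • itp (fm Fj) t
          rw [Finset.sum_map]
          refine Finset.sum_congr rfl fun t _ => ?_
          rw [hkk]
          rfl
        · intro t _ t' _ h
          have h2 := congrArg e2 h
          simp only [hkk, Prod.mk.injEq, true_and] at h2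
          exact h2
      rw [h1, smul_smul]
      norm_num

/-- Evaluation as a functional. -/
noncomputable def evalL (t : L) : X →L[ℝ] ℝ :=
  LinearMap.mkContinuous
    { toFun := fun f => ev f t
      map_add' := fun f g => ev_add f g t
      map_smul' := fun c f => ev_smul c f t } 1 (fun f => by
        rw [one_mul, Real.norm_eq_abs]; exact abs_ev_le f t)

theorem evalL_apply (t : L) (f : X) : evalL t f = ev f t := rfl

/-- The functionals computing the oscillation. -/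
def WO (ζ b : L) : Set (X →L[ℝ] ℝ) := {w | ∃ t, ζ ≤ t ∧ t ≤ b ∧ w = evalL t - evalL ζ}

theorem hWO (ζ b : L) : ∀ w ∈ WO ζ b, ∀ f, |w f| ≤ 2 * ‖f‖ := by
  rintro w ⟨t, -, -, rfl⟩ f
  rw [sub_apply, evalL_apply, evalL_apply]
  refine (abs_sub _ _).trans ?_
  have h1 := abs_ev_le f t
  have h2 := abs_ev_le f ζ
  linarith

/-- The oscillation seminorm of a block. -/
noncomputable def osc (ζ b : L) : Seminorm ℝ X := supS (WO ζ b) 2 (hWO ζ b)

theorem osc_le (ζ b : L) (f : X) : osc ζ b f ≤ 2 * ‖f‖ :=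
  supS_le _ (by positivity) fun w hw => hWO ζ b w hw f

theorem le_osc {ζ b t : L} (h1 : ζ ≤ t) (h2 : t ≤ b) (f : X) : |ev f t - ev f ζ| ≤ osc ζ b f :=
  le_supS (hWO ζ b) ⟨t, h1, h2, rfl⟩ f

theorem osc_cut {ζ b : L} (h : ζ ≤ b) (f : X) : osc ζ b (f - cut b f) = 0 := by
  refine le_antisymm (supS_le _ le_rfl ?_) (apply_nonneg _ _)
  rintro w ⟨t, h1, h2, rfl⟩
  rw [sub_apply, evalL_apply, evalL_apply, ev_sub, ev_sub, ev_cut_of_le h2, ev_cut_of_le h]
  simp

theorem exists_of_lt_osc {ζ b : L} {f : X} {η : ℝ} (hη : 0 ≤ η) (h : η < osc ζ b f) :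
    ∃ t, ζ ≤ t ∧ t ≤ b ∧ η < |ev f t - ev f ζ| := by
  obtain ⟨w, ⟨t, h1, h2, rfl⟩, h3⟩ := exists_lt_of_lt_supS _ hη h
  exact ⟨t, h1, h2, h3⟩

/-- Fréchet smooth norms are dense on `C_0(ω₁)`. -/
theorem dense_smooth (p : Seminorm ℝ X) (C : ℝ) (hC : 0 < C)
    (hp : ∀ x : X, ‖x‖ ≤ C * p x ∧ p x ≤ C * ‖x‖) (ε₀ : ℝ) (hε₀ : 0 < ε₀) :
    ∃ q : Seminorm ℝ X,
      (∃ C : ℝ, 0 < C ∧ ∀ x : X, ‖x‖ ≤ C * q x ∧ q x ≤ C * ‖x‖) ∧
      (∀ x : X, x ≠ 0 → DifferentiableAt ℝ (fun y : X => q y) x) ∧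
      ∀ x : X, ‖x‖ ≤ 1 → |p x - q x| ≤ ε₀ := by
  obtain ⟨ε, he0, he1, he2⟩ : ∃ ε : ℝ, 0 < ε ∧ ε ≤ 1 ∧ ε * (1 + 2 * C) * C ≤ ε₀ := by
    refine ⟨min 1 (ε₀ / (C * (1 + 2 * C))), by positivity, min_le_left _ _, ?_⟩
    calc min 1 (ε₀ / (C * (1 + 2 * C))) * (1 + 2 * C) * C
        = min 1 (ε₀ / (C * (1 + 2 * C))) * (C * (1 + 2 * C)) := by ring
      _ ≤ ε₀ / (C * (1 + 2 * C)) * (C * (1 + 2 * C)) :=
          mul_le_mul_of_nonneg_right (min_le_right _ _) (by positivity)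
      _ = ε₀ := by field_simp
  have H : Std p C ε {γ | IsLim γ ∧ Refl p γ} :=
    ⟨hC, fun f => (hp f).1, fun f => (hp f).2, he0, isClub_refl p, fun γ hγ => hγ.2⟩
  have hlt := lt_nxt H.club
  -- smooth approximations of the local pieces
  have hP : ∀ (i : {ζ : L // ζ ∈ JS {γ | IsLim γ ∧ Refl p γ}}) (κ : ℝ), ∃ s' : Seminorm ℝ X, 0 < κ →
      (∀ f, s' f ≤ H.pl (nxt H.club i.1) f) ∧ (∀ f, H.pl (nxt H.club i.1) f ≤ (1 + κ) * s' f) ∧
      ∀ f, s' f ≠ 0 → DifferentiableAt ℝ (fun g => s' g) f := by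
    intro i κ
    by_cases hκ : 0 < κ
    · obtain ⟨s', h⟩ := sep_cut (H.pl (nxt H.club i.1)) _ (H.pl_le_norm _) (nxt H.club i.1)
        (H.pl_cut _) κ hκ
      exact ⟨s', fun _ => h⟩
    · exact ⟨0, fun h => absurd h hκ⟩
  have hN : ∀ i : {ζ : L // ζ ∈ JS {γ | IsLim γ ∧ Refl p γ}}, ∃ s' : Seminorm ℝ X,
      (∀ f, s' f ≤ osc i.1 (nxt H.club i.1) f) ∧
      (∀ f, osc i.1 (nxt H.club i.1) f ≤ (1 + 1) * s' f) ∧
      ∀ f, s' f ≠ 0 → DifferentiableAt ℝ (fun g => s' g) f := fun i =>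
    sep_cut (osc i.1 (nxt H.club i.1)) 2 (osc_le _ _) (nxt H.club i.1)
      (osc_cut (hlt i.1).le) 1 one_pos
  choose P hP using hP
  choose N hN using hN
  have h1C : 0 ≤ 1 + ε * C := H.one_add_nonneg
  have hC' : 0 < (1 + ε * C) * C + C + 2 := by positivity
  obtain ⟨q, hq1, hq2⟩ := asm H.pp ((1 + ε * C) * C + C + 2) hC'
    (fun f => by
      have h1 := (hp f).1
      have h2 := H.le_pp f
      have h3 := apply_nonneg H.pp f
      have h4 : C * p f ≤ C * H.pp f := mul_le_mul_of_nonneg_left h2 hC.le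
      have h5 : 0 ≤ ((1 + ε * C) * C + 2) * H.pp f := by positivity
      nlinarith)
    (fun f => by
      have h1 := H.pp_le_norm f
      have h2 : 0 ≤ (C + 2) * ‖f‖ := by positivity
      nlinarith)
    P (fun i κ hκ f => ((hP i κ hκ).1 f).trans (H.pl_le_pp _ f))
    (fun i κ hκ => (hP i κ hκ).2.2)
    N
    (fun i f => by
      have h1 := ((hN i).1 f).trans (osc_le _ _ f)
      have h2 : 0 ≤ ((1 + ε * C) * C + C) * ‖f‖ := by positivity
      nlinarith)
    (fun i => (hN i).2.2)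
    (fun f η hη => by
      have h1 := finite_osc H.club f (η / 2) (by positivity)
      have h2 : (Subtype.val '' {i : {ζ : L // ζ ∈ JS {γ | IsLim γ ∧ Refl p γ}} | η ≤ N i f}).Finite := by
        refine h1.subset ?_
        rintro _ ⟨i, hi, rfl⟩
        have h3 : η / 2 < osc i.1 (nxt H.club i.1) f :=
          lt_of_lt_of_le (by linarith) (le_trans hi ((hN i).1 f))
        obtain ⟨t, h4, h5, h6⟩ := exists_of_lt_osc (by positivity) h3
        exact ⟨i.2, t, h4, h5, h6.le⟩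
      exact h2.of_finite_image Subtype.val_injective.injOn)
    (fun f hf => by
      obtain ⟨ζ, hζ, ⟨t, h1, h2, h3⟩, h4⟩ := H.star hf
      refine ⟨⟨ζ, hζ⟩, ?_, fun κ hκ => h4.trans ((hP ⟨ζ, hζ⟩ κ hκ).2.1 f)⟩
      have h5 := (hN ⟨ζ, hζ⟩).2.1 f
      have h6 : |ev f t - ev f ζ| ≤ osc ζ (nxt H.club ζ) f := le_osc h1 h2 f
      have h7 : 0 < |ev f t - ev f ζ| := abs_pos.2 (sub_ne_zero.2 h3)
      have h8 : 0 < (1 + 1) * N ⟨ζ, hζ⟩ f := lt_of_lt_of_le h7 (h6.trans h5)
      linarith)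
    ε he0
  -- comparison of `p` and `q`
  have hpq : ∀ f, p f ≤ q f ∧ q f ≤ p f + ε * (1 + 2 * C) * p f := by
    intro f
    refine ⟨(H.le_pp f).trans (hq1 f).1, (hq1 f).2.trans ?_⟩
    have h1 := H.pp_le f
    have h2 := apply_nonneg p f
    have h3 : (1 + ε) * H.pp f ≤ (1 + ε) * ((1 + ε * C) * p f) :=
      mul_le_mul_of_nonneg_left h1 (by linarith)
    refine h3.trans ?_
    have h4 : (1 + ε) * (1 + ε * C) ≤ 1 + ε * (1 + 2 * C) := by
      nlinarith [mul_nonneg (mul_nonneg he0.le hC.le) (sub_nonneg.2 he1)]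
    calc (1 + ε) * ((1 + ε * C) * p f) = ((1 + ε) * (1 + ε * C)) * p f := by ring
      _ ≤ (1 + ε * (1 + 2 * C)) * p f := mul_le_mul_of_nonneg_right h4 h2
      _ = _ := by ring
  refine ⟨q, ⟨C * (1 + ε * (1 + 2 * C)), by positivity, fun x => ⟨?_, ?_⟩⟩, hq2, fun x hx => ?_⟩
  · have h1 := (hp x).1
    have h2 := (hpq x).1
    have h3 := apply_nonneg q x
    have h4 : C * p x ≤ C * q x := mul_le_mul_of_nonneg_left h2 hC.le
    have h5 : 0 ≤ C * (ε * (1 + 2 * C)) * q x := by positivity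
    nlinarith
  · have h1 := (hp x).2
    have h2 := (hpq x).2
    calc q x ≤ (1 + ε * (1 + 2 * C)) * p x := by linarith
      _ ≤ (1 + ε * (1 + 2 * C)) * (C * ‖x‖) := mul_le_mul_of_nonneg_left h1 (by positivity)
      _ = _ := by ring
  · have h1 := (hpq x).1
    have h2 := (hpq x).2
    rw [abs_sub_comm, abs_of_nonneg (by linarith)]
    have h3 : p x ≤ C := ((hp x).2).trans (by nlinarith)
    have h4 : ε * (1 + 2 * C) * p x ≤ ε * (1 + 2 * C) * C :=
      mul_le_mul_of_nonneg_left h3 (by positivity)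
    linarith

end Pool.H94S
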