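import Pool.Agent.H94S.Cut

/-! `C_0(ω₁)` has no equivalent norm with locally uniformly rotund dual norm (helper90). -/

open Cardinal Set Filter Topology
open scoped ENNReal

namespace Pool.H94S

/-- Evaluation as a continuous functional. -/
noncomputable def evL (a : L) : X →L[ℝ] ℝ :=
  LinearMap.mkContinuous
    { toFun := fun f => ev f a
      map_add' := fun f g => ev_add f g a
      map_smul' := fun c f => ev_smul c f a } 1 (fun f => by
        rw [one_mul]; exact abs_ev_le f a)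

theorem evL_apply (a : L) (f : X) : evL a f = ev f a := rfl

theorem norm_evL_le (a : L) : ‖evL a‖ ≤ 1 :=
  LinearMap.mkContinuous_norm_le _ zero_le_one _

theorem norm_ind_le (a : L) : ‖ind a‖ ≤ 1 := by
  rw [norm_le_iff zero_le_one]
  intro t
  rcases le_or_gt t a with h | h
  · rw [ev_ind_of_le h]; simp
  · rw [ev_ind_of_lt h]; simp

/-- A strictly increasing sequence has a least strict upper bound, and it converges to it. -/
theorem exists_limit (α : ℕ → L) (hα : ∀ n, α n < α (n + 1)) :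
    ∃ lam : L, (∀ n, α n < lam) ∧ ∀ f : X, Tendsto (fun n => ev f (α n)) atTop (𝓝 (ev f lam)) := by
  have hmono : StrictMono α := strictMono_nat_of_lt_succ hα
  obtain ⟨b, hb⟩ := exists_gt_of_countable (range α) (countable_range α)
  have hne : {c : L | ∀ n, α n < c}.Nonempty := ⟨b, fun n => hb _ (mem_range_self n)⟩
  obtain ⟨lam, hlam, hmin⟩ := WellFounded.has_min (wellFounded_lt (α := L)) _ hne
  refine ⟨lam, hlam, fun f => ?_⟩
  rw [Metric.tendsto_atTop]
  intro ε hε
  obtain ⟨c, hc, h⟩ := ev_cont f lam ⟨α 0, hlam 0⟩ (ε / 2) (by positivity)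
  have hc' : ∃ n, c ≤ α n := by
    by_contra hcon
    push Not at hcon
    exact hmin c hcon hc
  obtain ⟨n0, hn0⟩ := hc'
  refine ⟨n0 + 1, fun n hn => ?_⟩
  have h1 : c < α n := hn0.trans_lt (hmono (by omega))
  have := h (α n) h1 (hlam n).le
  rw [Real.dist_eq]
  linarith

theorem no_dual_lur : ¬ ∃ p : Seminorm ℝ X,
    (∃ C : ℝ, 0 < C ∧ ∀ x : X, ‖x‖ ≤ C * p x ∧ p x ≤ C * ‖x‖) ∧
      ∃ N : (X →L[ℝ] ℝ) → ℝ,
        (∀ f : X →L[ℝ] ℝ, N f = ⨆ x : {x : X // p x ≤ 1}, f x.1) ∧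
        ∀ (f : X →L[ℝ] ℝ) (g : ℕ → (X →L[ℝ] ℝ)),
          Tendsto (fun n : ℕ => 2 * N f ^ 2 + 2 * N (g n) ^ 2 - N (f + g n) ^ 2) atTop (𝓝 0) →
          Tendsto (fun n : ℕ => ‖g n - f‖) atTop (𝓝 0) := by
  rintro ⟨p, ⟨C, hC, hp⟩, N, hN, hlur⟩
  have hbd : ∀ f : X →L[ℝ] ℝ, ∀ x : {x : X // p x ≤ 1}, f x.1 ≤ ‖f‖ * C := by
    intro f x
    refine (le_abs_self _).trans ((f.le_opNorm x.1).trans ?_)
    refine mul_le_mul_of_nonneg_left ?_ (norm_nonneg f)
    refine (hp x.1).1.trans ?_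
    have := mul_le_mul_of_nonneg_left x.2 hC.le
    linarith
  have hbdd : ∀ f : X →L[ℝ] ℝ, BddAbove (range fun x : {x : X // p x ≤ 1} => f x.1) := by
    intro f
    refine ⟨‖f‖ * C, ?_⟩
    rintro _ ⟨x, rfl⟩
    exact hbd f x
  have : Nonempty {x : X // p x ≤ 1} := ⟨⟨0, by rw [map_zero]; exact zero_le_one⟩⟩
  have hle : ∀ f : X →L[ℝ] ℝ, ∀ x : X, p x ≤ 1 → f x ≤ N f := by
    intro f x hx
    rw [hN f]
    exact le_ciSup (hbdd f) ⟨x, hx⟩
  have hsup : ∀ f : X →L[ℝ] ℝ, ∀ t, (∀ x : X, p x ≤ 1 → f x ≤ t) → N f ≤ t := by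
    intro f t h
    rw [hN f]
    exact ciSup_le fun x => h x.1 x.2
  have hlt : ∀ f : X →L[ℝ] ℝ, ∀ t, t < N f → ∃ x : X, p x ≤ 1 ∧ t < f x := by
    intro f t h
    by_contra hcon
    push Not at hcon
    exact absurd (hsup f t hcon) (not_le.2 h)
  have hadd : ∀ f g : X →L[ℝ] ℝ, N (f + g) ≤ N f + N g := by
    intro f g
    refine hsup _ _ fun x hx => ?_
    show f x + g x ≤ _
    exact add_le_add (hle f x hx) (hle g x hx)
  have hN0 : ∀ f : X →L[ℝ] ℝ, 0 ≤ N f := by
    intro f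
    have := hle f 0 (by rw [map_zero]; exact zero_le_one)
    simpa using this
  set φ : L → ℝ := fun a => N (evL a) with hφ
  have hφC : ∀ a, φ a ≤ C := by
    intro a
    refine hsup _ _ fun x hx => (hbd (evL a) ⟨x, hx⟩).trans ?_
    have := mul_le_mul_of_nonneg_right (norm_evL_le a) hC.le
    linarith
  set S : Set ℝ := {t | ¬ {a | φ a ≤ t}.Countable} with hS
  have hSne : S.Nonempty := by
    refine ⟨C, ?_⟩
    have : {a | φ a ≤ C} = Set.univ := eq_univ_of_forall hφC
    show ¬ {a | φ a ≤ C}.Countable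
    rw [this]
    exact not_countable_univ
  have hSb : BddBelow S := by
    refine ⟨0, fun t ht => ?_⟩
    by_contra hcon
    push Not at hcon
    apply ht
    have : {a | φ a ≤ t} = ∅ := by
      ext a
      simp only [mem_ofPred_eq, mem_empty_iff_false, iff_false, not_le]
      exact hcon.trans_le (hN0 _)
    rw [this]
    exact countable_empty
  set t0 : ℝ := sInf S with ht0
  have hunc : ∀ n : ℕ, ∀ b : L, ∃ a, φ a ≤ t0 + 1 / ((n : ℝ) + 1) ∧ b < a := by
    intro n b
    by_contra hcon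
    push Not at hcon
    obtain ⟨t, htS, ht⟩ := exists_lt_of_csInf_lt hSne
      (show sInf S < t0 + 1 / ((n : ℝ) + 1) by
        have : 0 < 1 / ((n : ℝ) + 1) := by positivity
        linarith)
    apply htS
    refine (countable_Iic b).mono fun a ha => ?_
    exact hcon a (le_trans ha ht.le)
  have hlow : {a | φ a < t0}.Countable := by
    have : {a | φ a < t0} ⊆ ⋃ n : ℕ, {a | φ a ≤ t0 - 1 / ((n : ℝ) + 1)} := by
      intro a ha
      have h1 : 0 < t0 - φ a := sub_pos.2 ha
      obtain ⟨n, hn⟩ := exists_nat_one_div_lt h1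
      exact mem_iUnion.2 ⟨n, by simp only [mem_ofPred_eq]; linarith⟩
    refine (countable_iUnion fun n => ?_).mono this
    by_contra hcon
    have h1 : t0 ≤ t0 - 1 / ((n : ℝ) + 1) := csInf_le hSb hcon
    have : 0 < 1 / ((n : ℝ) + 1) := by positivity
    linarith
  obtain ⟨b0, hb0⟩ := exists_gt_of_countable _ hlow
  have hge : ∀ a, b0 ≤ a → t0 ≤ φ a := by
    intro a ha
    by_contra hcon
    push Not at hcon
    exact lt_irrefl _ ((hb0 a hcon).trans_le ha)
  choose g hg1 hg2 using hunc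
  let α : ℕ → L := fun n => Nat.rec (g 0 b0) (fun n a => g (n + 1) a) n
  have hαs : ∀ n, α (n + 1) = g (n + 1) (α n) := fun n => rfl
  have hα : ∀ n, α n < α (n + 1) := fun n => by rw [hαs]; exact hg2 _ _
  have hαφ : ∀ n, φ (α n) ≤ t0 + 1 / ((n : ℝ) + 1) := by
    intro n
    cases n with
    | zero => exact hg1 0 b0
    | succ n => rw [hαs]; exact hg1 (n + 1) (α n)
  have hmono : StrictMono α := strictMono_nat_of_lt_succ hα
  have hαb : ∀ n, b0 < α n := fun n => (hg2 0 b0).trans_le (hmono.monotone (Nat.zero_le n))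
  obtain ⟨lam, hlam, hlim⟩ := exists_limit α hα
  have hlb : b0 ≤ lam := ((hαb 0).trans (hlam 0)).le
  have hone : Tendsto (fun n : ℕ => t0 + 1 / ((n : ℝ) + 1)) atTop (𝓝 t0) := by
    simpa using (tendsto_one_div_add_atTop_nhds_zero_nat (𝕜 := ℝ)).const_add t0
  have hφα : Tendsto (fun n => φ (α n)) atTop (𝓝 t0) :=
    tendsto_of_tendsto_of_tendsto_of_le_of_le tendsto_const_nhds hone
      (fun n => hge _ (hαb n).le) hαφ
  have hφlam : φ lam = t0 := by
    apply le_antisymm _ (hge lam hlb)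
    refine hsup _ _ fun x hx => ?_
    exact le_of_tendsto_of_tendsto' (hlim x) hφα (fun n => hle (evL (α n)) x hx)
  have hsum : Tendsto (fun n => N (evL lam + evL (α n))) atTop (𝓝 (2 * t0)) := by
    rw [Metric.tendsto_atTop]
    intro ε hε
    have h1 : t0 - ε / 4 < N (evL lam) := by
      have : N (evL lam) = t0 := hφlam
      rw [this]; linarith
    obtain ⟨x, hx, hxt⟩ := hlt _ _ h1
    have h2 := (Metric.tendsto_atTop.1 (hlim x)) (ε / 4) (by positivity)
    have h3 := (Metric.tendsto_atTop.1 hφα) ε hε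
    obtain ⟨n1, hn1⟩ := h2
    obtain ⟨n2, hn2⟩ := h3
    refine ⟨max n1 n2, fun n hn => ?_⟩
    have h4 := hn1 n ((le_max_left _ _).trans hn)
    have h5 := hn2 n ((le_max_right _ _).trans hn)
    rw [Real.dist_eq, abs_lt] at h4 h5 ⊢
    have h6 : (evL lam + evL (α n)) x ≤ N (evL lam + evL (α n)) := hle _ x hx
    have h7 : (evL lam + evL (α n)) x = ev x lam + ev x (α n) := rfl
    have h8 : evL lam x = ev x lam := rfl
    have h9 := hadd (evL lam) (evL (α n))
    have h10 : N (evL lam) = t0 := hφlam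
    have h11 : N (evL (α n)) = φ (α n) := rfl
    rw [h7] at h6
    rw [h8] at hxt
    rw [h10, h11] at h9
    constructor
    · linarith [h4.1]
    · linarith [h5.2]
  have hkey : Tendsto (fun n : ℕ => 2 * N (evL lam) ^ 2 + 2 * N (evL (α n)) ^ 2
      - N (evL lam + evL (α n)) ^ 2) atTop (𝓝 0) := by
    have h1 : N (evL lam) = t0 := hφlam
    rw [h1]
    have h2 := ((tendsto_const_nhds (x := 2 * t0 ^ 2) (f := (atTop : Filter ℕ))).add
      ((hφα.pow 2).const_mul 2)).sub (hsum.pow 2)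
    have h3 : 2 * t0 ^ 2 + 2 * t0 ^ 2 - (2 * t0) ^ 2 = 0 := by ring
    rw [h3] at h2
    exact h2
  have hfin := hlur (evL lam) (fun n => evL (α n)) hkey
  have h1 : ∀ n, 1 ≤ ‖evL (α n) - evL lam‖ := by
    intro n
    have h2 := (evL (α n) - evL lam).le_opNorm (ind (α n))
    have h3 : (evL (α n) - evL lam) (ind (α n)) = 1 := by
      show ev (ind (α n)) (α n) - ev (ind (α n)) lam = 1
      rw [ev_ind_of_le le_rfl, ev_ind_of_lt (hlam n), sub_zero]
    rw [h3, norm_one] at h2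
    have h4 := mul_le_mul_of_nonneg_left (norm_ind_le (α n))
      (norm_nonneg (evL (α n) - evL lam))
    linarith
  have h2 := ge_of_tendsto' hfin h1
  linarith

end Pool.H94S
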