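import Pool.Agent.H94S.Cut

/-! The dual of `C_0(ω₁)` is `ℓ_1(ω₁)`. -/

open Cardinal Set Filter Topology
open scoped ENNReal

namespace Pool.H94S

/-- Test function attached to a point: an indicator of a left neighbourhood of `t`. -/
theorem exists_mass (μ : X →L[ℝ] ℝ) (t : L) : ∃ m : ℝ,
    ((¬ ∃ b, b < t) → m = μ (ind t)) ∧
    ∀ b, b < t → ∀ η : ℝ, 0 < η → ∃ s, b ≤ s ∧ s < t ∧ |μ (ind t - ind s) - m| ≤ η := by
  classical
  by_cases ht : ∃ b, b < t
  · obtain ⟨b0, hb0⟩ := ht
    have : Nonempty {s : L // s < t} := ⟨⟨b0, hb0⟩⟩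
    have hK : IsCompact (Metric.closedBall (0 : ℝ) ‖μ‖) := isCompact_closedBall _ _
    have hle : map (fun s : {s : L // s < t} => μ (ind t - ind s.1)) atTop ≤
        𝓟 (Metric.closedBall (0 : ℝ) ‖μ‖) := by
      rw [le_principal_iff, mem_map]
      apply univ_mem'
      intro s
      show μ (ind t - ind s.1) ∈ Metric.closedBall (0 : ℝ) ‖μ‖
      rw [mem_closedBall_zero_iff]
      refine (μ.le_opNorm _).trans ?_
      have h1 : ‖ind t - ind s.1‖ ≤ 1 := by
        rw [norm_le_iff zero_le_one]
        intro r
        rw [ev_sub]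
        rcases le_or_gt r s.1 with h | h
        · rw [ev_ind_of_le h, ev_ind_of_le (h.trans s.2.le)]; simp
        · rw [ev_ind_of_lt h]
          rcases le_or_gt r t with h' | h'
          · rw [ev_ind_of_le h']; simp
          · rw [ev_ind_of_lt h']; simp
      calc ‖μ‖ * ‖ind t - ind s.1‖ ≤ ‖μ‖ * 1 := by gcongr
        _ = ‖μ‖ := mul_one _
    obtain ⟨m, -, hm⟩ := hK hle
    refine ⟨m, fun h => absurd ⟨b0, hb0⟩ h, fun b hb η hη => ?_⟩
    have h2 := (mapClusterPt_iff_frequently.1 hm) (Metric.closedBall m η)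
      (Metric.closedBall_mem_nhds m hη)
    obtain ⟨s, hs1, hs2⟩ := (h2.and_eventually (eventually_ge_atTop (⟨b, hb⟩ : {s : L // s < t}))).exists
    refine ⟨s.1, hs2, s.2, ?_⟩
    have h3 : dist (μ (ind t - ind s.1)) m ≤ η := hs1
    rwa [Real.dist_eq] at h3
  · exact ⟨μ (ind t), fun _ => rfl, fun b hb => absurd ⟨b, hb⟩ ht⟩

/-- Functions with disjoint supports. -/
theorem norm_sum_disj (F : Finset L) (g : L → X) (c : L → ℝ) (hc : ∀ t ∈ F, |c t| ≤ 1)
    (hg1 : ∀ t ∈ F, ∀ s, |ev (g t) s| ≤ 1)
    (hg : ∀ t ∈ F, ∀ s, ev (g t) s ≠ 0 → s ≤ t ∧ ∀ t' ∈ F, t' < t → t' < s) :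
    ‖∑ t ∈ F, c t • g t‖ ≤ 1 := by
  classical
  rw [norm_le_iff zero_le_one]
  intro s
  rw [ev_sum]
  by_cases h : ∃ t ∈ F, ev (g t) s ≠ 0
  · obtain ⟨t, ht, h0⟩ := h
    obtain ⟨h1, h2⟩ := hg t ht s h0
    rw [Finset.sum_eq_single t]
    · rw [ev_smul, abs_mul]
      exact mul_le_one₀ (hc t ht) (abs_nonneg _) (hg1 t ht s)
    · intro t' ht' hne
      rw [ev_smul]
      by_contra hne0
      have h3 : ev (g t') s ≠ 0 := fun h => hne0 (by rw [h, mul_zero])
      obtain ⟨h4, h5⟩ := hg t' ht' s h3
      rcases lt_or_gt_of_ne hne with h6 | h6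
      · exact absurd (h2 t' ht' h6) (not_lt.2 h4)
      · exact absurd (h5 t ht h6) (not_lt.2 h1)
    · intro h5; exact absurd ht h5
  · rw [Finset.sum_eq_zero]
    · simp
    · intro t ht
      rw [ev_smul]
      by_cases h0 : ev (g t) s = 0
      · rw [h0, mul_zero]
      · exact absurd ⟨t, ht, h0⟩ h

/-- The functional given by a summable family. -/
noncomputable def pairing (m : L → ℝ) (hm : Summable fun t => |m t|) : X →L[ℝ] ℝ :=
  have hs : ∀ f : X, Summable fun t => m t * ev f t := fun f => by
    refine Summable.of_norm_bounded (g := fun t => |m t| * ‖f‖) (hm.mul_right _) (fun t => ?_)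
    rw [Real.norm_eq_abs, abs_mul]
    exact mul_le_mul_of_nonneg_left (abs_ev_le f t) (abs_nonneg _)
  LinearMap.mkContinuous
    { toFun := fun f => ∑' t, m t * ev f t
      map_add' := by
        intro f g
        rw [← (hs f).tsum_add (hs g)]
        congr 1
        ext t
        rw [ev_add]
        ring
      map_smul' := by
        intro c f
        rw [RingHom.id_apply, smul_eq_mul, ← tsum_mul_left]
        congr 1
        ext t
        rw [ev_smul]
        ring } (∑' t, |m t|) (by
    intro f
    show ‖∑' t, m t * ev f t‖ ≤ (∑' t, |m t|) * ‖f‖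
    have h1 : Summable fun t => ‖m t * ev f t‖ := (hs f).norm
    refine (norm_tsum_le_tsum_norm h1).trans ?_
    rw [← tsum_mul_right]
    refine h1.tsum_le_tsum (fun t => ?_) (hm.mul_right _)
    rw [Real.norm_eq_abs, abs_mul]
    exact mul_le_mul_of_nonneg_left (abs_ev_le f t) (abs_nonneg _))

theorem pairing_apply (m : L → ℝ) (hm : Summable fun t => |m t|) (f : X) :
    pairing m hm f = ∑' t, m t * ev f t := rfl

theorem summable_mul_ev {m : L → ℝ} (hm : Summable fun t => |m t|) (f : X) :
    Summable fun t => m t * ev f t := by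
  refine Summable.of_norm_bounded (g := fun t => |m t| * ‖f‖) (hm.mul_right _) (fun t => ?_)
  rw [Real.norm_eq_abs, abs_mul]
  exact mul_le_mul_of_nonneg_left (abs_ev_le f t) (abs_nonneg _)

theorem sum_abs_mass_le (μ : X →L[ℝ] ℝ) (m : L → ℝ)
    (hm0 : ∀ t, (¬ ∃ b, b < t) → m t = μ (ind t))
    (hm1 : ∀ t b, b < t → ∀ η : ℝ, 0 < η → ∃ s, b ≤ s ∧ s < t ∧ |μ (ind t - ind s) - m t| ≤ η)
    (F : Finset L) : ∑ t ∈ F, |m t| ≤ ‖μ‖ := by
  classical
  -- a test function for every point of `F`
  have key : ∀ η : ℝ, 0 < η → ∀ t ∈ F, ∃ g : X, |μ g - m t| ≤ η ∧ (∀ s, |ev g s| ≤ 1) ∧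
      ∀ s, ev g s ≠ 0 → s ≤ t ∧ ∀ t' ∈ F, t' < t → t' < s := by
    intro η hη t _
    by_cases ht : ∃ b, b < t
    · -- the largest element of `F` below `t`
      have hb : ∃ b, b < t ∧ ∀ t' ∈ F, t' < t → t' ≤ b := by
        by_cases hne : (F.filter (· < t)).Nonempty
        · refine ⟨(F.filter (· < t)).max' hne, ?_, ?_⟩
          · have := (F.filter (· < t)).max'_mem hne
            exact (Finset.mem_filter.1 this).2
          · intro t' ht' h
            exact Finset.le_max' _ _ (Finset.mem_filter.2 ⟨ht', h⟩)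
        · obtain ⟨b, hb⟩ := ht
          refine ⟨b, hb, fun t' ht' h => ?_⟩
          exact absurd ⟨t', Finset.mem_filter.2 ⟨ht', h⟩⟩ hne
      obtain ⟨b, hb, hb'⟩ := hb
      obtain ⟨s, hs1, hs2, hs3⟩ := hm1 t b hb η hη
      refine ⟨ind t - ind s, hs3, fun r => ?_, fun r hr => ?_⟩
      · rw [ev_sub]
        rcases le_or_gt r s with h | h
        · rw [ev_ind_of_le h, ev_ind_of_le (h.trans hs2.le)]; simp
        · rw [ev_ind_of_lt h]
          rcases le_or_gt r t with h' | h'
          · rw [ev_ind_of_le h']; simp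
          · rw [ev_ind_of_lt h']; simp
      · rw [ev_sub] at hr
        rcases le_or_gt r s with h | h
        · rw [ev_ind_of_le h, ev_ind_of_le (h.trans hs2.le)] at hr
          simp at hr
        · rcases le_or_gt r t with h' | h'
          · refine ⟨h', fun t' ht' h'' => ((hb' t' ht' h'').trans hs1).trans_lt h⟩
          · rw [ev_ind_of_lt h, ev_ind_of_lt h'] at hr
            simp at hr
    · refine ⟨ind t, ?_, fun r => ?_, fun r hr => ?_⟩
      · rw [hm0 t ht, sub_self, abs_zero]
        exact hη.le
      · rcases le_or_gt r t with h' | h'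
        · rw [ev_ind_of_le h']; simp
        · rw [ev_ind_of_lt h']; simp
      · rcases le_or_gt r t with h' | h'
        · exact ⟨h', fun t' _ h'' => absurd ⟨t', h''⟩ ht⟩
        · rw [ev_ind_of_lt h'] at hr
          exact absurd rfl hr
  have main : ∀ η : ℝ, 0 < η → ∑ t ∈ F, |m t| ≤ ‖μ‖ + F.card * η := by
    intro η hη
    have h1 : ∀ t : L, ∃ g : X, t ∈ F → (|μ g - m t| ≤ η ∧ (∀ s, |ev g s| ≤ 1) ∧
      ∀ s, ev g s ≠ 0 → s ≤ t ∧ ∀ t' ∈ F, t' < t → t' < s) := by
      intro t
      by_cases ht : t ∈ F
      · obtain ⟨g, hg⟩ := key η hη t ht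
        exact ⟨g, fun _ => hg⟩
      · exact ⟨0, fun h => absurd h ht⟩
    choose g hg using h1
    set c : L → ℝ := fun t => SignType.sign (m t) with hc
    have hc1 : ∀ t, |c t| ≤ 1 := by
      intro t
      rw [hc]
      show |((SignType.sign (m t) : SignType) : ℝ)| ≤ 1
      rcases lt_trichotomy (m t) 0 with h | h | h
      · rw [sign_neg h]; simp
      · rw [h]; simp
      · rw [sign_pos h]; simp
    have hcm : ∀ t, c t * m t = |m t| := fun t => sign_mul_self (m t)
    have h2 : ‖∑ t ∈ F, c t • g t‖ ≤ 1 :=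
      norm_sum_disj F g c (fun t _ => hc1 t) (fun t ht => (hg t ht).2.1) (fun t ht => (hg t ht).2.2)
    have h3 : μ (∑ t ∈ F, c t • g t) ≤ ‖μ‖ := by
      refine (le_abs_self _).trans ((μ.le_opNorm _).trans ?_)
      calc ‖μ‖ * ‖∑ t ∈ F, c t • g t‖ ≤ ‖μ‖ * 1 := by gcongr
        _ = ‖μ‖ := mul_one _
    rw [map_sum] at h3
    have h4 : ∑ t ∈ F, |m t| ≤ ∑ t ∈ F, (μ (c t • g t) + η) := by
      apply Finset.sum_le_sum
      intro t ht
      rw [← hcm t, map_smul, smul_eq_mul]
      have h5 := (hg t ht).1
      have h6 : c t * m t - c t * μ (g t) ≤ η := by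
        have : c t * m t - c t * μ (g t) = - (c t * (μ (g t) - m t)) := by ring
        rw [this]
        refine (neg_le_abs _).trans ?_
        rw [abs_mul]
        calc |c t| * |μ (g t) - m t| ≤ 1 * η := by
              gcongr
              exact hc1 t
          _ = η := one_mul _
      linarith
    rw [Finset.sum_add_distrib, Finset.sum_const, nsmul_eq_mul] at h4
    linarith
  by_contra hcon
  push Not at hcon
  have h5 := main ((∑ t ∈ F, |m t| - ‖μ‖) / (2 * (F.card + 1))) (by
    apply div_pos (by linarith)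
    positivity)
  have h6 : (F.card : ℝ) * ((∑ t ∈ F, |m t| - ‖μ‖) / (2 * (F.card + 1))) ≤
      (∑ t ∈ F, |m t| - ‖μ‖) / 2 := by
    rw [mul_div_assoc', div_le_div_iff₀ (by positivity) (by norm_num)]
    have h7 : (0 : ℝ) ≤ F.card := by positivity
    nlinarith
  linarith

theorem hasSum_ite_mem' (F : Finset L) (m : L → ℝ) [DecidablePred (· ∈ F)] :
    HasSum (fun t => if t ∈ F then |m t| else 0) (∑ t ∈ F, |m t|) := by
  have h1 : HasSum (fun t => if t ∈ F then |m t| else 0)
      (∑ t ∈ F, (if t ∈ F then |m t| else 0)) :=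
    hasSum_sum_of_ne_finset_zero (fun t ht => if_neg ht)
  have h2 : ∑ t ∈ F, (if t ∈ F then |m t| else 0) = ∑ t ∈ F, |m t| :=
    Finset.sum_congr rfl fun t ht => if_pos ht
  rwa [h2] at h1

theorem pairing_ind (μ : X →L[ℝ] ℝ) (m : L → ℝ)
    (hm0 : ∀ t, (¬ ∃ b, b < t) → m t = μ (ind t))
    (hm1 : ∀ t b, b < t → ∀ η : ℝ, 0 < η → ∃ s, b ≤ s ∧ s < t ∧ |μ (ind t - ind s) - m t| ≤ η)
    (hm : Summable fun t => |m t|) (b : L) : pairing m hm (ind b) = μ (ind b) := by
  classical
  induction b using WellFoundedLT.induction with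
  | ind b IH =>
    by_cases hb : ∃ s, s < b
    · obtain ⟨s0, hs0⟩ := hb
      -- small tail
      have hsmall : ∀ η : ℝ, 0 < η → |pairing m hm (ind b) - μ (ind b)| ≤ 2 * η := by
        intro η hη
        obtain ⟨F, hF⟩ := (Metric.tendsto_atTop.1 (hm.hasSum) η hη)
        have hF1 := hF F le_rfl
        rw [Real.dist_eq, abs_sub_comm] at hF1
        have hF2 := (le_abs_self _).trans_lt hF1
        have hb1 : ∃ b', b' < b ∧ ∀ t' ∈ F, t' < b → t' ≤ b' := by
          by_cases hne : (F.filter (· < b)).Nonempty
          · refine ⟨(F.filter (· < b)).max' hne, ?_, ?_⟩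
            · have := (F.filter (· < b)).max'_mem hne
              exact (Finset.mem_filter.1 this).2
            · intro t' ht' h
              exact Finset.le_max' _ _ (Finset.mem_filter.2 ⟨ht', h⟩)
          · refine ⟨s0, hs0, fun t' ht' h => ?_⟩
            exact absurd ⟨t', Finset.mem_filter.2 ⟨ht', h⟩⟩ hne
        obtain ⟨b', hb', hb''⟩ := hb1
        obtain ⟨s, hs1, hs2, hs3⟩ := hm1 b b' hb' η hη
        have h1 : |pairing m hm (ind b - ind s) - m b| ≤ η := by
          rw [pairing_apply]
          have e1 : ∀ t, m t * ev (ind b - ind s) t =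
              (if t = b then m b else 0) + (if s < t ∧ t < b then m t else 0) := by
            intro t
            rw [ev_sub]
            rcases lt_trichotomy t b with h | h | h
            · rw [ev_ind_of_le h.le, if_neg h.ne, zero_add]
              rcases le_or_gt t s with h' | h'
              · rw [ev_ind_of_le h', if_neg (fun h'' => absurd h''.1 (not_lt.2 h'))]
                ring
              · rw [ev_ind_of_lt h', if_pos ⟨h', h⟩]
                ring
            · subst h
              rw [ev_ind_of_le le_rfl, ev_ind_of_lt hs2, if_pos rfl,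
                if_neg (fun h'' => absurd h''.2 (lt_irrefl _))]
              ring
            · rw [ev_ind_of_lt h, ev_ind_of_lt (hs2.trans h), if_neg h.ne',
                if_neg (fun h'' => absurd h''.2 (not_lt.2 h.le))]
              ring
          have hsum2 : Summable fun t => (if s < t ∧ t < b then |m t| else 0) := by
            refine Summable.of_nonneg_of_le (fun t => ?_) (fun t => ?_) hm
            · split_ifs
              · exact abs_nonneg _
              · exact le_rfl
            · split_ifs
              · exact le_rfl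
              · exact abs_nonneg _
          have hsum3 : Summable fun t => (if s < t ∧ t < b then m t else 0) := by
            refine Summable.of_norm_bounded hsum2 (fun t => ?_)
            split_ifs <;> simp
          have hsum1 : HasSum (fun t => if t = b then m b else 0) (m b) := hasSum_ite_eq b (m b)
          have e2 : ∑' t, m t * ev (ind b - ind s) t =
              m b + ∑' t, (if s < t ∧ t < b then m t else 0) := by
            rw [tsum_congr e1, hsum1.summable.tsum_add hsum3, hsum1.tsum_eq]
          rw [e2, add_sub_cancel_left]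
          have e3 : |∑' t, (if s < t ∧ t < b then m t else 0)| ≤
              ∑' t, (if s < t ∧ t < b then |m t| else 0) := by
            have hn : Summable fun t => ‖(if s < t ∧ t < b then m t else 0)‖ := hsum3.norm
            refine (norm_tsum_le_tsum_norm hn).trans (le_of_eq ?_)
            apply tsum_congr
            intro t
            split_ifs <;> simp
          refine e3.trans ?_
          -- the sum over the complement of `F`
          have e4 : ∀ t, (if s < t ∧ t < b then |m t| else 0) ≤
              |m t| - (if t ∈ F then |m t| else 0) := by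
            intro t
            by_cases h : s < t ∧ t < b
            · rw [if_pos h, if_neg, sub_zero]
              intro h'
              exact absurd (h.1) (not_lt.2 ((hb'' t h' h.2).trans hs1))
            · rw [if_neg h]
              split_ifs
              · simp
              · simp
          have hF3 : HasSum (fun t => if t ∈ F then |m t| else 0) (∑ t ∈ F, |m t|) :=
            hasSum_ite_mem' F m
          have e5 := hsum2.tsum_le_tsum e4 (hm.sub hF3.summable)
          rw [hm.tsum_sub hF3.summable, hF3.tsum_eq] at e5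
          linarith
        have h2 := IH s hs2
        have h3 : pairing m hm (ind b) - μ (ind b) =
            (pairing m hm (ind b - ind s) - m b) - (μ (ind b - ind s) - m b) := by
          rw [map_sub, map_sub, h2]
          ring
        rw [h3]
        refine (abs_sub _ _).trans ?_
        linarith
      have h4 : |pairing m hm (ind b) - μ (ind b)| ≤ 0 := by
        apply le_of_forall_pos_le_add
        intro η hη
        have := hsmall (η / 2) (by positivity)
        linarith
      have h5 := abs_eq_zero.1 (le_antisymm h4 (abs_nonneg _))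
      linarith
    · rw [pairing_apply, tsum_eq_single b, ev_ind_of_le le_rfl, mul_one, hm0 b hb]
      intro t ht
      rcases lt_or_gt_of_ne ht with h | h
      · exact absurd ⟨t, h⟩ hb
      · rw [ev_ind_of_lt h, mul_zero]

/-- Module RIESZ. -/
theorem riesz (μ : X →L[ℝ] ℝ) : ∃ m : L → ℝ, (Summable fun t => |m t|) ∧
    ∀ f : X, μ f = ∑' t, m t * ev f t := by
  choose m hm0 hm1 using exists_mass μ
  have hm : Summable fun t => |m t| :=
    summable_of_sum_le (fun t => abs_nonneg _) (sum_abs_mass_le μ m hm0 hm1)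
  refine ⟨m, hm, fun f => ?_⟩
  have h1 : ∀ x ∈ Submodule.span ℝ (range ind), μ x = pairing m hm x := by
    intro x hx
    induction hx using Submodule.span_induction with
    | mem x hx =>
      obtain ⟨b, rfl⟩ := hx
      exact (pairing_ind μ m hm0 hm1 hm b).symm
    | zero => simp
    | add x y _ _ hx hy => rw [map_add, map_add, hx, hy]
    | smul c x _ hx => rw [map_smul, map_smul, hx]
  have hcl : IsClosed {x : X | μ x = pairing m hm x} :=
    isClosed_eq μ.continuous (pairing m hm).continuous
  obtain ⟨a, ha⟩ := exists_cut_eq f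
  have h2 := cut_mem_closure f a
  rw [ha] at h2
  have h3 : closure (Submodule.span ℝ (ind '' Iic a) : Set X) ⊆ {x : X | μ x = pairing m hm x} := by
    apply closure_minimal _ hcl
    intro x hx
    exact h1 x (Submodule.span_mono (image_subset_range _ _) hx)
  exact h3 h2

/-- Module RIESZ, second part. -/
theorem sum_abs_le (m : L → ℝ) (hm : Summable fun t => |m t|) (M : ℝ)
    (h : ∀ f : X, ‖f‖ ≤ 1 → ∑' t, m t * ev f t ≤ M) : ∑' t, |m t| ≤ M := by
  classical
  have key : ∀ F : Finset L, 2 * ∑ t ∈ F, |m t| - ∑' t, |m t| ≤ M := by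
    intro F
    set c : L → ℝ := fun t => SignType.sign (m t) with hc
    have hc1 : ∀ t, |c t| ≤ 1 := by
      intro t
      rw [hc]
      show |((SignType.sign (m t) : SignType) : ℝ)| ≤ 1
      rcases lt_trichotomy (m t) 0 with h | h | h
      · rw [sign_neg h]; simp
      · rw [h]; simp
      · rw [sign_pos h]; simp
    have hcm : ∀ t, m t * c t = |m t| := fun t => by
      rw [mul_comm]; exact sign_mul_self (m t)
    set f : X := ∑ t ∈ F, c t • itp F t with hf
    have hfn : ‖f‖ ≤ 1 := norm_sum_itp_le F c 1 zero_le_one (fun t _ => hc1 t)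
    have h1 := h f hfn
    have hF3 : HasSum (fun t => if t ∈ F then |m t| else 0) (∑ t ∈ F, |m t|) :=
      hasSum_ite_mem' F m
    have e1 : ∀ t, 2 * (if t ∈ F then |m t| else 0) - |m t| ≤ m t * ev f t := by
      intro t
      by_cases ht : t ∈ F
      · rw [if_pos ht, ev_sum_itp F c ht, hcm t]
        linarith
      · rw [if_neg ht, mul_zero, zero_sub]
        have h2 : |m t * ev f t| ≤ |m t| := by
          rw [abs_mul]
          calc |m t| * |ev f t| ≤ |m t| * 1 := by
                gcongr
                exact (abs_ev_le f t).trans hfn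
            _ = |m t| := mul_one _
        exact neg_le_of_abs_le h2
    have e2 := ((hF3.summable.mul_left 2).sub hm).tsum_le_tsum e1 (summable_mul_ev hm f)
    rw [(hF3.summable.mul_left 2).tsum_sub hm, tsum_mul_left, hF3.tsum_eq] at e2
    linarith
  have hlim : Tendsto (fun F : Finset L => 2 * ∑ t ∈ F, |m t| - ∑' t, |m t|) atTop
      (𝓝 (2 * ∑' t, |m t| - ∑' t, |m t|)) :=
    (hm.hasSum.const_mul 2).sub_const _
  have h3 := le_of_tendsto' hlim key
  linarith

end Pool.H94S
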