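import Pool.Agent.H94S.Club
import Pool.Agent.H94S.Riesz

/-! The pairing between `ℓ_1(ω₁)` and `C_0(ω₁)`, truncation of the dual ball. -/

open Cardinal Set Filter Topology
open scoped ENNReal

namespace Pool.H94S

theorem abs_tsum_mul_le (a h : L → ℝ) (ha : Summable fun t => |a t|) (K : ℝ)
    (hK : ∀ t, a t ≠ 0 → |h t| ≤ K) : |∑' t, a t * h t| ≤ K * ∑' t, |a t| := by
  have h1 : ∀ t, ‖a t * h t‖ ≤ K * |a t| := by
    intro t
    rw [Real.norm_eq_abs, abs_mul]
    by_cases h0 : a t = 0
    · simp [h0]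
    · rw [mul_comm]
      exact mul_le_mul_of_nonneg_right (hK t h0) (abs_nonneg _)
  have h2 : Summable fun t => K * |a t| := ha.mul_left K
  have h3 : Summable fun t => ‖a t * h t‖ := Summable.of_nonneg_of_le (fun _ => norm_nonneg _) h1 h2
  have h4 : ‖∑' t, a t * h t‖ ≤ ∑' t, ‖a t * h t‖ := norm_tsum_le_tsum_norm h3
  rw [Real.norm_eq_abs] at h4
  refine h4.trans ?_
  rw [← tsum_mul_left]
  exact h3.tsum_le_tsum h1 h2

/-- The pairing. -/
noncomputable def pr (m : L → ℝ) (f : X) : ℝ := ∑' t, m t * ev f t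

theorem summable_pr {m : L → ℝ} (hm : Summable fun t => |m t|) (f : X) :
    Summable fun t => m t * ev f t := by
  refine Summable.of_norm_bounded (g := fun t => |m t| * ‖f‖) (hm.mul_right _) fun t => ?_
  rw [Real.norm_eq_abs, abs_mul]
  exact mul_le_mul_of_nonneg_left (abs_ev_le f t) (abs_nonneg _)

theorem abs_pr_le {m : L → ℝ} (hm : Summable fun t => |m t|) (f : X) :
    |pr m f| ≤ (∑' t, |m t|) * ‖f‖ := by
  rw [mul_comm]
  exact abs_tsum_mul_le m (ev f) hm ‖f‖ fun t _ => abs_ev_le f t

theorem pr_add {m : L → ℝ} (hm : Summable fun t => |m t|) (f g : X) :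
    pr m (f + g) = pr m f + pr m g := by
  rw [pr, pr, pr, ← (summable_pr hm f).tsum_add (summable_pr hm g)]
  refine tsum_congr fun t => ?_
  rw [ev_add]; ring

theorem pr_smul (m : L → ℝ) (c : ℝ) (f : X) : pr m (c • f) = c * pr m f := by
  rw [pr, pr, ← tsum_mul_left]
  refine tsum_congr fun t => ?_
  rw [ev_smul]; ring

theorem pr_neg (m : L → ℝ) (f : X) : pr m (-f) = -pr m f := by
  rw [pr, pr, ← tsum_neg]
  refine tsum_congr fun t => ?_
  rw [ev_neg]; ring

open Classical in
/-- The functional given by an absolutely summable family. -/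
noncomputable def fn (m : L → ℝ) : X →L[ℝ] ℝ :=
  if hm : Summable fun t => |m t| then
    LinearMap.mkContinuous
      { toFun := pr m
        map_add' := pr_add hm
        map_smul' := pr_smul m } (∑' t, |m t|) (fun f => abs_pr_le hm f)
  else 0

theorem fn_apply {m : L → ℝ} (hm : Summable fun t => |m t|) (f : X) : fn m f = pr m f := by
  rw [fn, dif_pos hm]
  rfl

theorem norm_fn_le {m : L → ℝ} (hm : Summable fun t => |m t|) : ‖fn m‖ ≤ ∑' t, |m t| := by
  refine ContinuousLinearMap.opNorm_le_bound _ (tsum_nonneg fun _ => abs_nonneg _) fun f => ?_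
  rw [fn_apply hm, Real.norm_eq_abs]
  exact abs_pr_le hm f

open Classical in
/-- Restriction of `m` to the points below `γ`. -/
noncomputable def trunc (γ : L) (m : L → ℝ) : L → ℝ := fun t => if t < γ then m t else 0

open Classical in
/-- Restriction of `m` to the points of `[a, b)`. -/
noncomputable def midm (a b : L) (m : L → ℝ) : L → ℝ := fun t => if a ≤ t ∧ t < b then m t else 0

open Classical in
/-- Restriction of `m` to the points of `[γ, ∞)`. -/
noncomputable def tailm (γ : L) (m : L → ℝ) : L → ℝ := fun t => if γ ≤ t then m t else 0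

theorem summable_of_le {m m' : L → ℝ} (hm : Summable fun t => |m t|) (h : ∀ t, |m' t| ≤ |m t|) :
    Summable fun t => |m' t| :=
  Summable.of_nonneg_of_le (fun _ => abs_nonneg _) h hm

theorem abs_trunc_le (γ : L) (m : L → ℝ) (t : L) : |trunc γ m t| ≤ |m t| := by
  rw [trunc]; split_ifs <;> simp

theorem abs_midm_le (a b : L) (m : L → ℝ) (t : L) : |midm a b m t| ≤ |m t| := by
  rw [midm]; split_ifs <;> simp

theorem abs_tailm_le (γ : L) (m : L → ℝ) (t : L) : |tailm γ m t| ≤ |m t| := by
  rw [tailm]; split_ifs <;> simp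

/-- Total mass. -/
noncomputable def mass (m : L → ℝ) : ℝ := ∑' t, |m t|

theorem mass_nonneg (m : L → ℝ) : 0 ≤ mass m := tsum_nonneg fun _ => abs_nonneg _

theorem mass_mono {m m' : L → ℝ} (hm : Summable fun t => |m t|) (h : ∀ t, |m' t| ≤ |m t|) :
    mass m' ≤ mass m := (summable_of_le hm h).tsum_le_tsum h hm

theorem mass_tailm_split {m : L → ℝ} (hm : Summable fun t => |m t|) {ξ γ : L} (h : ξ ≤ γ) :
    mass (tailm ξ m) = mass (midm ξ γ m) + mass (tailm γ m) := by
  rw [mass, mass, mass, ← (summable_of_le hm (abs_midm_le ξ γ m)).tsum_add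
    (summable_of_le hm (abs_tailm_le γ m))]
  refine tsum_congr fun t => ?_
  rw [tailm, midm, tailm]
  rcases lt_or_ge t ξ with h1 | h1
  · have h2 : t < γ := h1.trans_le h
    simp [not_le.2 h1, not_le.2 h2]
  · rcases lt_or_ge t γ with h2 | h2
    · simp [h1, h2, not_le.2 h2]
    · simp [h1, h2, not_lt.2 h2]

theorem pr_trunc_split {m : L → ℝ} (hm : Summable fun t => |m t|) {ξ γ : L} (h : ξ ≤ γ) (f : X) :
    pr (trunc γ m) f = pr (trunc ξ m) f + pr (midm ξ γ m) f := by
  rw [pr, pr, pr, ← (summable_pr (summable_of_le hm (abs_trunc_le ξ m)) f).tsum_add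
    (summable_pr (summable_of_le hm (abs_midm_le ξ γ m)) f)]
  refine tsum_congr fun t => ?_
  rw [trunc, midm, trunc]
  rcases lt_or_ge t ξ with h1 | h1
  · have h2 : t < γ := h1.trans_le h
    simp [h1, h2, not_le.2 h1]
  · rcases lt_or_ge t γ with h2 | h2
    · simp [h1, h2, not_lt.2 h1]
    · simp [not_lt.2 h1, not_lt.2 h2]

theorem abs_pr_midm_le {m : L → ℝ} (hm : Summable fun t => |m t|) (ξ γ : L) (f : X) (τ : ℝ)
    (hτ : ∀ t, ξ ≤ t → t < γ → |ev f t| ≤ τ) :
    |pr (midm ξ γ m) f| ≤ τ * mass (midm ξ γ m) := by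
  refine abs_tsum_mul_le _ _ (summable_of_le hm (abs_midm_le ξ γ m)) τ fun t ht => ?_
  rw [midm] at ht
  split_ifs at ht with h
  · exact hτ t h.1 h.2
  · exact absurd rfl ht

/-- The dual ball of `p`, as a set of absolutely summable families. -/
def Bp (p : Seminorm ℝ X) : Set (L → ℝ) := {m | (Summable fun t => |m t|) ∧ ∀ f, pr m f ≤ p f}

theorem Bp_abs {p : Seminorm ℝ X} {m : L → ℝ} (hm : m ∈ Bp p) (f : X) : |pr m f| ≤ p f := by
  rw [abs_le]
  constructor
  · have := hm.2 (-f)
    rw [pr_neg, map_neg_eq_map] at this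
    linarith
  · exact hm.2 f

theorem Bp_mass {p : Seminorm ℝ X} {C : ℝ} (hC : 0 ≤ C) (hp : ∀ f, p f ≤ C * ‖f‖) {m : L → ℝ}
    (hm : m ∈ Bp p) : mass m ≤ C :=
  sum_abs_le m hm.1 C fun f hf => (hm.2 f).trans ((hp f).trans (by nlinarith [norm_nonneg f]))

theorem Bp_delta {p : Seminorm ℝ X} {C : ℝ} (hC : 0 < C) (hp : ∀ f, ‖f‖ ≤ C * p f) (t : L) :
    (∃ m ∈ Bp p, ∀ f, pr m f = ev f t / C) ∧ (∃ m ∈ Bp p, (∀ s, s ≠ t → m s = 0) ∧
      ∀ f, pr m f = ev f t / C) := by
  classical
  have hsum : Summable fun s => |(Pi.single t (1 / C) : L → ℝ) s| := by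
    refine summable_of_ne_finset_zero (s := {t}) fun s hs => ?_
    rw [Finset.mem_singleton] at hs
    rw [Pi.single_eq_of_ne hs, abs_zero]
  have hpr : ∀ f, pr (Pi.single t (1 / C)) f = ev f t / C := by
    intro f
    rw [pr, tsum_eq_single t]
    · rw [Pi.single_eq_same]; ring
    · intro s hs
      rw [Pi.single_eq_of_ne hs, zero_mul]
  have hmem : (Pi.single t (1 / C) : L → ℝ) ∈ Bp p := by
    refine ⟨hsum, fun f => ?_⟩
    rw [hpr, div_le_iff₀ hC]
    have := (le_abs_self _).trans ((abs_ev_le f t).trans (hp f))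
    linarith
  exact ⟨⟨_, hmem, hpr⟩, ⟨_, hmem, fun s hs => Pi.single_eq_of_ne hs _, hpr⟩⟩

/-- Truncation at a reflecting point preserves the dual ball. -/
theorem Bp_trunc {p : Seminorm ℝ X} {C : ℝ} (hC : 0 < C) (hp : ∀ f, ‖f‖ ≤ C * p f) {γ : L}
    (hlim : IsLim γ) (hrefl : Refl p γ) {m : L → ℝ} (hm : m ∈ Bp p) : trunc γ m ∈ Bp p := by
  classical
  have hsm := summable_of_le hm.1 (abs_trunc_le γ m)
  refine ⟨hsm, fun f => ?_⟩
  refine le_of_forall_pos_le_add fun δ hδ => ?_
  -- constants
  set K : ℝ := ‖f‖ + C * (p f + 1) with hK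
  have hK0 : 0 ≤ K := by have := apply_nonneg p f; positivity
  obtain ⟨η, hη0, hη1, hη2, hη3⟩ : ∃ η : ℝ, 0 < η ∧ η ≤ 1 ∧ η * mass m ≤ δ / 3 ∧ η ≤ δ / 3 := by
    refine ⟨min 1 (min (δ / 3) (δ / 3 / (mass m + 1))), ?_, min_le_left _ _, ?_, ?_⟩
    · have := mass_nonneg m
      positivity
    · have h0 := mass_nonneg m
      have h1 : min 1 (min (δ / 3) (δ / 3 / (mass m + 1))) ≤ δ / 3 / (mass m + 1) :=
        (min_le_right _ _).trans (min_le_right _ _)
      calc min 1 (min (δ / 3) (δ / 3 / (mass m + 1))) * mass m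
          ≤ δ / 3 / (mass m + 1) * (mass m + 1) := by
            refine mul_le_mul h1 (by linarith) h0 (by positivity)
        _ = δ / 3 := by field_simp
    · exact (min_le_right _ _).trans (min_le_left _ _)
  -- a point `b < γ` beyond which `m` has small mass below `γ`
  obtain ⟨b, hb, hbm⟩ : ∃ b, b < γ ∧ K * mass (midm b γ m) ≤ δ / 3 := by
    have h1 : Tendsto (fun s : Finset L => ∑' t : {t // t ∉ s}, |trunc γ m t|) atTop (𝓝 0) :=
      tendsto_tsum_compl_atTop_zero (fun t => |trunc γ m t|)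
    have h2 := (h1.eventually (gt_mem_nhds (show (0 : ℝ) < δ / 3 / (K + 1) by positivity))).exists
    obtain ⟨s, hs⟩ := h2
    obtain ⟨b, hb, hb'⟩ : ∃ b, b < γ ∧ ∀ t ∈ s, t < γ → t < b := by
      have h3 : ∀ s : Finset L, ∃ b, b < γ ∧ ∀ t ∈ s, t < γ → t < b := by
        intro s
        induction s using Finset.induction_on with
        | empty =>
          obtain ⟨b, hb⟩ := hlim.1
          exact ⟨b, hb, by simp⟩
        | insert t0 s _ ih =>
          obtain ⟨b, hb, hb'⟩ := ih
          by_cases ht0 : t0 < γ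
          · obtain ⟨c, hc, hc'⟩ := hlim.2 (max b t0) (max_lt hb ht0)
            refine ⟨c, hc', fun t ht htγ => ?_⟩
            rcases Finset.mem_insert.1 ht with rfl | ht
            · exact (le_max_right _ _).trans_lt hc
            · exact (hb' t ht htγ).trans ((le_max_left _ _).trans_lt hc)
          · refine ⟨b, hb, fun t ht htγ => ?_⟩
            rcases Finset.mem_insert.1 ht with rfl | ht
            · exact absurd htγ ht0
            · exact hb' t ht htγ
      exact h3 s
    refine ⟨b, hb, ?_⟩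
    have h4 : mass (midm b γ m) ≤ ∑' t : {t // t ∉ s}, |trunc γ m t| := by
      have h5 : mass (midm b γ m) = ∑' t : {t // t ∉ s}, |midm b γ m t| := by
        rw [mass, ← (summable_of_le hm.1 (abs_midm_le b γ m)).sum_add_tsum_subtype_compl s,
          Finset.sum_eq_zero, zero_add]
        intro t ht
        rw [midm]
        split_ifs with h
        · exact absurd (hb' t ht h.2) (not_lt.2 h.1)
        · simp
      rw [h5]
      refine Summable.tsum_le_tsum ?_
        ((summable_of_le hm.1 (abs_midm_le b γ m)).subtype _) (hsm.subtype _)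
      rintro ⟨t, ht⟩
      show |midm b γ m t| ≤ |trunc γ m t|
      rw [midm, trunc]
      split_ifs with h h'
      · exact le_rfl
      · exact absurd h.2 h'
      · simp
      · simp
    have h6 : mass (midm b γ m) ≤ δ / 3 / (K + 1) := h4.trans hs.le
    calc K * mass (midm b γ m) ≤ (K + 1) * (δ / 3 / (K + 1)) := by
          refine mul_le_mul (by linarith) h6 (mass_nonneg _) (by positivity)
      _ = δ / 3 := by field_simp
  obtain ⟨g, hg1, hg2, hg3⟩ := hrefl f η hη0 b hb
  have hgn : ‖g‖ ≤ C * (p f + 1) := (hp g).trans (by gcongr; linarith)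
  -- compare
  have h7 : pr m g = pr (trunc γ m) g := by
    rw [pr, pr]
    refine tsum_congr fun t => ?_
    rw [trunc]
    split_ifs with h
    · rfl
    · rw [hg1 t (not_lt.1 h)]; simp
  have h8 : pr (trunc γ m) f - pr (trunc γ m) g = ∑' t, trunc γ m t * (ev f t - ev g t) := by
    rw [pr, pr, ← (summable_pr hsm f).tsum_sub (summable_pr hsm g)]
    refine tsum_congr fun t => ?_
    ring
  have h9 : ∑' t, trunc γ m t * (ev f t - ev g t) ≤ η * mass m + K * mass (midm b γ m) := by
    have hs1 : Summable fun t => trunc γ m t * (ev f t - ev g t) := by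
      have := (summable_pr hsm f).sub (summable_pr hsm g)
      refine this.congr fun t => ?_
      ring
    have hs2 : Summable fun t => η * |m t| + K * |midm b γ m t| :=
      (hm.1.mul_left η).add ((summable_of_le hm.1 (abs_midm_le b γ m)).mul_left K)
    have hle : ∀ t, trunc γ m t * (ev f t - ev g t) ≤ η * |m t| + K * |midm b γ m t| := by
      intro t
      refine (le_abs_self _).trans ?_
      rw [abs_mul]
      rcases le_or_gt t b with h | h
      · have h1 : |ev f t - ev g t| ≤ η := by rw [abs_sub_comm]; exact hg2 t h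
        have h2 := abs_trunc_le γ m t
        have h3 : |trunc γ m t| * |ev f t - ev g t| ≤ |m t| * η :=
          mul_le_mul h2 h1 (abs_nonneg _) (abs_nonneg _)
        have h4 : 0 ≤ K * |midm b γ m t| := by positivity
        linarith
      · have h1 : |ev f t - ev g t| ≤ K := by
          refine (abs_sub _ _).trans ?_
          have h2 := abs_ev_le f t
          have h3 := (abs_ev_le g t).trans hgn
          rw [hK]; linarith
        have h2 : |trunc γ m t| ≤ |midm b γ m t| := by
          rw [trunc, midm]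
          by_cases h3 : t < γ
          · simp [h3, h.le]
          · simp [h3]
        have h3 : |trunc γ m t| * |ev f t - ev g t| ≤ |midm b γ m t| * K :=
          mul_le_mul h2 h1 (abs_nonneg _) (abs_nonneg _)
        have h4 : 0 ≤ η * |m t| := by positivity
        linarith
    refine (hs1.tsum_le_tsum hle hs2).trans ?_
    rw [(hm.1.mul_left η).tsum_add ((summable_of_le hm.1 (abs_midm_le b γ m)).mul_left K),
      tsum_mul_left, tsum_mul_left]
    rfl
  have h10 := hm.2 g
  linarith

/-- Norming functionals. -/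
theorem exists_norming {p : Seminorm ℝ X} {C : ℝ} (hp : ∀ f, p f ≤ C * ‖f‖) (f : X) :
    ∃ m ∈ Bp p, pr m f = p f := by
  obtain ⟨μ, hμ1, hμ2⟩ : ∃ μ : X →L[ℝ] ℝ, μ f = p f ∧ ∀ g, μ g ≤ p g := by
    by_cases hf : f = 0
    · refine ⟨0, ?_, fun g => ?_⟩
      · rw [hf, map_zero p]; rfl
      · exact apply_nonneg p g
    · obtain ⟨g, hg1, hg2⟩ := exists_extension_of_le_sublinear
        ((LinearPMap.mkSpanSingleton f (p f) hf : X →ₗ.[ℝ] ℝ)) p
        (fun c hc x => by rw [map_smul_eq_mul, Real.norm_eq_abs, abs_of_pos hc])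
        (fun x y => map_add_le_add p x y)
        (by
          rintro ⟨x, hx⟩
          obtain ⟨c, rfl⟩ := Submodule.mem_span_singleton.1 hx
          rw [LinearPMap.mkSpanSingleton'_apply]
          show c • p f ≤ p (c • f)
          rw [map_smul_eq_mul, Real.norm_eq_abs, smul_eq_mul]
          exact mul_le_mul_of_nonneg_right (le_abs_self c) (apply_nonneg p f))
      refine ⟨LinearMap.mkContinuous g C fun x => ?_, ?_, fun x => hg2 x⟩
      · rw [Real.norm_eq_abs, abs_le]
        constructor
        · have := (hg2 (-x)).trans (hp (-x))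
          rw [map_neg, norm_neg] at this
          linarith
        · exact (hg2 x).trans (hp x)
      · show g f = p f
        have := hg1 ⟨f, Submodule.mem_span_singleton_self f⟩
        rw [this]
        exact LinearPMap.mkSpanSingleton_apply ℝ ℝ hf (p f)
  obtain ⟨m, hm1, hm2⟩ := riesz μ
  exact ⟨m, ⟨hm1, fun g => (hm2 g).symm.le.trans (hμ2 g)⟩, (hm2 f).symm.trans hμ1⟩

end Pool.H94S
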