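import Pool.Agent.H94S.Pair

/-! The renorming `p'` and its local pieces. -/

open Cardinal Set Filter Topology
open scoped ENNReal

namespace Pool.H94S

/-- Supremum of the absolute values of a bounded family of functionals. -/
noncomputable def supS (W : Set (X →L[ℝ] ℝ)) (K : ℝ) (hW : ∀ w ∈ W, ∀ f, |w f| ≤ K * ‖f‖) :
    Seminorm ℝ X :=
  Seminorm.ofSMulLE (fun f => ⨆ w : W, |w.1 f|)
    (by simp)
    (by
      intro f g
      have hb : ∀ f, BddAbove (range fun w : W => |w.1 f|) := fun f =>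
        ⟨K * ‖f‖, by rintro _ ⟨w, rfl⟩; exact hW w.1 w.2 f⟩
      refine Real.iSup_le (fun w => ?_)
        (add_nonneg (Real.iSup_nonneg fun _ => abs_nonneg _) (Real.iSup_nonneg fun _ => abs_nonneg _))
      rw [map_add]
      exact (abs_add_le _ _).trans (add_le_add (le_ciSup (hb f) w) (le_ciSup (hb g) w)))
    (by
      intro c f
      have hb : ∀ f, BddAbove (range fun w : W => |w.1 f|) := fun f =>
        ⟨K * ‖f‖, by rintro _ ⟨w, rfl⟩; exact hW w.1 w.2 f⟩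
      refine Real.iSup_le (fun w => ?_)
        (mul_nonneg (norm_nonneg _) (Real.iSup_nonneg fun _ => abs_nonneg _))
      rw [map_smul, smul_eq_mul, abs_mul, Real.norm_eq_abs]
      exact mul_le_mul_of_nonneg_left (le_ciSup (hb f) w) (abs_nonneg _))

theorem le_supS {W : Set (X →L[ℝ] ℝ)} {K : ℝ} (hW : ∀ w ∈ W, ∀ f, |w f| ≤ K * ‖f‖) {w : X →L[ℝ] ℝ}
    (hw : w ∈ W) (f : X) : |w f| ≤ supS W K hW f :=
  le_ciSup (f := fun w : W => |w.1 f|)
    ⟨K * ‖f‖, by rintro _ ⟨w, rfl⟩; exact hW w.1 w.2 f⟩ ⟨w, hw⟩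

theorem supS_le {W : Set (X →L[ℝ] ℝ)} {K : ℝ} (hW : ∀ w ∈ W, ∀ f, |w f| ≤ K * ‖f‖) {f : X} {a : ℝ}
    (ha : 0 ≤ a) (h : ∀ w ∈ W, |w f| ≤ a) : supS W K hW f ≤ a :=
  Real.iSup_le (fun w => h w.1 w.2) ha

theorem exists_lt_of_lt_supS {W : Set (X →L[ℝ] ℝ)} {K : ℝ} (hW : ∀ w ∈ W, ∀ f, |w f| ≤ K * ‖f‖)
    {f : X} {a : ℝ} (ha : 0 ≤ a) (h : a < supS W K hW f) : ∃ w ∈ W, a < |w f| := by
  by_contra hcon
  push Not at hcon
  exact absurd (supS_le hW ha hcon) (not_le.2 h)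

/-- The functionals generating `p'`. -/
noncomputable def wel (ε : ℝ) (m : L → ℝ) (γ : L) : X →L[ℝ] ℝ :=
  (1 + ε * mass (tailm γ m)) • fn (trunc γ m)

theorem wel_apply (ε : ℝ) {m : L → ℝ} (hm : Summable fun t => |m t|) (γ : L) (f : X) :
    wel ε m γ f = (1 + ε * mass (tailm γ m)) * pr (trunc γ m) f := by
  rw [wel, smul_apply, fn_apply (summable_of_le hm (abs_trunc_le γ m)),
    smul_eq_mul]

/-- The family generating `p'`. -/
def WU (ε : ℝ) (p : Seminorm ℝ X) (D : Set L) : Set (X →L[ℝ] ℝ) :=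
  {w | ∃ m ∈ Bp p, ∃ γ ∈ D, w = wel ε m γ}

/-- The family generating the local piece of `p'`. -/
def WW (ε : ℝ) (p : Seminorm ℝ X) (D : Set L) (a : L) : Set (X →L[ℝ] ℝ) :=
  {w | ∃ m ∈ Bp p, ∃ γ ∈ D, γ ≤ a ∧ w = wel ε m γ}

theorem WW_subset (ε : ℝ) (p : Seminorm ℝ X) (D : Set L) (a : L) : WW ε p D a ⊆ WU ε p D := by
  rintro w ⟨m, hm, γ, hγ, -, rfl⟩
  exact ⟨m, hm, γ, hγ, rfl⟩

/-- Standing assumptions. -/
structure Std (p : Seminorm ℝ X) (C ε : ℝ) (D : Set L) : Prop where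
  C0 : 0 < C
  low : ∀ f, ‖f‖ ≤ C * p f
  up : ∀ f, p f ≤ C * ‖f‖
  e0 : 0 < ε
  club : IsClub D
  refl : ∀ γ ∈ D, Refl p γ

section
variable {p : Seminorm ℝ X} {C ε : ℝ} {D : Set L} (H : Std p C ε D)
include H

theorem Std.coef_le {m : L → ℝ} (hm : m ∈ Bp p) (γ : L) :
    0 ≤ mass (tailm γ m) ∧ 1 + ε * mass (tailm γ m) ≤ 1 + ε * C := by
  refine ⟨mass_nonneg _, ?_⟩
  have h1 : mass (tailm γ m) ≤ C :=
    (mass_mono hm.1 (abs_tailm_le γ m)).trans (Bp_mass H.C0.le H.up hm)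
  have := mul_le_mul_of_nonneg_left h1 H.e0.le
  linarith

theorem Std.wel_le {m : L → ℝ} (hm : m ∈ Bp p) {γ : L} (hγ : γ ∈ D) (f : X) :
    |wel ε m γ f| ≤ (1 + ε * C) * p f := by
  rw [wel_apply ε hm.1, abs_mul]
  obtain ⟨h0, h1⟩ := H.coef_le hm γ
  have h2 : 0 ≤ 1 + ε * mass (tailm γ m) := by have := mul_nonneg H.e0.le h0; linarith
  rw [abs_of_nonneg h2]
  exact mul_le_mul h1 (Bp_abs (Bp_trunc H.C0 H.low (H.club.lim γ hγ) (H.refl γ hγ) hm) f)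
    (abs_nonneg _) (h2.trans h1)

theorem Std.one_add_nonneg : 0 ≤ 1 + ε * C := by
  have := mul_pos H.e0 H.C0
  linarith

theorem Std.hWU : ∀ w ∈ WU ε p D, ∀ f, |w f| ≤ ((1 + ε * C) * C) * ‖f‖ := by
  rintro w ⟨m, hm, γ, hγ, rfl⟩ f
  refine (H.wel_le hm hγ f).trans ?_
  rw [mul_assoc]
  exact mul_le_mul_of_nonneg_left (H.up f) H.one_add_nonneg

theorem Std.hWW (a : L) : ∀ w ∈ WW ε p D a, ∀ f, |w f| ≤ ((1 + ε * C) * C) * ‖f‖ :=
  fun w hw => H.hWU w (WW_subset _ _ _ _ hw)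

/-- The renorming. -/
noncomputable def Std.pp : Seminorm ℝ X := supS (WU ε p D) _ H.hWU

/-- The local pieces. -/
noncomputable def Std.pl (a : L) : Seminorm ℝ X := supS (WW ε p D a) _ (H.hWW a)

theorem Std.pp_le (f : X) : H.pp f ≤ (1 + ε * C) * p f := by
  refine supS_le _ (mul_nonneg H.one_add_nonneg (apply_nonneg p f)) ?_
  rintro w ⟨m, hm, γ, hγ, rfl⟩
  exact H.wel_le hm hγ f

theorem Std.pp_le_norm (f : X) : H.pp f ≤ ((1 + ε * C) * C) * ‖f‖ :=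
  supS_le _ (mul_nonneg (mul_nonneg H.one_add_nonneg H.C0.le) (norm_nonneg f))
    fun w hw => H.hWU w hw f

theorem Std.pl_le_norm (a : L) (f : X) : H.pl a f ≤ ((1 + ε * C) * C) * ‖f‖ :=
  supS_le _ (mul_nonneg (mul_nonneg H.one_add_nonneg H.C0.le) (norm_nonneg f))
    fun w hw => H.hWW a w hw f

theorem Std.le_pp (f : X) : p f ≤ H.pp f := by
  obtain ⟨m, hm, hmf⟩ := exists_norming H.up f
  obtain ⟨a, ha⟩ := ev_eventually f
  obtain ⟨γ, hγ, haγ⟩ := H.club.unb a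
  have h1 : pr (trunc γ m) f = p f := by
    rw [← hmf, pr, pr]
    refine tsum_congr fun t => ?_
    rw [trunc]
    split_ifs with h
    · rfl
    · rw [ha t (haγ.le.trans (not_lt.1 h))]; simp
  have h2 : |wel ε m γ f| ≤ H.pp f := le_supS H.hWU ⟨m, hm, γ, hγ, rfl⟩ f
  refine le_trans ?_ ((le_abs_self _).trans h2)
  rw [wel_apply ε hm.1, h1]
  have h3 := mul_nonneg H.e0.le (H.coef_le hm γ).1
  have h4 := apply_nonneg p f
  nlinarith [mul_nonneg h3 h4]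

theorem Std.pl_le_pp (a : L) (f : X) : H.pl a f ≤ H.pp f :=
  supS_le _ (apply_nonneg _ _) fun _ hw => le_supS H.hWU (WW_subset _ _ _ _ hw) f

theorem Std.pl_mono {a b : L} (h : a ≤ b) (f : X) : H.pl a f ≤ H.pl b f := by
  refine supS_le _ (apply_nonneg _ _) ?_
  rintro w ⟨m, hm, γ, hγ, hγa, rfl⟩
  exact le_supS (H.hWW b) ⟨m, hm, γ, hγ, hγa.trans h, rfl⟩ f

theorem Std.pl_cut (a : L) (f : X) : H.pl a (f - cut a f) = 0 := by
  refine le_antisymm (supS_le _ le_rfl ?_) (apply_nonneg _ _)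
  rintro w ⟨m, hm, γ, hγ, hγa, rfl⟩
  rw [wel_apply ε hm.1]
  have : pr (trunc γ m) (f - cut a f) = 0 := by
    rw [pr]
    rw [← tsum_zero (α := ℝ) (β := L)]
    refine tsum_congr fun t => ?_
    rw [trunc]
    split_ifs with h
    · rw [ev_sub, ev_cut_of_le (h.le.trans hγa)]; simp
    · simp
  rw [this]; simp

/-- If `f` vanishes beyond `ξ ∈ D` then the value of `p'` is attained at stage `ξ`. -/
theorem Std.pp_le_pl {ξ : L} (hξ : ξ ∈ D) {f : X} (hf : ∀ t, ξ ≤ t → ev f t = 0) :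
    H.pp f ≤ H.pl ξ f := by
  refine supS_le _ (apply_nonneg _ _) ?_
  rintro w ⟨m, hm, γ, hγ, rfl⟩
  rcases le_or_gt γ ξ with h | h
  · exact le_supS (H.hWW ξ) ⟨m, hm, γ, hγ, h, rfl⟩ f
  · refine le_trans ?_ (le_supS (H.hWW ξ) ⟨m, hm, ξ, hξ, le_rfl, rfl⟩ f)
    rw [wel_apply ε hm.1, wel_apply ε hm.1, abs_mul, abs_mul]
    have h1 : pr (trunc γ m) f = pr (trunc ξ m) f := by
      rw [pr, pr]
      refine tsum_congr fun t => ?_
      rw [trunc, trunc]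
      rcases lt_or_ge t ξ with h2 | h2
      · simp [h2, h2.trans h]
      · rw [hf t h2]; simp
    rw [h1]
    refine mul_le_mul_of_nonneg_right ?_ (abs_nonneg _)
    have h2 : mass (tailm γ m) ≤ mass (tailm ξ m) := by
      rw [mass_tailm_split hm.1 h.le]
      linarith [mass_nonneg (midm ξ γ m)]
    have h3 := mul_le_mul_of_nonneg_left h2 H.e0.le
    have h4 := mul_nonneg H.e0.le (mass_nonneg (tailm γ m))
    rw [abs_of_nonneg (by linarith), abs_of_nonneg (by linarith)]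
    linarith

theorem Std.abs_ev_le_pl {ξ : L} (hξ : ξ ∈ D) {t : L} (ht : t < ξ) (f : X) :
    |ev f t| / C ≤ H.pl ξ f := by
  obtain ⟨-, m, hm, hm0, hmf⟩ := Bp_delta H.C0 H.low t
  refine le_trans ?_ (le_supS (H.hWW ξ) ⟨m, hm, ξ, hξ, le_rfl, rfl⟩ f)
  rw [wel_apply ε hm.1]
  have h1 : pr (trunc ξ m) f = ev f t / C := by
    rw [← hmf f, pr, pr]
    refine tsum_congr fun s => ?_
    rw [trunc]
    split_ifs with h
    · rfl
    · rw [hm0 s (by rintro rfl; exact h ht)]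
  rw [h1, abs_mul, abs_div, abs_of_pos H.C0]
  have h2 := mul_nonneg H.e0.le (H.coef_le hm ξ).1
  rw [abs_of_nonneg (show 0 ≤ 1 + ε * mass (tailm ξ m) by linarith)]
  have h3 : 0 ≤ |ev f t| / C := div_nonneg (abs_nonneg _) H.C0.le
  nlinarith [mul_nonneg h2 h3]

/-- The key estimate. -/
theorem Std.pp_le_pl_of_small {ξ : L} (hξ : ξ ∈ D) {f : X} (hf : f ≠ 0) {τ : ℝ} (hτ0 : 0 < τ)
    (hτ1 : τ ≤ ‖f‖ / 2)
    (hτ2 : (1 + ε * C) * ((1 + ε * C) / ε + C) * τ ≤ ‖f‖ / (2 * C))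
    (hsm : ∀ t, ξ ≤ t → |ev f t| ≤ τ) : H.pp f ≤ H.pl ξ f := by
  have hfpos : 0 < ‖f‖ := norm_pos_iff.2 hf
  have hC := H.C0
  have he := H.e0
  -- lower bound for `pl`
  have hlow : ‖f‖ / (2 * C) ≤ H.pl ξ f := by
    obtain ⟨t, ht⟩ : ∃ t, ‖f‖ / 2 < |ev f t| := by
      by_contra hcon
      push Not at hcon
      have := (norm_le_iff (by positivity)).2 hcon
      linarith
    have h1 : t < ξ := by
      by_contra hcon
      exact absurd ((hsm t (not_lt.1 hcon)).trans hτ1) (not_le.2 ht)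
    refine le_trans ?_ (H.abs_ev_le_pl hξ h1 f)
    rw [div_le_div_iff₀ (by positivity) hC]
    nlinarith
  refine supS_le _ (apply_nonneg _ _) ?_
  rintro w ⟨m, hm, γ, hγ, rfl⟩
  rcases le_or_gt γ ξ with h | h
  · exact le_supS (H.hWW ξ) ⟨m, hm, γ, hγ, h, rfl⟩ f
  · have h1 := le_supS (H.hWW ξ) ⟨m, hm, ξ, hξ, le_rfl, rfl⟩ f
    rw [wel_apply ε hm.1, abs_mul] at h1 ⊢
    rw [mass_tailm_split hm.1 h.le] at h1
    rw [pr_trunc_split hm.1 h.le f]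
    have h2 := abs_pr_midm_le hm.1 ξ γ f τ fun t ht _ => hsm t ht
    obtain ⟨hν0, hν1⟩ := H.coef_le hm γ
    have hμ0 := mass_nonneg (midm ξ γ m)
    have hμ1 : mass (midm ξ γ m) ≤ C :=
      (mass_mono hm.1 (abs_midm_le ξ γ m)).trans (Bp_mass hC.le H.up hm)
    set μ := mass (midm ξ γ m) with hμ
    set ν := mass (tailm γ m) with hν
    set A := |pr (trunc ξ m) f| with hA
    have hA0 : 0 ≤ A := abs_nonneg _
    have h3 : |pr (trunc ξ m) f + pr (midm ξ γ m) f| ≤ A + τ * μ := (abs_add_le _ _).trans (by linarith)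
    have h4 : 0 ≤ 1 + ε * ν := by have := mul_nonneg he.le hν0; linarith
    have h5 : 0 ≤ 1 + ε * (μ + ν) := by have := mul_nonneg he.le (add_nonneg hμ0 hν0); linarith
    rw [abs_of_nonneg h5] at h1
    rw [abs_of_nonneg h4]
    have h6 : (1 + ε * ν) * |pr (trunc ξ m) f + pr (midm ξ γ m) f| ≤ (1 + ε * ν) * (A + τ * μ) :=
      mul_le_mul_of_nonneg_left h3 h4
    refine h6.trans ?_
    rcases le_or_gt ((1 + ε * C) * τ) (ε * A) with h7 | h7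
    · refine le_trans ?_ h1
      have h8 : (1 + ε * ν) * τ ≤ ε * A := (mul_le_mul_of_nonneg_right hν1 hτ0.le).trans h7
      nlinarith [mul_le_mul_of_nonneg_right h8 hμ0]
    · refine le_trans ?_ (hτ2.trans hlow)
      have h8 : A ≤ (1 + ε * C) / ε * τ := by
        rw [div_mul_eq_mul_div, le_div_iff₀ he]
        linarith
      have h9 : A + τ * μ ≤ ((1 + ε * C) / ε + C) * τ := by
        nlinarith [mul_le_mul_of_nonneg_left hμ1 hτ0.le]
      calc (1 + ε * ν) * (A + τ * μ) ≤ (1 + ε * C) * (((1 + ε * C) / ε + C) * τ) :=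
            mul_le_mul hν1 h9 (by positivity) H.one_add_nonneg
        _ = _ := by ring

/-- The star lemma. -/
theorem Std.star {f : X} (hf : f ≠ 0) : ∃ ζ ∈ JS D,
    (∃ t, ζ ≤ t ∧ t ≤ nxt H.club ζ ∧ ev f t ≠ ev f ζ) ∧ H.pp f ≤ H.pl (nxt H.club ζ) f := by
  have hfpos : 0 < ‖f‖ := norm_pos_iff.2 hf
  have hC := H.C0
  have he := H.e0
  have hne : {γ | γ ∈ D ∧ ∀ t, γ ≤ t → ev f t = 0}.Nonempty := by
    obtain ⟨a, ha⟩ := ev_eventually f
    obtain ⟨γ, hγ, haγ⟩ := H.club.unb a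
    exact ⟨γ, hγ, fun t ht => ha t (haγ.le.trans ht)⟩
  obtain ⟨ξ₀, ⟨hξD, hξ0⟩, hmin⟩ : ∃ ξ₀, (ξ₀ ∈ D ∧ ∀ t, ξ₀ ≤ t → ev f t = 0) ∧
      ∀ γ, γ < ξ₀ → γ ∈ D → ¬ ∀ t, γ ≤ t → ev f t = 0 := by
    refine ⟨(wellFounded_lt (α := L)).min _ hne, (wellFounded_lt (α := L)).min_mem _ hne, ?_⟩
    intro γ hγ hγD hcon
    exact (wellFounded_lt (α := L)).not_lt_min _ (show γ ∈ {γ | γ ∈ D ∧ ∀ t, γ ≤ t → ev f t = 0}
      from ⟨hγD, hcon⟩) hγ
  by_cases hA : ∃ ζ ∈ JS D, nxt H.club ζ = ξ₀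
  · obtain ⟨ζ, hζ, hζξ⟩ := hA
    refine ⟨ζ, hζ, ?_, ?_⟩
    · by_contra hcon
      push Not at hcon
      have hlt : ζ < ξ₀ := by rw [← hζξ]; exact lt_nxt H.club ζ
      have h1 : ev f ζ = 0 := by
        rw [← hcon ξ₀ hlt.le hζξ.ge]
        exact hξ0 ξ₀ le_rfl
      have h2 : ∀ t, ζ ≤ t → ev f t = 0 := by
        intro t ht
        rcases le_or_gt t ξ₀ with h3 | h3
        · rw [hcon t ht (h3.trans hζξ.ge), h1]
        · exact hξ0 t h3.le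
      rcases hζ with hζ | hζ
      · exact hmin ζ hlt hζ h2
      · apply hf
        apply ext_ev
        intro t
        rw [h2 t (not_lt.1 (hζ t)), ev_zero]
    · rw [hζξ]
      exact H.pp_le_pl hξD hξ0
  · push Not at hA
    have hlim : ∀ b, b < ξ₀ → ∃ c ∈ D, b < c ∧ c < ξ₀ := by
      intro b hb
      obtain ⟨ζ, h1, h2, h3⟩ := exists_max_JS H.club b
      refine ⟨nxt H.club ζ, nxt_mem H.club ζ, ?_, lt_of_le_of_ne (nxt_le H.club hξD (h2.trans_lt hb))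
        (hA ζ h1)⟩
      by_contra hc
      push Not at hc
      exact absurd (h3 _ (Or.inl (nxt_mem H.club ζ)) hc) (not_le.2 (lt_nxt H.club ζ))
    set K : ℝ := (1 + ε * C) * ((1 + ε * C) / ε + C) with hK
    have hKpos : 0 < K := by positivity
    obtain ⟨τ, hτ0, hτ1, hτ2⟩ : ∃ τ : ℝ, 0 < τ ∧ τ ≤ ‖f‖ / 2 ∧ K * τ ≤ ‖f‖ / (2 * C) := by
      refine ⟨min (‖f‖ / 2) (‖f‖ / (2 * C) / K), by positivity, min_le_left _ _, ?_⟩
      calc K * min (‖f‖ / 2) (‖f‖ / (2 * C) / K) ≤ K * (‖f‖ / (2 * C) / K) :=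
            mul_le_mul_of_nonneg_left (min_le_right _ _) hKpos.le
        _ = ‖f‖ / (2 * C) := by field_simp
    obtain ⟨b, hb, h1⟩ := ev_cont f ξ₀ (H.club.lim ξ₀ hξD).1 τ hτ0
    obtain ⟨ξ, hξ, h2, h3⟩ := hlim b hb
    have hsm : ∀ t, ξ ≤ t → |ev f t| ≤ τ := by
      intro t ht
      rcases le_or_gt t ξ₀ with h4 | h4
      · have h5 := h1 t (h2.trans_le ht) h4
        rwa [hξ0 ξ₀ le_rfl, sub_zero] at h5
      · rw [hξ0 t h4.le, abs_zero]; exact hτ0.le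
    have h4 := H.pp_le_pl_of_small hξ hf hτ0 hτ1 hτ2 hsm
    by_contra hcon
    push Not at hcon
    have h5 : ∀ ζ ∈ JS D, ξ ≤ ζ → ∀ t, ζ ≤ t → t ≤ nxt H.club ζ → ev f t = ev f ζ := by
      intro ζ hζ hξζ
      by_contra hc
      push Not at hc
      have h6 := hcon ζ hζ hc
      exact absurd (h4.trans (H.pl_mono (hξζ.trans (lt_nxt H.club ζ).le) f)) (not_le.2 h6)
    have h6 := const_of_blocks H.club f ξ (Or.inl hξ) h5
    refine hmin ξ h3 hξ fun t ht => ?_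
    rw [h6 t ht, ← h6 ξ₀ h3.le]
    exact hξ0 ξ₀ le_rfl

end

end Pool.H94S
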