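import Mathlib

/-!
The Banach space `C_0(ω₁)`, realised as the closed subspace of `ℓ_∞(ω₁)` of all functions which are
continuous for the order topology and eventually zero.
-/

open Cardinal Set
open scoped ENNReal

namespace Pool.H94S

/-- The first uncountable well order. -/
abbrev L : Type := (ℵ_ 1).ord.ToType

theorem mk_L : #L = ℵ_ 1 := mk_ord_toType _

theorem countable_Iio (a : L) : (Iio a).Countable := by
  have h1 : #(Iio a) < ℵ_ 1 := by
    have := mk_Iio_lt a (by simp)
    rwa [mk_L] at this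
  rw [← le_aleph0_iff_set_countable]
  exact Cardinal.lt_aleph_one_iff.1 h1

theorem countable_Iic (a : L) : (Iic a).Countable := by
  have : (Iic a : Set L) = insert a (Iio a) := by
    ext x; simp [le_iff_eq_or_lt]
  rw [this]
  exact (countable_Iio a).insert a

theorem not_countable_univ : ¬ (Set.univ : Set L).Countable := by
  intro h
  rw [← le_aleph0_iff_set_countable, mk_univ, mk_L] at h
  exact absurd h (not_le.2 aleph0_lt_aleph_one)

theorem exists_gt_of_countable (S : Set L) (hS : S.Countable) : ∃ b : L, ∀ s ∈ S, s < b := by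
  by_contra hcon
  push Not at hcon
  apply not_countable_univ
  have : (Set.univ : Set L) ⊆ ⋃ s ∈ S, Iic s := by
    intro b _
    obtain ⟨s, hs, hb⟩ := hcon b
    exact mem_biUnion hs hb
  exact (hS.biUnion fun s _ => countable_Iic s).mono this

instance : Nonempty L := by
  obtain ⟨b, -⟩ := exists_gt_of_countable ∅ countable_empty
  exact ⟨b⟩

theorem exists_gt' (a : L) : ∃ b, a < b := by
  obtain ⟨b, hb⟩ := exists_gt_of_countable {a} (countable_singleton a)
  exact ⟨b, hb a rfl⟩

/-- Continuity for the order topology together with vanishing beyond a countable stage. -/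
def IsGood (f : L → ℝ) : Prop :=
  (∀ a, (∃ b, b < a) → ∀ η : ℝ, 0 < η → ∃ b < a, ∀ t, b < t → t ≤ a → |f t - f a| ≤ η) ∧
    ∃ a, ∀ t, a ≤ t → f t = 0

theorem IsGood.zero : IsGood (fun _ => 0) := by
  refine ⟨fun a ha η hη => ?_, ?_⟩
  · obtain ⟨b, hb⟩ := ha
    exact ⟨b, hb, fun t _ _ => by simpa using hη.le⟩
  · obtain ⟨a⟩ : Nonempty L := inferInstance
    exact ⟨a, fun _ _ => rfl⟩

theorem IsGood.add {f g : L → ℝ} (hf : IsGood f) (hg : IsGood g) : IsGood (fun t => f t + g t) := by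
  refine ⟨fun a ha η hη => ?_, ?_⟩
  · obtain ⟨b, hb, h1⟩ := hf.1 a ha (η / 2) (by positivity)
    obtain ⟨c, hc, h2⟩ := hg.1 a ha (η / 2) (by positivity)
    refine ⟨max b c, max_lt hb hc, fun t ht1 ht2 => ?_⟩
    have h3 := h1 t ((le_max_left _ _).trans_lt ht1) ht2
    have h4 := h2 t ((le_max_right _ _).trans_lt ht1) ht2
    have h5 : f t + g t - (f a + g a) = (f t - f a) + (g t - g a) := by ring
    rw [h5]
    exact (abs_add_le _ _).trans (by linarith)
  · obtain ⟨a, ha⟩ := hf.2
    obtain ⟨b, hb⟩ := hg.2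
    refine ⟨max a b, fun t ht => ?_⟩
    show f t + g t = 0
    rw [ha t ((le_max_left _ _).trans ht), hb t ((le_max_right _ _).trans ht), add_zero]

theorem IsGood.smul {f : L → ℝ} (c : ℝ) (hf : IsGood f) : IsGood (fun t => c * f t) := by
  refine ⟨fun a ha η hη => ?_, ?_⟩
  · obtain ⟨b, hb, h1⟩ := hf.1 a ha (η / (|c| + 1)) (by positivity)
    refine ⟨b, hb, fun t ht1 ht2 => ?_⟩
    have h2 := h1 t ht1 ht2
    have h3 : c * f t - c * f a = c * (f t - f a) := by ring
    rw [h3, abs_mul]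
    have h4 : |c| * |f t - f a| ≤ (|c| + 1) * (η / (|c| + 1)) := by
      gcongr
      linarith
    refine h4.trans (le_of_eq ?_)
    field_simp
  · obtain ⟨a, ha⟩ := hf.2
    refine ⟨a, fun t ht => ?_⟩
    show c * f t = 0
    rw [ha t ht, mul_zero]

/-- The ambient space. -/
abbrev Amb : Type := lp (fun _ : L => ℝ) ∞

theorem amb_apply_le (f : Amb) (t : L) : |f t| ≤ ‖f‖ := by
  have := lp.norm_apply_le_norm (by simp : (∞ : ℝ≥0∞) ≠ 0) f t
  simpa using this

theorem isGood_of_limit (f : Amb) (h : ∀ η : ℝ, 0 < η → ∃ g : Amb, IsGood g ∧ ‖f - g‖ ≤ η) :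
    IsGood f := by
  refine ⟨fun a ha η hη => ?_, ?_⟩
  · obtain ⟨g, hg, hfg⟩ := h (η / 3) (by positivity)
    obtain ⟨b, hb, h1⟩ := hg.1 a ha (η / 3) (by positivity)
    refine ⟨b, hb, fun t ht1 ht2 => ?_⟩
    have h2 := h1 t ht1 ht2
    have h3 := (amb_apply_le (f - g) t).trans hfg
    have h4 := (amb_apply_le (f - g) a).trans hfg
    have h5 : (f - g) t = f t - g t := by simp
    have h6 : (f - g) a = f a - g a := by simp
    rw [h5] at h3
    rw [h6] at h4
    rw [abs_le] at *
    constructor <;> linarith [h2.1, h2.2, h3.1, h3.2, h4.1, h4.2]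
  · have h1 : ∀ n : ℕ, ∃ a : L, ∀ t, a ≤ t → |f t| ≤ 1 / ((n : ℝ) + 1) := by
      intro n
      obtain ⟨g, hg, hfg⟩ := h (1 / ((n : ℝ) + 1)) (by positivity)
      obtain ⟨a, ha⟩ := hg.2
      refine ⟨a, fun t ht => ?_⟩
      have h3 := (amb_apply_le (f - g) t).trans hfg
      have h5 : (f - g) t = f t - g t := by simp
      rw [h5, ha t ht, sub_zero] at h3
      exact h3
    choose a ha using h1
    obtain ⟨b, hb⟩ := exists_gt_of_countable (range a) (countable_range a)
    refine ⟨b, fun t ht => ?_⟩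
    have h2 : ∀ n : ℕ, |f t| ≤ 1 / ((n : ℝ) + 1) := fun n =>
      ha n t ((hb _ (mem_range_self n)).le.trans ht)
    have h3 : |f t| ≤ 0 := ge_of_tendsto' tendsto_one_div_add_atTop_nhds_zero_nat h2
    exact abs_eq_zero.1 (le_antisymm h3 (abs_nonneg _))

/-- `C_0(ω₁)` as a subspace of `ℓ_∞(ω₁)`. -/
def XS : Submodule ℝ Amb where
  carrier := {f | IsGood f}
  zero_mem' := by
    have : ((0 : Amb) : L → ℝ) = fun _ => 0 := by ext; simp
    show IsGood ((0 : Amb) : L → ℝ)
    rw [this]
    exact IsGood.zero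
  add_mem' := by
    intro f g hf hg
    have : ((f + g : Amb) : L → ℝ) = fun t => f t + g t := by ext; simp
    show IsGood ((f + g : Amb) : L → ℝ)
    rw [this]
    exact IsGood.add hf hg
  smul_mem' := by
    intro c f hf
    have : ((c • f : Amb) : L → ℝ) = fun t => c * f t := by ext; simp
    show IsGood ((c • f : Amb) : L → ℝ)
    rw [this]
    exact IsGood.smul c hf

/-- `C_0(ω₁)`. -/
abbrev X : Type := XS

theorem isClosed_XS : IsClosed (XS : Set Amb) := by
  rw [← isSeqClosed_iff_isClosed]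
  intro u f hu hf
  apply isGood_of_limit
  intro η hη
  obtain ⟨n, hn⟩ := (Metric.tendsto_atTop.1 hf η hη)
  refine ⟨u n, hu n, ?_⟩
  have := hn n le_rfl
  rw [dist_comm, dist_eq_norm] at this
  exact this.le

instance : CompleteSpace X := isClosed_XS.completeSpace_coe

/-- Evaluation. -/
def ev (f : X) (t : L) : ℝ := (f : Amb) t

theorem ev_good (f : X) : IsGood (ev f) := f.2

@[simp] theorem ev_add (f g : X) (t : L) : ev (f + g) t = ev f t + ev g t := by simp [ev]
@[simp] theorem ev_sub (f g : X) (t : L) : ev (f - g) t = ev f t - ev g t := by simp [ev]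
@[simp] theorem ev_neg (f : X) (t : L) : ev (-f) t = -ev f t := by simp [ev]
@[simp] theorem ev_smul (c : ℝ) (f : X) (t : L) : ev (c • f) t = c * ev f t := by simp [ev]
@[simp] theorem ev_zero (t : L) : ev 0 t = 0 := by simp [ev]
@[simp] theorem ev_sum {ι : Type} (s : Finset ι) (f : ι → X) (t : L) :
    ev (∑ i ∈ s, f i) t = ∑ i ∈ s, ev (f i) t := by
  classical
  induction s using Finset.induction_on with
  | empty => simp
  | insert a s ha ih => rw [Finset.sum_insert ha, Finset.sum_insert ha, ev_add, ih]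

theorem abs_ev_le (f : X) (t : L) : |ev f t| ≤ ‖f‖ := amb_apply_le f.1 t

theorem norm_le_iff {f : X} {C : ℝ} (hC : 0 ≤ C) : ‖f‖ ≤ C ↔ ∀ t, |ev f t| ≤ C := by
  constructor
  · intro h t
    exact (abs_ev_le f t).trans h
  · intro h
    exact lp.norm_le_of_forall_le (f := (f : Amb)) hC (fun t => by rw [Real.norm_eq_abs]; exact h t)

theorem ext_ev {f g : X} (h : ∀ t, ev f t = ev g t) : f = g := by
  apply Subtype.ext
  apply lp.ext
  funext t
  exact h t

/-- Constructor. -/
def mkX (f : L → ℝ) (hf : IsGood f) (hb : ∃ C : ℝ, ∀ t, |f t| ≤ C) : X :=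
  ⟨⟨f, memℓp_infty (by
    obtain ⟨C, hC⟩ := hb
    exact ⟨C, by rintro _ ⟨t, rfl⟩; simpa using hC t⟩)⟩, hf⟩

@[simp] theorem ev_mkX (f : L → ℝ) (hf : IsGood f) (hb : ∃ C : ℝ, ∀ t, |f t| ≤ C) (t : L) :
    ev (mkX f hf hb) t = f t := rfl

/-- Left continuity in the form used everywhere. -/
theorem ev_cont (f : X) (a : L) (ha : ∃ b, b < a) (η : ℝ) (hη : 0 < η) :
    ∃ b < a, ∀ t, b < t → t ≤ a → |ev f t - ev f a| ≤ η := (ev_good f).1 a ha η hη

theorem ev_eventually (f : X) : ∃ a, ∀ t, a ≤ t → ev f t = 0 := (ev_good f).2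

end Pool.H94S
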